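import Mathlib

/-!
# Ergodic measures maximising the mass of a clopen set
-/

namespace Pool.Agent.H48

open MeasureTheory Set Filter Topology TopologicalSpace

theorem borel_eq_clopen : (inferInstance : MeasurableSpace (ℕ → Bool)) =
    MeasurableSpace.generateFrom {s : Set (ℕ → Bool) | IsClopen s} := by
  have h1 : (inferInstance : MeasurableSpace (ℕ → Bool)) = borel (ℕ → Bool) :=
    BorelSpace.measurable_eq
  rw [h1]
  exact (loc_compact_Haus_tot_disc_of_zero_dim (H := ℕ → Bool)).borel_eq_generateFrom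

theorem measure_ext_clopen (μ ν : Measure (ℕ → Bool)) [IsProbabilityMeasure μ]
    [IsProbabilityMeasure ν] (h : ∀ s, IsClopen s → μ s = ν s) : μ = ν := by
  refine ext_of_generate_finite {s : Set (ℕ → Bool) | IsClopen s} borel_eq_clopen ?_ ?_ (by simp)
  · intro s hs t ht _
    exact hs.inter ht
  · exact h

theorem continuous_apply_clopen {G : Set (ℕ → Bool)} (hG : IsClopen G) :
    Continuous (fun μ : ProbabilityMeasure (ℕ → Bool) => μ G) :=
  continuous_iff_continuousAt.2 fun _ =>
    ProbabilityMeasure.tendsto_measure_of_isClopen_of_tendsto tendsto_id hG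

variable {Γ : Type} (a : Γ → C(ℕ → Bool, ℕ → Bool))

/-- Invariance of a probability measure under all maps `a g`. -/
def Inv (μ : ProbabilityMeasure (ℕ → Bool)) : Prop :=
  ∀ g : Γ, (μ : Measure (ℕ → Bool)).map (⇑(a g)) = (μ : Measure (ℕ → Bool))

/-- Ergodicity: invariant measurable sets are null or conull. -/
def Erg (μ : ProbabilityMeasure (ℕ → Bool)) : Prop :=
  ∀ s : Set (ℕ → Bool), MeasurableSet s → (∀ g : Γ, ⇑(a g) ⁻¹' s = s) →
    (μ : Measure (ℕ → Bool)) s = 0 ∨ (μ : Measure (ℕ → Bool)) s = 1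

theorem isClosed_inv : IsClosed {μ : ProbabilityMeasure (ℕ → Bool) | Inv a μ} := by
  have : {μ : ProbabilityMeasure (ℕ → Bool) | Inv a μ} =
      ⋂ g : Γ, {μ : ProbabilityMeasure (ℕ → Bool) |
        μ.map (a g).continuous.measurable.aemeasurable = μ} := by
    ext μ
    simp only [Inv, mem_iInter, Set.mem_ofPred_eq]
    refine forall_congr' fun g => ?_
    constructor
    · intro h
      apply Subtype.ext
      exact h
    · intro h
      exact congrArg Subtype.val h
  rw [this]
  refine isClosed_iInter fun g => ?_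
  exact isClosed_eq (ProbabilityMeasure.continuous_map (a g).continuous) continuous_id

theorem inv_cond {μ : ProbabilityMeasure (ℕ → Bool)} (h : Inv a μ) {s : Set (ℕ → Bool)}
    (hs : MeasurableSet s) (hinv : ∀ g : Γ, ⇑(a g) ⁻¹' s = s) (g : Γ) :
    (ProbabilityTheory.cond (μ : Measure (ℕ → Bool)) s).map (⇑(a g)) =
      ProbabilityTheory.cond (μ : Measure (ℕ → Bool)) s := by
  ext B hB
  have hmeas := (a g).continuous.measurable
  rw [Measure.map_apply hmeas hB, ProbabilityTheory.cond_apply hs, ProbabilityTheory.cond_apply hs]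
  congr 1
  conv_lhs => rw [← hinv g, ← preimage_inter]
  rw [← Measure.map_apply hmeas (hs.inter hB), h g]

/-- For every invariant measure and every clopen set there is an ergodic measure giving at least
the same mass to the clopen set. -/
theorem exists_erg_max (μ₀ : ProbabilityMeasure (ℕ → Bool)) (h₀ : Inv a μ₀)
    (G : Set (ℕ → Bool)) (hG : IsClopen G) :
    ∃ μ : ProbabilityMeasure (ℕ → Bool), Inv a μ ∧ Erg a μ ∧ μ₀ G ≤ μ G := by
  classical
  have : Countable (Clopens (ℕ → Bool)) :=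
    TopologicalSpace.Clopens.countable_iff_secondCountable.2 inferInstance
  obtain ⟨e, he⟩ := exists_surjective_nat (Clopens (ℕ → Bool))
  obtain ⟨C, hC0, hCs⟩ : ∃ C : ℕ → Set (ℕ → Bool), C 0 = G ∧
      ∀ m, C (m + 1) = (e m : Set (ℕ → Bool)) :=
    ⟨fun n => Nat.casesOn n G (fun m => (e m : Set (ℕ → Bool))), rfl, fun m => rfl⟩
  have hC : ∀ n, IsClopen (C n) := by
    intro n
    cases n with
    | zero => rw [hC0]; exact hG
    | succ m => rw [hCs]; exact (e m).isClopen
  obtain ⟨K, hK0, hKs⟩ : ∃ K : ℕ → Set (ProbabilityMeasure (ℕ → Bool)), K 0 = {μ | Inv a μ} ∧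
      ∀ n, K (n + 1) = {μ ∈ K n | ∀ ν ∈ K n, ν (C n) ≤ μ (C n)} :=
    ⟨fun n => Nat.rec {μ | Inv a μ} (fun m S => {μ ∈ S | ∀ ν ∈ S, ν (C m) ≤ μ (C m)}) n,
      rfl, fun n => rfl⟩
  have hKc : ∀ n, IsCompact (K n) ∧ (K n).Nonempty := by
    intro n
    induction n with
    | zero => rw [hK0]; exact ⟨(isClosed_inv a).isCompact, ⟨μ₀, h₀⟩⟩
    | succ n ih =>
      obtain ⟨m, hm, hmax⟩ := ih.1.exists_isMaxOn ih.2 (continuous_apply_clopen (hC n)).continuousOn
      have hEq : K (n + 1) = K n ∩ {μ | m (C n) ≤ μ (C n)} := by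
        rw [hKs]
        ext μ
        constructor
        · rintro ⟨h1, h2⟩
          exact ⟨h1, h2 m hm⟩
        · rintro ⟨h1, h2⟩
          exact ⟨h1, fun ν hν => le_trans (hmax hν) h2⟩
      rw [hEq]
      refine ⟨ih.1.inter_right ?_, ⟨m, hm, le_refl (m (C n))⟩⟩
      exact isClosed_le continuous_const (continuous_apply_clopen (hC n))
  have hsub : ∀ n, K (n + 1) ⊆ K n := fun n μ hμ => by rw [hKs] at hμ; exact hμ.1
  obtain ⟨μ, hμ⟩ := IsCompact.nonempty_iInter_of_sequence_nonempty_isCompact_isClosed K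
    hsub (fun n => (hKc n).2) (hKc 0).1 (fun n => (hKc n).1.isClosed)
  rw [mem_iInter] at hμ
  have hinv : Inv a μ := by have := hμ 0; rwa [hK0] at this
  refine ⟨μ, hinv, ?_, ?_⟩
  · intro s hs hsinv
    by_contra hcon
    push Not at hcon
    obtain ⟨hs0, hs1⟩ := hcon
    have hc0 : (μ : Measure (ℕ → Bool)) sᶜ ≠ 0 := by
      intro h
      apply hs1
      rwa [prob_compl_eq_zero_iff hs] at h
    let μ1 : ProbabilityMeasure (ℕ → Bool) :=
      ⟨ProbabilityTheory.cond (μ : Measure (ℕ → Bool)) s,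
        ProbabilityTheory.cond_isProbabilityMeasure hs0⟩
    let μ2 : ProbabilityMeasure (ℕ → Bool) :=
      ⟨ProbabilityTheory.cond (μ : Measure (ℕ → Bool)) sᶜ,
        ProbabilityTheory.cond_isProbabilityMeasure hc0⟩
    have hmix : ∀ t : Set (ℕ → Bool), MeasurableSet t →
        (μ1 t : ℝ) * (μ s : ℝ) + (μ2 t : ℝ) * (μ sᶜ : ℝ) = μ t := by
      intro t ht
      have h1 := ProbabilityTheory.cond_add_cond_compl_eq (μ := (μ : Measure (ℕ → Bool))) (t := t) hs
      have h2 := congrArg ENNReal.toReal h1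
      rw [ENNReal.toReal_add (ENNReal.mul_ne_top (measure_ne_top _ _) (measure_ne_top _ _))
        (ENNReal.mul_ne_top (measure_ne_top _ _) (measure_ne_top _ _)), ENNReal.toReal_mul,
        ENNReal.toReal_mul] at h2
      exact h2
    have hsum : (μ s : ℝ) + (μ sᶜ : ℝ) = 1 := by
      have := hmix univ MeasurableSet.univ
      simpa using this
    have hspos : 0 < (μ s : ℝ) := by
      have h1 : (μ s) ≠ 0 := by
        intro h
        apply hs0
        rwa [ProbabilityMeasure.null_iff_toMeasure_null] at h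
      exact_mod_cast pos_iff_ne_zero.2 h1
    have hcpos : 0 < (μ sᶜ : ℝ) := by
      have h1 : (μ sᶜ) ≠ 0 := by
        intro h
        apply hc0
        rwa [ProbabilityMeasure.null_iff_toMeasure_null] at h
      exact_mod_cast pos_iff_ne_zero.2 h1
    have hmem : ∀ n, μ1 ∈ K n ∧ μ2 ∈ K n := by
      intro n
      induction n with
      | zero =>
        rw [hK0]
        refine ⟨fun g => inv_cond a hinv hs hsinv g,
          fun g => inv_cond a hinv hs.compl (fun g => ?_) g⟩
        rw [preimage_compl, hsinv g]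
      | succ n ih =>
        have hn := hμ (n + 1)
        rw [hKs] at hn ⊢
        have h1 := hn.2 μ1 ih.1
        have h2 := hn.2 μ2 ih.2
        have h3 := hmix (C n) (hC n).isOpen.measurableSet
        have h1' : (μ1 (C n) : ℝ) ≤ μ (C n) := by exact_mod_cast h1
        have h2' : (μ2 (C n) : ℝ) ≤ μ (C n) := by exact_mod_cast h2
        have e1 : (μ1 (C n) : ℝ) = μ (C n) := by nlinarith
        have e2 : (μ2 (C n) : ℝ) = μ (C n) := by nlinarith
        have e1' : μ1 (C n) = μ (C n) := by exact_mod_cast e1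
        have e2' : μ2 (C n) = μ (C n) := by exact_mod_cast e2
        refine ⟨⟨ih.1, fun ν hν => ?_⟩, ⟨ih.2, fun ν hν => ?_⟩⟩
        · rw [e1']; exact hn.2 ν hν
        · rw [e2']; exact hn.2 ν hν
    have heq : (μ1 : Measure (ℕ → Bool)) = (μ2 : Measure (ℕ → Bool)) := by
      apply measure_ext_clopen
      intro t ht
      obtain ⟨m, hm⟩ := he ⟨t, ht⟩
      have hCm : C (m + 1) = t := by
        rw [hCs, hm]; rfl
      have h1 := hmem (m + 1 + 1)
      rw [hKs] at h1
      have h2 := h1.1.2 μ2 h1.2.1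
      have h3 := h1.2.2 μ1 h1.1.1
      rw [hCm] at h2 h3
      have h4 : μ1 t = μ2 t := le_antisymm h3 h2
      rw [← ProbabilityMeasure.ennreal_coeFn_eq_coeFn_toMeasure,
        ← ProbabilityMeasure.ennreal_coeFn_eq_coeFn_toMeasure, h4]
    have h1 : (μ1 : Measure (ℕ → Bool)) s = 1 :=
      ProbabilityTheory.cond_apply_self hs0 (measure_ne_top _ _)
    have h2 : (μ2 : Measure (ℕ → Bool)) s = 0 := by
      change ProbabilityTheory.cond (μ : Measure (ℕ → Bool)) sᶜ s = 0
      rw [ProbabilityTheory.cond_apply hs.compl]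
      simp
    rw [heq, h2] at h1
    exact zero_ne_one h1
  · have h1 := hμ 1
    rw [show (1 : ℕ) = 0 + 1 by rfl, hKs] at h1
    rw [hC0] at h1
    exact h1.2 μ₀ (by rw [hK0]; exact h₀)

end Pool.Agent.H48
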