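import Mathlib
import Pool.Agent.H48.ErgMax

/-!
# Invariant measures from Følner sets
-/

namespace Pool.Agent.H48

open MeasureTheory Set Filter Topology ENNReal

open Classical in
/-- Number of elements of `S` satisfying `P`. -/
noncomputable def cnt {Γ : Type} (S : Finset Γ) (P : Γ → Prop) : ℕ := (S.filter P).card

theorem cnt_not {Γ : Type} (S : Finset Γ) (P : Γ → Prop) :
    cnt S P + cnt S (fun γ => ¬ P γ) = S.card := by
  classical
  unfold cnt
  convert Finset.card_filter_add_card_filter_not (s := S) P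

theorem cnt_le {Γ : Type} (S : Finset Γ) (P : Γ → Prop) : cnt S P ≤ S.card := by
  classical
  unfold cnt
  exact Finset.card_filter_le _ _

variable {Γ : Type} [Group Γ] (a : Γ → C(ℕ → Bool, ℕ → Bool))

/-- The average of the Dirac masses over a finite part of an orbit. -/
noncomputable def avg (S : Finset Γ) (y : ℕ → Bool) : Measure (ℕ → Bool) :=
  (S.card : ℝ≥0∞)⁻¹ • ∑ γ ∈ S, Measure.dirac (a γ y)

omit [Group Γ] in
theorem avg_apply (S : Finset Γ) (y : ℕ → Bool) (A : Set (ℕ → Bool)) (hA : MeasurableSet A) :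
    avg a S y A = (S.card : ℝ≥0∞)⁻¹ * (cnt S (fun γ => a γ y ∈ A) : ℝ≥0∞) := by
  classical
  unfold avg cnt
  rw [Measure.smul_apply, Measure.finsetSum_apply, smul_eq_mul]
  congr 1
  rw [Finset.card_filter]
  push_cast
  apply Finset.sum_congr rfl
  intro γ _
  rw [Measure.dirac_apply' _ hA]
  by_cases h : a γ y ∈ A <;> simp [h]

omit [Group Γ] in
theorem avg_isProb (S : Finset Γ) (hS : S.Nonempty) (y : ℕ → Bool) :
    IsProbabilityMeasure (avg a S y) := by
  constructor
  rw [avg_apply a S y univ MeasurableSet.univ]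
  unfold cnt
  simp only [mem_univ, Finset.filter_true]
  apply ENNReal.inv_mul_cancel
  · simp [hS.ne_empty]
  · simp

/-- The average as a probability measure. -/
noncomputable def avgP (S : Finset Γ) (hS : S.Nonempty) (y : ℕ → Bool) :
    ProbabilityMeasure (ℕ → Bool) := ⟨avg a S y, avg_isProb a S hS y⟩

theorem avg_real (S : Finset Γ) (hS : S.Nonempty) (y : ℕ → Bool) (A : Set (ℕ → Bool))
    (hA : MeasurableSet A) :
    (avgP a S hS y A : ℝ) = (cnt S (fun γ => a γ y ∈ A) : ℝ) / S.card := by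
  have h1 : (avgP a S hS y A : ℝ) = (avg a S y A).toReal := rfl
  rw [h1, avg_apply a S y A hA, ENNReal.toReal_mul, ENNReal.toReal_inv]
  simp only [ENNReal.toReal_natCast]
  rw [div_eq_inv_mul]

theorem avg_inv_bound (hmul : ∀ g h : Γ, a (g * h) = (a g).comp (a h)) (S : Finset Γ)
    (y : ℕ → Bool) (P : (ℕ → Bool) → Prop) (g : Γ) :
    cnt S (fun γ => P (a g (a γ y))) ≤ cnt S (fun γ => P (a γ y)) +
      (((fun x => g * x) '' (S : Set Γ)) \ (S : Set Γ)).ncard := by
  classical
  unfold cnt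
  have hfin : (((fun x => g * x) '' (S : Set Γ)) \ (S : Set Γ)).Finite :=
    ((Finset.finite_toSet S).image _).subset sdiff_subset
  have h1 : ((S.filter (fun γ => P (a g (a γ y)))).image (fun x => g * x) : Set Γ) ⊆
      ((S.filter (fun γ => P (a γ y)) : Finset Γ) : Set Γ) ∪
        (((fun x => g * x) '' (S : Set Γ)) \ (S : Set Γ)) := by
    intro δ hδ
    rw [Finset.mem_coe, Finset.mem_image] at hδ
    obtain ⟨γ, hγ, rfl⟩ := hδ
    rw [Finset.mem_filter] at hγ
    have h2 : P (a (g * γ) y) := by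
      rw [hmul]
      exact hγ.2
    by_cases h3 : g * γ ∈ S
    · left
      rw [Finset.mem_coe, Finset.mem_filter]
      exact ⟨h3, h2⟩
    · right
      exact ⟨⟨γ, hγ.1, rfl⟩, h3⟩
  have h2 := Set.ncard_le_ncard h1 ((Finset.finite_toSet _).union hfin)
  rw [Set.ncard_coe_finset, Finset.card_image_of_injective _ (mul_right_injective g)] at h2
  refine h2.trans ((Set.ncard_union_le _ _).trans ?_)
  rw [Set.ncard_coe_finset]

/-- Averages along Følner sets accumulate at invariant measures. -/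
theorem exists_inv_of_folner (hmul : ∀ g h : Γ, a (g * h) = (a g).comp (a h))
    (S : ℕ → Finset Γ) (hne : ∀ j, (S j).Nonempty)
    (hF : ∀ g : Γ, Tendsto (fun j => ((((fun x => g * x) '' (S j : Set Γ)) \ (S j : Set Γ)).ncard : ℝ)
      / (S j).card) atTop (𝓝 0))
    (y : ℕ → (ℕ → Bool)) (G : Set (ℕ → Bool)) (hG : IsClopen G) (c : ℝ)
    (hc : ∀ j, c ≤ (avgP a (S j) (hne j) (y j) G : ℝ)) :
    ∃ μ : ProbabilityMeasure (ℕ → Bool), Inv a μ ∧ c ≤ (μ G : ℝ) := by
  obtain ⟨μ, φ, hφ, hlim⟩ := CompactSpace.tendsto_subseq (fun j => avgP a (S j) (hne j) (y j))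
  have hcl : ∀ A : Set (ℕ → Bool), IsClopen A → Tendsto (fun j =>
      (avgP a (S (φ j)) (hne (φ j)) (y (φ j)) A : ℝ)) atTop (𝓝 (μ A : ℝ)) := by
    intro A hA
    exact (NNReal.continuous_coe.tendsto _).comp
      (ProbabilityMeasure.tendsto_measure_of_isClopen_of_tendsto hlim hA)
  refine ⟨μ, fun g => ?_, ge_of_tendsto' (hcl G hG) fun j => hc (φ j)⟩
  have : IsProbabilityMeasure ((μ : Measure (ℕ → Bool)).map (⇑(a g))) :=
    Measure.isProbabilityMeasure_map (a g).continuous.measurable.aemeasurable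
  apply measure_ext_clopen
  intro A hA
  rw [Measure.map_apply (a g).continuous.measurable hA.isOpen.measurableSet]
  have hA' : IsClopen (⇑(a g) ⁻¹' A) := hA.preimage (a g).continuous
  have h1 := hcl A hA
  have h2 := hcl _ hA'
  have h3 : Tendsto (fun j =>
      (avgP a (S (φ j)) (hne (φ j)) (y (φ j)) (⇑(a g) ⁻¹' A) : ℝ) -
        (avgP a (S (φ j)) (hne (φ j)) (y (φ j)) A : ℝ)) atTop (𝓝 0) := by
    refine squeeze_zero_norm (fun j => ?_) ((hF g).comp hφ.tendsto_atTop)
    rw [avg_real a _ _ _ _ hA.isOpen.measurableSet, avg_real a _ _ _ _ hA'.isOpen.measurableSet,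
      ← sub_div, Real.norm_eq_abs, abs_div]
    have hpos : (0 : ℝ) < ((S (φ j)).card : ℝ) := by
      exact_mod_cast Finset.card_pos.2 (hne (φ j))
    rw [abs_of_pos hpos]
    apply div_le_div_of_nonneg_right _ hpos.le
    have e1 := avg_inv_bound a hmul (S (φ j)) (y (φ j)) (fun x => x ∈ A) g
    have e2 := avg_inv_bound a hmul (S (φ j)) (y (φ j)) (fun x => ¬ x ∈ A) g
    have e3 := cnt_not (S (φ j)) (fun γ => a g (a γ (y (φ j))) ∈ A)
    have e4 := cnt_not (S (φ j)) (fun γ => a γ (y (φ j)) ∈ A)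
    rw [abs_sub_le_iff]
    constructor
    · rw [sub_le_iff_le_add']
      exact_mod_cast e1
    · rw [sub_le_iff_le_add']
      have e6 : cnt (S (φ j)) (fun γ => a γ (y (φ j)) ∈ A) ≤
          cnt (S (φ j)) (fun γ => a g (a γ (y (φ j))) ∈ A) +
          (((fun x => g * x) '' (S (φ j) : Set Γ)) \ (S (φ j) : Set Γ)).ncard := by omega
      exact_mod_cast e6
  have h4 := tendsto_nhds_unique h3 (h2.sub h1)
  have h5 : (μ (⇑(a g) ⁻¹' A) : ℝ) = μ A := by linarith
  have h6 : μ (⇑(a g) ⁻¹' A) = μ A := by exact_mod_cast h5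
  rw [← ProbabilityMeasure.ennreal_coeFn_eq_coeFn_toMeasure,
    ← ProbabilityMeasure.ennreal_coeFn_eq_coeFn_toMeasure, h6]

end Pool.Agent.H48
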