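import Mathlib

/-!
# The space of actions on the Cantor space is a Baire space
-/

namespace Pool.Agent.H48

open Filter Uniformity

theorem countablyGenerated_bool : (uniformity Bool).IsCountablyGenerated := by
  have : uniformity Bool = Filter.principal SetRel.id := rfl
  rw [this]
  infer_instance

attribute [local instance] countablyGenerated_bool

theorem isClosed_act (Γ : Type) [Group Γ] : IsClosed {a : Γ → C(ℕ → Bool, ℕ → Bool) |
    a 1 = ContinuousMap.id (ℕ → Bool) ∧ ∀ g h : Γ, a (g * h) = (a g).comp (a h)} := by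
  apply IsClosed.and
  · exact isClosed_eq (continuous_apply 1) continuous_const
  · simp only [Set.ofPred_forall]
    refine isClosed_iInter fun g => isClosed_iInter fun h => ?_
    refine isClosed_eq (continuous_apply _) ?_
    exact (continuous_apply (A := fun _ : Γ => C(ℕ → Bool, ℕ → Bool)) g).compCM
      (continuous_apply (A := fun _ : Γ => C(ℕ → Bool, ℕ → Bool)) h)

theorem baireSpace_act (Γ : Type) [Group Γ] [Countable Γ] :
    BaireSpace {a : Γ → C(ℕ → Bool, ℕ → Bool) //
      a 1 = ContinuousMap.id (ℕ → Bool) ∧ ∀ g h : Γ, a (g * h) = (a g).comp (a h)} := by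
  have h1 : CompleteSpace {a : Γ → C(ℕ → Bool, ℕ → Bool) //
      a 1 = ContinuousMap.id (ℕ → Bool) ∧ ∀ g h : Γ, a (g * h) = (a g).comp (a h)} :=
    (isClosed_act Γ).completeSpace_coe
  have h2 : IsCountablyGenerated (uniformity {a : Γ → C(ℕ → Bool, ℕ → Bool) //
      a 1 = ContinuousMap.id (ℕ → Bool) ∧ ∀ g h : Γ, a (g * h) = (a g).comp (a h)}) := by
    rw [uniformity_subtype]
    infer_instance
  infer_instance

end Pool.Agent.H48
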