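import Mathlib

/-!
# Brouwer's characterisation of the Cantor space, in the form needed here
-/

namespace Pool.Agent.H48

open Set TopologicalSpace

section Cantor

variable {Z : Type*} (B : ℕ → Set Z)

open Classical in
/-- A member of the family `B` which splits `C`, the `n`-th one if possible. -/
noncomputable def splitSet (n : ℕ) (C : Set Z) : Set Z :=
  if (C ∩ B n).Nonempty ∧ (C \ B n).Nonempty then B n
  else if h2 : ∃ m, (C ∩ B m).Nonempty ∧ (C \ B m).Nonempty then B (Classical.choose h2) else ∅

open Classical in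
/-- The `n`-th piece containing `z`. -/
noncomputable def piece : ℕ → Z → Set Z
  | 0, _ => univ
  | n + 1, z => if z ∈ splitSet B n (piece n z) then piece n z ∩ splitSet B n (piece n z)
      else piece n z \ splitSet B n (piece n z)

open Classical in
/-- The `n`-th piece with prescribed digits. -/
noncomputable def pieceOf (s : ℕ → Bool) : ℕ → Set Z
  | 0 => univ
  | n + 1 => if s n then pieceOf s n ∩ splitSet B n (pieceOf s n)
      else pieceOf s n \ splitSet B n (pieceOf s n)

open Classical in
/-- The digits of a point. -/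
noncomputable def digits (z : Z) (n : ℕ) : Bool := decide (z ∈ splitSet B n (piece B n z))

theorem mem_piece (n : ℕ) (z : Z) : z ∈ piece B n z := by
  induction n with
  | zero => simp [piece]
  | succ n ih =>
    unfold piece
    split_ifs with h
    · exact ⟨ih, h⟩
    · exact ⟨ih, h⟩

theorem piece_succ_subset (n : ℕ) (z : Z) : piece B (n + 1) z ⊆ piece B n z := by
  intro y hy
  unfold piece at hy
  split_ifs at hy with h
  · exact hy.1
  · exact hy.1

theorem piece_eq_of_mem (n : ℕ) : ∀ y z : Z, y ∈ piece B n z → piece B n y = piece B n z := by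
  induction n with
  | zero => intro y z _; simp [piece]
  | succ n ih =>
    intro y z hy
    have h1 := ih y z (piece_succ_subset B n z hy)
    unfold piece at hy ⊢
    rw [h1]
    split_ifs at hy with h
    · rw [if_pos hy.2, if_pos h]
    · rw [if_neg hy.2, if_neg h]

theorem digits_eq_of_mem (n : ℕ) (y z : Z) (h : y ∈ piece B (n + 1) z) :
    digits B y n = digits B z n := by
  have h1 := piece_eq_of_mem B n y z (piece_succ_subset B n z h)
  unfold digits
  rw [h1]
  unfold piece at h
  split_ifs at h with h2
  · simp [h.2, h2]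
  · simp [h.2, h2]

theorem piece_congr (x y : Z) (h : digits B x = digits B y) (n : ℕ) :
    piece B n x = piece B n y := by
  induction n with
  | zero => simp [piece]
  | succ n ih =>
    have h1 := congrFun h n
    unfold digits at h1
    unfold piece
    rw [ih] at h1 ⊢
    have h2 : (x ∈ splitSet B n (piece B n y)) ↔ (y ∈ splitSet B n (piece B n y)) := by
      simpa using h1
    by_cases h3 : y ∈ splitSet B n (piece B n y)
    · rw [if_pos h3, if_pos (h2.2 h3)]
    · rw [if_neg h3, if_neg (fun h4 => h3 (h2.1 h4))]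

theorem piece_eq_pieceOf (s : ℕ → Bool) (z : Z) (hz : ∀ n, z ∈ pieceOf B s n) (n : ℕ) :
    piece B n z = pieceOf B s n := by
  induction n with
  | zero => simp [piece, pieceOf]
  | succ n ih =>
    have h1 := hz (n + 1)
    unfold piece
    unfold pieceOf at h1 ⊢
    rw [ih]
    by_cases hs : s n = true
    · rw [if_pos hs] at h1 ⊢
      rw [if_pos h1.2]
    · rw [if_neg hs] at h1 ⊢
      rw [if_neg h1.2]

theorem digits_eq_pieceOf (s : ℕ → Bool) (z : Z) (hz : ∀ n, z ∈ pieceOf B s n) :
    digits B z = s := by
  funext n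
  unfold digits
  rw [piece_eq_pieceOf B s z hz n]
  have h1 := hz (n + 1)
  unfold pieceOf at h1
  by_cases hs : s n = true
  · rw [if_pos hs] at h1
    simp [h1.2, hs]
  · rw [if_neg hs] at h1
    have : s n = false := by simpa using hs
    simp [h1.2, this]

variable [TopologicalSpace Z]

theorem isClopen_splitSet (hB : ∀ n, IsClopen (B n)) (n : ℕ) (C : Set Z) :
    IsClopen (splitSet B n C) := by
  unfold splitSet
  split_ifs with h1 h2
  · exact hB n
  · exact hB _
  · exact isClopen_empty

theorem isClopen_piece (hB : ∀ n, IsClopen (B n)) (n : ℕ) (z : Z) : IsClopen (piece B n z) := by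
  induction n with
  | zero => simp [piece, isClopen_univ]
  | succ n ih =>
    unfold piece
    split_ifs with h
    · exact ih.inter (isClopen_splitSet B hB _ _)
    · exact ih.diff (isClopen_splitSet B hB _ _)

theorem isClopen_pieceOf (hB : ∀ n, IsClopen (B n)) (s : ℕ → Bool) (n : ℕ) :
    IsClopen (pieceOf B s n) := by
  induction n with
  | zero => simp [pieceOf, isClopen_univ]
  | succ n ih =>
    unfold pieceOf
    split_ifs with h
    · exact ih.inter (isClopen_splitSet B hB _ _)
    · exact ih.diff (isClopen_splitSet B hB _ _)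

theorem splitSet_splits (hsep : ∀ x y : Z, x ≠ y → ∃ n, x ∈ B n ∧ y ∉ B n)
    (hperf : ∀ U : Set Z, IsOpen U → U.Nonempty → ∃ x ∈ U, ∃ y ∈ U, x ≠ y)
    (n : ℕ) (C : Set Z) (hC : IsOpen C) (hC' : C.Nonempty) :
    (C ∩ splitSet B n C).Nonempty ∧ (C \ splitSet B n C).Nonempty := by
  unfold splitSet
  split_ifs with h1 h2
  · exact h1
  · exact Classical.choose_spec h2
  · exfalso
    obtain ⟨x, hx, y, hy, hxy⟩ := hperf C hC hC'
    obtain ⟨m, hm1, hm2⟩ := hsep x y hxy
    exact h2 ⟨m, ⟨x, hx, hm1⟩, ⟨y, hy, hm2⟩⟩

theorem pieceOf_nonempty (hB : ∀ n, IsClopen (B n))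
    (hsep : ∀ x y : Z, x ≠ y → ∃ n, x ∈ B n ∧ y ∉ B n)
    (hperf : ∀ U : Set Z, IsOpen U → U.Nonempty → ∃ x ∈ U, ∃ y ∈ U, x ≠ y)
    [Nonempty Z] (s : ℕ → Bool) (n : ℕ) : (pieceOf B s n).Nonempty := by
  induction n with
  | zero => simp [pieceOf]
  | succ n ih =>
    have h := splitSet_splits B hsep hperf n _ (isClopen_pieceOf B hB s n).isOpen ih
    unfold pieceOf
    split_ifs
    · exact h.1
    · exact h.2

theorem pieceOf_antitone (s : ℕ → Bool) (n : ℕ) : pieceOf B s (n + 1) ⊆ pieceOf B s n := by
  intro y hy
  unfold pieceOf at hy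
  split_ifs at hy
  · exact hy.1
  · exact hy.1

/-- A nonempty compact Hausdorff space without isolated points whose points are separated by a
sequence of clopen sets is homeomorphic to the Cantor space. -/
theorem exists_homeo_cantor [CompactSpace Z] [Nonempty Z] (hB : ∀ n, IsClopen (B n))
    (hsep : ∀ x y : Z, x ≠ y → ∃ n, x ∈ B n ∧ y ∉ B n)
    (hperf : ∀ U : Set Z, IsOpen U → U.Nonempty → ∃ x ∈ U, ∃ y ∈ U, x ≠ y) :
    Nonempty (Z ≃ₜ (ℕ → Bool)) := by
  have hcont : Continuous (digits B) := by
    refine continuous_pi fun n => ?_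
    refine IsLocallyConstant.continuous ?_
    rw [IsLocallyConstant.iff_exists_open]
    intro z
    exact ⟨piece B (n + 1) z, (isClopen_piece B hB _ _).isOpen, mem_piece B _ _,
      fun y hy => digits_eq_of_mem B n y z hy⟩
  have hinj : Function.Injective (digits B) := by
    intro x y hxy
    by_contra hne
    obtain ⟨n, hn1, hn2⟩ := hsep x y hne
    have hp := piece_congr B x y hxy n
    have hx := mem_piece B n x
    have hy := mem_piece B n y
    rw [← hp] at hy
    have hS : splitSet B n (piece B n x) = B n := by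
      unfold splitSet
      rw [if_pos ⟨⟨x, hx, hn1⟩, ⟨y, hy, hn2⟩⟩]
    have h1 := congrFun hxy n
    unfold digits at h1
    rw [← hp, hS] at h1
    simp [hn1, hn2] at h1
  have hsurj : Function.Surjective (digits B) := by
    intro s
    have hne : (⋂ n, pieceOf B s n).Nonempty :=
      IsCompact.nonempty_iInter_of_sequence_nonempty_isCompact_isClosed _
        (pieceOf_antitone B s) (pieceOf_nonempty B hB hsep hperf s)
        (isClopen_pieceOf B hB s 0).isClosed.isCompact
        (fun n => (isClopen_pieceOf B hB s n).isClosed)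
    obtain ⟨z, hz⟩ := hne
    exact ⟨z, digits_eq_pieceOf B s z (fun n => Set.mem_iInter.1 hz n)⟩
  exact ⟨hcont.homeoOfEquivCompactToT2 (f := Equiv.ofBijective _ ⟨hinj, hsurj⟩)⟩

end Cantor

end Pool.Agent.H48
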