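import Mathlib

/-!
# A subshift in which long words are almost periodic in prescribed ways
-/

namespace Pool.Agent.H48

open Set

/-- Integer translate of a two-sided sequence. -/
def shift (k : ℤ) (x : ℤ → Bool) : ℤ → Bool := fun i => x (i + k)

theorem shift_shift (k l : ℤ) (x : ℤ → Bool) : shift k (shift l x) = shift (k + l) x := by
  funext i; simp [shift, add_assoc]

theorem shift_zero (x : ℤ → Bool) : shift 0 x = x := by
  funext i; simp [shift]

theorem continuous_shift (k : ℤ) : Continuous (shift k) :=
  continuous_pi fun i => continuous_apply (i + k)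

/-- The word `w` occurs in `x` at position `s`. -/
def Occ (x : ℤ → Bool) (s : ℤ) (w : List Bool) : Prop :=
  ∀ i < w.length, w[i]? = some (x (s + i))

theorem Occ.append_left {x : ℤ → Bool} {s : ℤ} {u v : List Bool} (h : Occ x s (u ++ v)) :
    Occ x s u := by
  intro i hi
  have := h i (by rw [List.length_append]; omega)
  rwa [List.getElem?_append_left hi] at this

theorem Occ.append_right {x : ℤ → Bool} {s : ℤ} {u v : List Bool} (h : Occ x s (u ++ v)) :
    Occ x (s + u.length) v := by
  intro i hi
  have := h (u.length + i) (by rw [List.length_append]; omega)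
  rw [List.getElem?_append_right (by omega)] at this
  simpa [add_assoc] using this

theorem Occ.exists_cover {x : ℤ → Bool} (ls : List (List Bool)) :
    ∀ (s : ℤ), Occ x s ls.flatten → ∀ p < ls.flatten.length,
      ∃ w ∈ ls, ∃ j < w.length, Occ x (s + p - j) w := by
  induction ls with
  | nil => intro s _ p hp; simp at hp
  | cons w ls ih =>
    intro s h p hp
    rw [List.flatten_cons] at h hp
    by_cases hpw : p < w.length
    · exact ⟨w, by simp, p, hpw, by simpa using h.append_left⟩
    · obtain ⟨w', hw', j, hj, hocc⟩ := ih _ h.append_right (p - w.length)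
        (by rw [List.length_append] at hp; omega)
      refine ⟨w', by simp [hw'], j, hj, ?_⟩
      have : s + (p : ℤ) - j = s + w.length + ((p - w.length : ℕ) : ℤ) - j := by
        push_cast [Nat.cast_sub (not_lt.1 hpw)]
        ring
      rw [this]
      exact hocc

theorem Occ.exists_of_mem {x : ℤ → Bool} (ls : List (List Bool)) :
    ∀ (s : ℤ), Occ x s ls.flatten → ∀ w ∈ ls, ∃ s', Occ x s' w := by
  induction ls with
  | nil => intro s _ w hw; simp at hw
  | cons w ls ih =>
    intro s h w' hw'
    rw [List.flatten_cons] at h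
    rcases List.mem_cons.1 hw' with rfl | hw'
    · exact ⟨s, h.append_left⟩
    · exact ih _ h.append_right w' hw'

/-- The words of level `L`; only the indices `i < L + 2` are relevant. -/
def W : ℕ → ℕ → List Bool
  | 0, i => if i = 0 then [false] else [true]
  | L + 1, i =>
    if i < L + 2 then
      ((List.range (L + 2)).map (W L)).flatten ++
        (List.replicate (2 ^ (L + 7) * ((List.range (L + 2)).map (W L)).flatten.length)
          (W L i)).flatten
    else
      ((List.range (L + 2)).map (W L)).flatten ++
        ((List.replicate (2 ^ (L + 7) * ((List.range (L + 2)).map (W L)).flatten.length)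
          (W L 0)).flatten ++
        (List.replicate (2 ^ (L + 7) * ((List.range (L + 2)).map (W L)).flatten.length)
          (W L 1)).flatten)

/-- The concatenation of all words of level `L`. -/
def U (L : ℕ) : List Bool := ((List.range (L + 2)).map (W L)).flatten

/-- The number of repetitions used at level `L`. -/
def M (L : ℕ) : ℕ := 2 ^ (L + 7) * (U L).length

/-- Repetition of a word. -/
def rep (m : ℕ) (v : List Bool) : List Bool := (List.replicate m v).flatten

theorem W_succ_of_lt (L i : ℕ) (h : i < L + 2) : W (L + 1) i = U L ++ rep (M L) (W L i) := by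
  simp only [W, U, rep, M]
  rw [if_pos h]

theorem W_succ_new (L : ℕ) :
    W (L + 1) (L + 2) = U L ++ (rep (M L) (W L 0) ++ rep (M L) (W L 1)) := by
  simp only [W, U, rep, M]
  rw [if_neg (lt_irrefl _)]

theorem rep_zero (v : List Bool) : rep 0 v = [] := by simp [rep]

theorem rep_succ (m : ℕ) (v : List Bool) : rep (m + 1) v = v ++ rep m v := by
  simp [rep, List.replicate_succ]

theorem length_rep (m : ℕ) (v : List Bool) : (rep m v).length = m * v.length := by
  induction m with
  | zero => simp [rep_zero]
  | succ m ih => rw [rep_succ, List.length_append, ih]; ring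

theorem W_length_pos (L : ℕ) : ∀ i, 0 < (W L i).length := by
  induction L with
  | zero => intro i; simp only [W]; split_ifs <;> simp
  | succ L ih =>
    have hU : 0 < (U L).length := by
      unfold U
      rw [List.range_succ_eq_map]
      simp only [List.map_cons, List.flatten_cons, List.length_append]
      have := ih 0
      omega
    intro i
    simp only [W]
    split_ifs <;>
    · rw [List.length_append]
      unfold U at hU
      omega

theorem U_length_pos (L : ℕ) : 0 < (U L).length := by
  unfold U
  rw [List.range_succ_eq_map]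
  simp only [List.map_cons, List.flatten_cons, List.length_append]
  have := W_length_pos L 0
  omega

/-- Every word of level `L + 1` is a concatenation of words of level `L`, starting with `U L`. -/
theorem W_succ_decomp (L i : ℕ) (h : i < L + 3) :
    ∃ ls : List (List Bool), W (L + 1) i = ls.flatten ∧ ∀ w ∈ ls, ∃ j < L + 2, w = W L j := by
  rcases Nat.lt_succ_iff_lt_or_eq.1 h with h | rfl
  · refine ⟨(List.range (L + 2)).map (W L) ++ List.replicate (M L) (W L i), ?_, ?_⟩
    · rw [W_succ_of_lt L i h, List.flatten_append]; rfl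
    · intro w hw
      rcases List.mem_append.1 hw with hw | hw
      · obtain ⟨j, hj, rfl⟩ := List.mem_map.1 hw
        exact ⟨j, List.mem_range.1 hj, rfl⟩
      · exact ⟨i, h, List.eq_of_mem_replicate hw⟩
  · refine ⟨(List.range (L + 2)).map (W L) ++ (List.replicate (M L) (W L 0) ++
      List.replicate (M L) (W L 1)), ?_, ?_⟩
    · rw [W_succ_new L, List.flatten_append, List.flatten_append]; rfl
    · intro w hw
      rcases List.mem_append.1 hw with hw | hw
      · obtain ⟨j, hj, rfl⟩ := List.mem_map.1 hw
        exact ⟨j, List.mem_range.1 hj, rfl⟩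
      · rcases List.mem_append.1 hw with hw | hw
        · exact ⟨0, by omega, List.eq_of_mem_replicate hw⟩
        · exact ⟨1, by omega, List.eq_of_mem_replicate hw⟩

theorem W_succ_prefix (L i : ℕ) (h : i < L + 3) : ∃ v, W (L + 1) i = U L ++ v := by
  rcases Nat.lt_succ_iff_lt_or_eq.1 h with h | rfl
  · exact ⟨_, W_succ_of_lt L i h⟩
  · exact ⟨_, W_succ_new L⟩

/-- `x` is covered by occurrences of words of level `L`. -/
def Cov (L : ℕ) (x : ℤ → Bool) : Prop :=
  ∀ k : ℤ, ∃ i ∈ Finset.range (L + 2), ∃ j ∈ Finset.range (W L i).length, Occ x (k - j) (W L i)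

theorem Cov.step {L : ℕ} {x : ℤ → Bool} (h : Cov (L + 1) x) : Cov L x := by
  intro k
  obtain ⟨i, hi, j, hj, hocc⟩ := h k
  obtain ⟨ls, hls, hmem⟩ := W_succ_decomp L i (Finset.mem_range.1 hi)
  rw [hls] at hocc
  rw [Finset.mem_range, hls] at hj
  obtain ⟨w, hw, j', hj', hocc'⟩ := Occ.exists_cover ls _ hocc j hj
  obtain ⟨i', hi', rfl⟩ := hmem w hw
  refine ⟨i', Finset.mem_range.2 hi', j', Finset.mem_range.2 hj', ?_⟩
  have : k - (j : ℤ) + j - j' = k - j' := by ring
  rwa [this] at hocc'

theorem isClosed_occ (s : ℤ) (w : List Bool) : IsClosed {x : ℤ → Bool | Occ x s w} := by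
  have : {x : ℤ → Bool | Occ x s w} =
      ⋂ i ∈ Finset.range w.length, {x : ℤ → Bool | w[i]? = some (x (s + i))} := by
    ext x; simp [Occ]
  rw [this]
  refine isClosed_biInter fun i _ => ?_
  exact (isClosed_discrete {b : Bool | w[i]? = some b}).preimage
    (continuous_apply (A := fun _ : ℤ => Bool) (s + (i : ℤ)))

theorem isClosed_cov (L : ℕ) : IsClosed {x : ℤ → Bool | Cov L x} := by
  have : {x : ℤ → Bool | Cov L x} = ⋂ k : ℤ, ⋃ i ∈ Finset.range (L + 2),
      ⋃ j ∈ Finset.range (W L i).length, {x : ℤ → Bool | Occ x (k - j) (W L i)} := by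
    ext x; simp [Cov]
  rw [this]
  refine isClosed_iInter fun k => ?_
  refine isClosed_biUnion_finset fun i _ => ?_
  refine isClosed_biUnion_finset fun j _ => ?_
  exact isClosed_occ _ _

/-- The subshift. -/
def XX : Set (ℤ → Bool) := {x | ∀ L, Cov L x}

theorem isClosed_XX : IsClosed XX := by
  have : XX = ⋂ L, {x : ℤ → Bool | Cov L x} := by ext x; simp [XX]
  rw [this]
  exact isClosed_iInter fun L => isClosed_cov L

theorem occ_shift {x : ℤ → Bool} {s k : ℤ} {w : List Bool} :
    Occ (shift k x) s w ↔ Occ x (s + k) w := by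
  unfold Occ shift
  have : ∀ i : ℕ, s + (i : ℤ) + k = s + k + i := fun i => by ring
  simp only [this]

theorem Cov.shift {L : ℕ} {x : ℤ → Bool} (h : Cov L x) (k : ℤ) : Cov L (shift k x) := by
  intro l
  obtain ⟨i, hi, j, hj, hocc⟩ := h (l + k)
  refine ⟨i, hi, j, hj, ?_⟩
  rw [occ_shift]
  have : l - (j : ℤ) + k = l + k - j := by ring
  rwa [this]

theorem XX_shift {x : ℤ → Bool} (h : x ∈ XX) (k : ℤ) : shift k x ∈ XX := fun L => (h L).shift k

/-- The periodic point of a word. -/
def perPt (w : List Bool) : ℤ → Bool := fun k => (w[(k % (w.length : ℤ)).toNat]?).getD false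

theorem occ_perPt (w : List Bool) (m : ℤ) :
    Occ (perPt w) (m * w.length) w := by
  intro i hi
  unfold perPt
  have h1 : (m * (w.length : ℤ) + i) % (w.length : ℤ) = i := by
    rw [add_comm, Int.add_mul_emod_self_right]
    exact Int.emod_eq_of_lt (by positivity) (by exact_mod_cast hi)
  rw [h1]
  simp [hi]

theorem cov_perPt (L : ℕ) : Cov L (perPt (W L 0)) := by
  intro k
  have hpos := W_length_pos L 0
  refine ⟨0, by simp, (k % ((W L 0).length : ℤ)).toNat, ?_, ?_⟩
  · rw [Finset.mem_range]
    have := Int.emod_lt_of_pos k (show (0 : ℤ) < (W L 0).length by exact_mod_cast hpos)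
    have h2 := Int.emod_nonneg k (show ((W L 0).length : ℤ) ≠ 0 by positivity)
    omega
  · have h2 := Int.emod_nonneg k (show ((W L 0).length : ℤ) ≠ 0 by positivity)
    have h3 : k - ((k % ((W L 0).length : ℤ)).toNat : ℤ) = (k / (W L 0).length) * (W L 0).length := by
      rw [Int.toNat_of_nonneg h2]
      have := Int.emod_add_mul_ediv k (W L 0).length
      linarith
    rw [h3]
    exact occ_perPt _ _

theorem XX_nonempty : XX.Nonempty := by
  have : XX = ⋂ L, {x : ℤ → Bool | Cov L x} := by ext x; simp [XX]
  rw [this]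
  exact IsCompact.nonempty_iInter_of_sequence_nonempty_isCompact_isClosed _
    (fun L x hx => Cov.step hx) (fun L => ⟨_, cov_perPt L⟩) (isClosed_cov 0).isCompact
    (fun L => isClosed_cov L)

/-- Every word of every level occurs in every point of the subshift. -/
theorem XX_occ {x : ℤ → Bool} (h : x ∈ XX) (L i : ℕ) (hi : i < L + 2) :
    ∃ s, Occ x s (W L i) := by
  obtain ⟨i', hi', j, hj, hocc⟩ := h (L + 1) 0
  obtain ⟨v, hv⟩ := W_succ_prefix L i' (Finset.mem_range.1 hi')
  rw [hv] at hocc
  have h1 := hocc.append_left
  exact Occ.exists_of_mem _ _ h1 _ (List.mem_map.2 ⟨i, List.mem_range.2 hi, rfl⟩)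

end Pool.Agent.H48
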