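import Mathlib
import Pool.Agent.H48.Words

/-!
# Counting in the subshift
-/

namespace Pool.Agent.H48

open Set

open Classical in
/-- Number of `i < n` satisfying `p`. -/
noncomputable def cc (p : ℕ → Prop) (n : ℕ) : ℕ := ((Finset.range n).filter p).card

theorem cc_add (p : ℕ → Prop) (a b : ℕ) : cc p (a + b) = cc p a + cc (fun k => p (a + k)) b := by
  classical
  have := Nat.count_add (p := p) a b
  rw [Nat.count_eq_card_filter_range, Nat.count_eq_card_filter_range,
    Nat.count_eq_card_filter_range] at this
  unfold cc
  convert this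

theorem cc_mono {p q : ℕ → Prop} {n : ℕ} (h : ∀ i < n, p i → q i) : cc p n ≤ cc q n := by
  classical
  unfold cc
  apply Finset.card_le_card
  intro i hi
  rw [Finset.mem_filter, Finset.mem_range] at hi ⊢
  exact ⟨hi.1, h i hi.1 hi.2⟩

theorem cc_congr {p q : ℕ → Prop} {n : ℕ} (h : ∀ i < n, (p i ↔ q i)) : cc p n = cc q n :=
  le_antisymm (cc_mono fun i hi => (h i hi).1) (cc_mono fun i hi => (h i hi).2)

theorem cc_le (p : ℕ → Prop) (n : ℕ) : cc p n ≤ n := by
  classical
  unfold cc
  exact (Finset.card_filter_le _ _).trans (by simp)

theorem cc_zero (p : ℕ → Prop) : cc p 0 = 0 := by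
  simp [cc]

theorem cc_shift_periodic (q : ℕ → Prop) (h : ℕ) (hq : ∀ i, q (i + h) ↔ q i) (s : ℕ) :
    cc (fun i => q (s + i)) h = cc q h := by
  induction s with
  | zero => simp
  | succ s ih =>
    rw [← ih]
    have h1 := cc_add (fun i => q (s + i)) 1 h
    have h2 := cc_add (fun i => q (s + i)) h 1
    have h3 : cc (fun k => q (s + (h + k))) 1 = cc (fun i => q (s + i)) 1 := by
      apply cc_congr
      intro i _
      rw [← hq (s + i)]
      have : s + (h + i) = s + i + h := by ring
      rw [this]
    have h4 : cc (fun k => q (s + (1 + k))) h = cc (fun i => q (s + 1 + i)) h := by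
      apply cc_congr
      intro i _
      rw [add_assoc]
    rw [add_comm 1 h] at h1
    omega

/-- The number of occurrences of the letter `b` in `v`. -/
noncomputable def oc (b : Bool) (v : List Bool) : ℕ := cc (fun i => v[i]? = some b) v.length

theorem oc_append (b : Bool) (u v : List Bool) : oc b (u ++ v) = oc b u + oc b v := by
  unfold oc
  rw [List.length_append, cc_add]
  congr 1
  · apply cc_congr
    intro i hi
    rw [List.getElem?_append_left hi]
  · apply cc_congr
    intro i hi
    rw [List.getElem?_append_right (by omega)]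
    simp

theorem oc_nil (b : Bool) : oc b [] = 0 := by simp [oc, cc_zero]

theorem oc_rep (b : Bool) (m : ℕ) (v : List Bool) : oc b (rep m v) = m * oc b v := by
  induction m with
  | zero => simp [rep_zero, oc_nil]
  | succ m ih => rw [rep_succ, oc_append, ih]; ring

theorem oc_le (b : Bool) (v : List Bool) : oc b v ≤ v.length := cc_le _ _

theorem oc_add (v : List Bool) : oc true v + oc false v = v.length := by
  induction v with
  | nil => simp [oc_nil]
  | cons a v ih =>
    have h1 : ∀ b, oc b (a :: v) = oc b [a] + oc b v := fun b => oc_append b [a] v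
    rw [h1, h1]
    have h2 : oc true [a] + oc false [a] = 1 := by
      unfold oc cc
      cases a <;> simp [Finset.filter_singleton]
    rw [List.length_cons]
    omega

/-- Position `p` of `v` starts a window of length `2 * w.length` with `w`-periodic content. -/
def GoodPos (w v : List Bool) (p : ℕ) : Prop :=
  p + 2 * w.length ≤ v.length ∧
    ∃ s, ∀ t < 2 * w.length, v[p + t]? = w[(s + t) % w.length]?

theorem GoodPos.append_left {w v : List Bool} {p : ℕ} (u : List Bool) (h : GoodPos w v p) :
    GoodPos w (v ++ u) p := by
  obtain ⟨h1, s, h2⟩ := h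
  refine ⟨by rw [List.length_append]; omega, s, fun t ht => ?_⟩
  rw [List.getElem?_append_left (by omega)]
  exact h2 t ht

theorem GoodPos.append_right {w v : List Bool} {p : ℕ} (u : List Bool) (h : GoodPos w v p) :
    GoodPos w (u ++ v) (u.length + p) := by
  obtain ⟨h1, s, h2⟩ := h
  refine ⟨by rw [List.length_append]; omega, s, fun t ht => ?_⟩
  rw [List.getElem?_append_right (by omega)]
  have : u.length + p + t - u.length = p + t := by omega
  rw [this]
  exact h2 t ht

/-- The number of bad positions of `v`. -/
noncomputable def bad (w v : List Bool) : ℕ := cc (fun p => ¬ GoodPos w v p) v.length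

theorem bad_le (w v : List Bool) : bad w v ≤ v.length := cc_le _ _

theorem bad_append (w u v : List Bool) : bad w (u ++ v) ≤ bad w u + bad w v := by
  unfold bad
  rw [List.length_append, cc_add]
  apply add_le_add
  · exact cc_mono fun i _ h1 h2 => h1 (h2.append_left v)
  · exact cc_mono fun i _ h1 h2 => h1 (h2.append_right u)

theorem bad_rep (w : List Bool) (m : ℕ) (v : List Bool) : bad w (rep m v) ≤ m * bad w v := by
  induction m with
  | zero => simp [rep_zero, bad, cc_zero]
  | succ m ih =>
    rw [rep_succ]
    have := bad_append w v (rep m v)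
    nlinarith

theorem getElem?_rep (w : List Bool) (m : ℕ) :
    ∀ j < m * w.length, (rep m w)[j]? = w[j % w.length]? := by
  induction m with
  | zero => intro j hj; simp at hj
  | succ m ih =>
    intro j hj
    rw [rep_succ]
    by_cases h : j < w.length
    · rw [List.getElem?_append_left h, Nat.mod_eq_of_lt h]
    · rw [List.getElem?_append_right (by omega), ih _ (by rw [add_mul] at hj; omega),
        Nat.mod_eq_sub_mod (not_lt.1 h)]

theorem bad_rep_self (w : List Bool) (m : ℕ) : bad w (rep m w) ≤ 2 * w.length := by
  classical
  unfold bad cc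
  have hsub : (Finset.range (rep m w).length).filter (fun p => ¬ GoodPos w (rep m w) p) ⊆
      Finset.Ico ((rep m w).length - 2 * w.length) (rep m w).length := by
    intro p hp
    rw [Finset.mem_filter, Finset.mem_range] at hp
    rw [Finset.mem_Ico]
    refine ⟨?_, hp.1⟩
    by_contra hlt
    apply hp.2
    refine ⟨by omega, p, fun t ht => ?_⟩
    apply getElem?_rep
    rw [length_rep] at hlt hp
    omega
  calc _ ≤ (Finset.Ico ((rep m w).length - 2 * w.length) (rep m w).length).card :=
        by convert Finset.card_le_card hsub
    _ ≤ 2 * w.length := by rw [Nat.card_Ico]; omega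

/-- The window condition. -/
def good (n h : ℕ) (x : ℤ → Bool) : Prop :=
  3 * h ≤ 8 * cc (fun i => x i = true) h ∧ 8 * cc (fun i => x i = true) h ≤ 5 * h ∧
    ∀ l ≤ n, 16 * cc (fun i => x i = true ∧ x (i + l) = false) h ≤ h

theorem cyc_count (u v : List Bool) (l : ℕ) :
    cc (fun i => (u ++ v)[i % (u ++ v).length]? = some true ∧
      (u ++ v)[(i + l) % (u ++ v).length]? = some false) (u ++ v).length ≤
      oc true u + oc false v + l := by
  classical
  unfold oc cc
  have hsub : (Finset.range (u ++ v).length).filter
      (fun i => (u ++ v)[i % (u ++ v).length]? = some true ∧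
        (u ++ v)[(i + l) % (u ++ v).length]? = some false) ⊆
      ((Finset.range u.length).filter (fun i => u[i]? = some true) ∪
        ((Finset.range v.length).filter (fun i => v[i]? = some false)).image
          (fun j => u.length + j - l)) ∪
        Finset.Ico ((u ++ v).length - l) (u ++ v).length := by
    intro i hi
    rw [Finset.mem_filter, Finset.mem_range] at hi
    obtain ⟨hi1, hi2, hi3⟩ := hi
    rw [Nat.mod_eq_of_lt hi1] at hi2
    rw [Finset.mem_union, Finset.mem_union]
    by_cases h1 : i < u.length
    · left; left
      rw [Finset.mem_filter, Finset.mem_range]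
      rw [List.getElem?_append_left h1] at hi2
      exact ⟨h1, hi2⟩
    · by_cases h2 : i + l < (u ++ v).length
      · left; right
        rw [Nat.mod_eq_of_lt h2, List.getElem?_append_right (by omega)] at hi3
        rw [Finset.mem_image]
        refine ⟨i + l - u.length, ?_, by omega⟩
        rw [Finset.mem_filter, Finset.mem_range]
        refine ⟨?_, hi3⟩
        rw [List.length_append] at h2
        omega
      · right
        rw [Finset.mem_Ico]
        omega
  calc _ ≤ _ := by convert Finset.card_le_card hsub
    _ ≤ _ := Finset.card_union_le _ _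
    _ ≤ _ := by
      apply add_le_add
      · refine (Finset.card_union_le _ _).trans ?_
        apply add_le_add (le_of_eq (by congr))
        exact Finset.card_image_le.trans (le_of_eq (by congr))
      · rw [Nat.card_Ico]; omega

theorem W_length_le_U (L i : ℕ) (h : i < L + 2) : (W L i).length ≤ (U L).length := by
  unfold U
  rw [List.length_flatten]
  apply List.single_le_sum
  · intro x hx; exact Nat.zero_le _
  · rw [List.mem_map]
    exact ⟨W L i, List.mem_map.2 ⟨i, List.mem_range.2 h, rfl⟩, rfl⟩

theorem length_W_succ (L i : ℕ) (h : i < L + 2) :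
    (W (L + 1) i).length = (U L).length + M L * (W L i).length := by
  rw [W_succ_of_lt L i h, List.length_append, length_rep]

theorem length_W_zero_one (L : ℕ) : (W L 0).length = (W L 1).length := by
  induction L with
  | zero => simp [W]
  | succ L ih => rw [length_W_succ L 0 (by omega), length_W_succ L 1 (by omega), ih]

theorem length_W_new (L : ℕ) :
    (W (L + 1) (L + 2)).length = (U L).length + 2 * (M L * (W L 0).length) := by
  rw [W_succ_new, List.length_append, List.length_append, length_rep, length_rep,
    ← length_W_zero_one]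
  ring

theorem M_eq (L : ℕ) : M L = 2 ^ L * (128 * (U L).length) := by
  unfold M; rw [pow_add]; ring

theorem oc_W_zero (L : ℕ) : 2 ^ L * (64 * oc true (W L 0)) + (W L 0).length ≤
    2 ^ L * (W L 0).length := by
  induction L with
  | zero =>
    have : oc true (W 0 0) = 0 := by simp [W, oc, cc]
    rw [this]; simp
  | succ L ih =>
    have h1 : oc true (W (L + 1) 0) ≤ (U L).length + M L * oc true (W L 0) := by
      rw [W_succ_of_lt L 0 (by omega), oc_append, oc_rep]
      have := oc_le true (U L)
      omega
    have hM := M_eq L
    have hW := W_length_pos L 0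
    rw [length_W_succ L 0 (by omega)]
    set a := oc true (W L 0)
    set a' := oc true (W (L + 1) 0)
    set u := (U L).length
    set m := M L
    set w := (W L 0).length
    have e1 : 2 ^ (L + 1) * (64 * a') ≤ 2 ^ L * (128 * u) + 2 * m * (2 ^ L * (64 * a)) := by
      calc 2 ^ (L + 1) * (64 * a') ≤ 2 ^ (L + 1) * (64 * (u + m * a)) := by gcongr
        _ = _ := by rw [pow_succ]; ring
    rw [← hM] at e1
    have e2 : 2 * m * (2 ^ L * (64 * a) + w) ≤ 2 * m * (2 ^ L * w) := by gcongr
    have e3 : m ≤ m * w := Nat.le_mul_of_pos_right _ hW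
    have e4 : u ≤ 2 ^ (L + 1) * u := Nat.le_mul_of_pos_left _ (by positivity)
    rw [pow_succ] at *
    nlinarith

theorem oc_W_one (L : ℕ) : 2 ^ L * (64 * oc false (W L 1)) + (W L 1).length ≤
    2 ^ L * (W L 1).length := by
  induction L with
  | zero =>
    have : oc false (W 0 1) = 0 := by simp [W, oc, cc]
    rw [this]; simp
  | succ L ih =>
    have h1 : oc false (W (L + 1) 1) ≤ (U L).length + M L * oc false (W L 1) := by
      rw [W_succ_of_lt L 1 (by omega), oc_append, oc_rep]
      have := oc_le false (U L)
      omega
    have hM := M_eq L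
    have hW := W_length_pos L 1
    rw [length_W_succ L 1 (by omega)]
    set a := oc false (W L 1)
    set a' := oc false (W (L + 1) 1)
    set u := (U L).length
    set m := M L
    set w := (W L 1).length
    have e1 : 2 ^ (L + 1) * (64 * a') ≤ 2 ^ L * (128 * u) + 2 * m * (2 ^ L * (64 * a)) := by
      calc 2 ^ (L + 1) * (64 * a') ≤ 2 ^ (L + 1) * (64 * (u + m * a)) := by gcongr
        _ = _ := by rw [pow_succ]; ring
    rw [← hM] at e1
    have e2 : 2 * m * (2 ^ L * (64 * a) + w) ≤ 2 * m * (2 ^ L * w) := by gcongr
    have e3 : m ≤ m * w := Nat.le_mul_of_pos_right _ hW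
    have e4 : u ≤ 2 ^ (L + 1) * u := Nat.le_mul_of_pos_left _ (by positivity)
    rw [pow_succ] at *
    nlinarith

theorem oc_W_zero' (L : ℕ) : 64 * oc true (W L 0) ≤ (W L 0).length := by
  have h := oc_W_zero L
  have h2 : 2 ^ L * (64 * oc true (W L 0)) ≤ 2 ^ L * (W L 0).length := by omega
  exact Nat.le_of_mul_le_mul_left h2 (by positivity)

theorem oc_W_one' (L : ℕ) : 64 * oc false (W L 1) ≤ (W L 1).length := by
  have h := oc_W_one L
  have h2 : 2 ^ L * (64 * oc false (W L 1)) ≤ 2 ^ L * (W L 1).length := by omega
  exact Nat.le_of_mul_le_mul_left h2 (by positivity)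

end Pool.Agent.H48
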