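import Mathlib
import Pool.Agent.H48.Count

/-!
# The combinatorial input: long almost periodic words in every point of the subshift
-/

namespace Pool.Agent.H48

open Set

theorem oc_new (n : ℕ) : oc true (W (n + 1) (n + 2)) =
    oc true (U n) + M n * oc true (W n 0) + M n * oc true (W n 1) := by
  rw [W_succ_new, oc_append, oc_append, oc_rep, oc_rep]
  ring

theorem periodic_good (n : ℕ) (x : ℤ → Bool) (s : ℕ)
    (hx : ∀ t : ℕ, t < 2 * (W (n + 1) (n + 2)).length →
      some (x t) = (W (n + 1) (n + 2))[(s + t) % (W (n + 1) (n + 2)).length]?) :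
    good n (W (n + 1) (n + 2)).length x := by
  have hlen := length_W_new n
  have hoc := oc_new n
  have hw : W (n + 1) (n + 2) = (U n ++ rep (M n) (W n 0)) ++ rep (M n) (W n 1) := by
    rw [W_succ_new, List.append_assoc]
  have hcyc : ∀ l, cc (fun i => (W (n + 1) (n + 2))[i % (W (n + 1) (n + 2)).length]? = some true ∧
      (W (n + 1) (n + 2))[(i + l) % (W (n + 1) (n + 2)).length]? = some false)
        (W (n + 1) (n + 2)).length ≤ oc true (U n ++ rep (M n) (W n 0)) +
          oc false (rep (M n) (W n 1)) + l := by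
    intro l
    have := cyc_count (U n ++ rep (M n) (W n 0)) (rep (M n) (W n 1)) l
    rwa [← hw] at this
  have hoa := oc_W_zero' n
  have hob := oc_W_one' n
  have hM := M_eq n
  have hoc1 := oc_add (W n 1)
  have hUle := oc_le true (U n)
  have hUpos := U_length_pos n
  have hapos := W_length_pos n 0
  have h01 := length_W_zero_one n
  generalize W (n + 1) (n + 2) = w at *
  set h := w.length with hh
  have hpos : 0 < h := by omega
  -- frequency of ones
  have hones : cc (fun i => x i = true) h = oc true w := by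
    have e1 : cc (fun i => x i = true) h = cc (fun i => w[(s + i) % h]? = some true) h := by
      apply cc_congr
      intro i hi
      rw [← hx i (by omega)]
      simp
    have e2 := cc_shift_periodic (fun i => w[i % h]? = some true) h (fun i => by simp) s
    rw [e1, e2]
    unfold oc
    apply cc_congr
    intro i hi
    rw [Nat.mod_eq_of_lt hi]
  have hma : M n ≤ M n * (W n 0).length := Nat.le_mul_of_pos_right _ hapos
  have h2n : n < 2 ^ n := Nat.lt_two_pow_self
  have hm1 : 128 * (U n).length ≤ M n := by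
    rw [hM]; exact Nat.le_mul_of_pos_left _ (by positivity)
  have hm2 : 128 * n ≤ M n := by
    rw [hM]
    have : n * 1 ≤ 2 ^ n * (U n).length := Nat.mul_le_mul h2n.le hUpos
    nlinarith
  have hoa' : M n * (64 * oc true (W n 0)) ≤ M n * (W n 0).length := Nat.mul_le_mul_left _ hoa
  have hob' : M n * (64 * oc false (W n 1)) ≤ M n * (W n 0).length := by
    rw [h01]; exact Nat.mul_le_mul_left _ hob
  have hoc1' : M n * oc true (W n 1) + M n * oc false (W n 1) = M n * (W n 0).length := by
    rw [h01, ← mul_add, hoc1]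
  refine ⟨?_, ?_, ?_⟩
  · rw [hones, hoc, hlen]
    nlinarith
  · rw [hones, hoc, hlen]
    nlinarith
  · intro l hl
    have e1 : cc (fun i => x i = true ∧ x (i + l) = false) h =
        cc (fun i => w[(s + i) % h]? = some true ∧ w[(s + i + l) % h]? = some false) h := by
      apply cc_congr
      intro i hi
      have hl2 : i + l < 2 * h := by
        have : n ≤ h := by
          have : M n * (W n 0).length ≤ h := by omega
          omega
        omega
      have e3 := hx i (by omega)
      have e4 := hx (i + l) hl2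
      rw [← add_assoc] at e4
      rw [← e3, ← e4]
      simp
    have e2 := cc_shift_periodic
      (fun i => w[i % h]? = some true ∧ w[(i + l) % h]? = some false) h (fun i => by
        have : i + h + l = i + l + h := by ring
        rw [this]; simp) s
    rw [e1, e2]
    have e3 := hcyc l
    rw [oc_append, oc_rep, oc_rep] at e3
    rw [hlen]
    rw [hlen] at e3
    nlinarith

theorem bad_ratio (n : ℕ) (d : ℕ) :
    2 ^ (n + 8 + d) * bad (W (n + 1) (n + 2)) (W (n + 2 + d) (n + 2)) +
      3 * (W (n + 2 + d) (n + 2)).length ≤ 3 * 2 ^ (d + 1) * (W (n + 2 + d) (n + 2)).length := by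
  induction d with
  | zero =>
    have hV : W (n + 2 + 0) (n + 2) = U (n + 1) ++ rep (M (n + 1)) (W (n + 1) (n + 2)) :=
      W_succ_of_lt (n + 1) (n + 2) (by omega)
    have hlen : (W (n + 2 + 0) (n + 2)).length =
        (U (n + 1)).length + M (n + 1) * (W (n + 1) (n + 2)).length :=
      length_W_succ (n + 1) (n + 2) (by omega)
    have hb : bad (W (n + 1) (n + 2)) (W (n + 2 + 0) (n + 2)) ≤ 3 * (U (n + 1)).length := by
      rw [hV]
      have h1 := bad_append (W (n + 1) (n + 2)) (U (n + 1)) (rep (M (n + 1)) (W (n + 1) (n + 2)))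
      have h2 := bad_le (W (n + 1) (n + 2)) (U (n + 1))
      have h3 := bad_rep_self (W (n + 1) (n + 2)) (M (n + 1))
      have h4 := W_length_le_U (n + 1) (n + 2) (by omega)
      omega
    rw [hlen]
    have hM : M (n + 1) = 2 ^ (n + 8) * (U (n + 1)).length := by
      unfold M; rfl
    have hpos := W_length_pos (n + 1) (n + 2)
    have h1 : 2 ^ (n + 8 + 0) * bad (W (n + 1) (n + 2)) (W (n + 2 + 0) (n + 2)) ≤
        3 * M (n + 1) := by
      rw [hM]
      calc _ ≤ 2 ^ (n + 8 + 0) * (3 * (U (n + 1)).length) := Nat.mul_le_mul_left _ hb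
        _ = _ := by ring
    have h2 : M (n + 1) ≤ M (n + 1) * (W (n + 1) (n + 2)).length :=
      Nat.le_mul_of_pos_right _ hpos
    norm_num
    norm_num at h1
    nlinarith
  | succ d ih =>
    have hV : W (n + 2 + (d + 1)) (n + 2) =
        U (n + 2 + d) ++ rep (M (n + 2 + d)) (W (n + 2 + d) (n + 2)) :=
      W_succ_of_lt (n + 2 + d) (n + 2) (by omega)
    have hlen : (W (n + 2 + (d + 1)) (n + 2)).length =
        (U (n + 2 + d)).length + M (n + 2 + d) * (W (n + 2 + d) (n + 2)).length :=
      length_W_succ (n + 2 + d) (n + 2) (by omega)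
    have hb : bad (W (n + 1) (n + 2)) (W (n + 2 + (d + 1)) (n + 2)) ≤
        (U (n + 2 + d)).length + M (n + 2 + d) * bad (W (n + 1) (n + 2)) (W (n + 2 + d) (n + 2)) := by
      rw [hV]
      have h1 := bad_append (W (n + 1) (n + 2)) (U (n + 2 + d))
        (rep (M (n + 2 + d)) (W (n + 2 + d) (n + 2)))
      have h2 := bad_le (W (n + 1) (n + 2)) (U (n + 2 + d))
      have h3 := bad_rep (W (n + 1) (n + 2)) (M (n + 2 + d)) (W (n + 2 + d) (n + 2))
      omega
    rw [hlen]
    have hM : M (n + 2 + d) = 2 ^ (n + 8 + (d + 1)) * (U (n + 2 + d)).length := by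
      unfold M; congr 2; ring
    have hpos := W_length_pos (n + 2 + d) (n + 2)
    set B := bad (W (n + 1) (n + 2)) (W (n + 2 + d) (n + 2))
    set B' := bad (W (n + 1) (n + 2)) (W (n + 2 + (d + 1)) (n + 2))
    set u := (U (n + 2 + d)).length
    set m := M (n + 2 + d)
    set v := (W (n + 2 + d) (n + 2)).length
    have h1 : 2 ^ (n + 8 + (d + 1)) * B' ≤ m + 2 * m * (2 ^ (n + 8 + d) * B) := by
      calc _ ≤ 2 ^ (n + 8 + (d + 1)) * (u + m * B) := Nat.mul_le_mul_left _ hb
        _ = 2 ^ (n + 8 + (d + 1)) * u + 2 * m * (2 ^ (n + 8 + d) * B) := by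
          rw [show n + 8 + (d + 1) = (n + 8 + d) + 1 by ring, pow_succ]; ring
        _ = _ := by rw [← hM]
    have h2 : 2 * m * (2 ^ (n + 8 + d) * B + 3 * v) ≤ 2 * m * (3 * 2 ^ (d + 1) * v) :=
      Nat.mul_le_mul_left _ ih
    have h3 : m ≤ m * v := Nat.le_mul_of_pos_right _ hpos
    have h4 : u ≤ 2 ^ (d + 1 + 1) * u := Nat.le_mul_of_pos_left _ (by positivity)
    have h5 : 2 * m * (3 * 2 ^ (d + 1) * v) = 3 * 2 ^ (d + 1 + 1) * (m * v) := by
      rw [pow_succ 2 (d + 1)]; ring
    nlinarith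

theorem bad_ratio' (n : ℕ) (d : ℕ) :
    16 * bad (W (n + 1) (n + 2)) (W (n + 2 + d) (n + 2)) ≤ (W (n + 2 + d) (n + 2)).length := by
  have h := bad_ratio n d
  have h1 : 2 ^ d * (2 ^ (n + 8) * bad (W (n + 1) (n + 2)) (W (n + 2 + d) (n + 2))) ≤
      2 ^ d * (6 * (W (n + 2 + d) (n + 2)).length) := by
    have e1 : 2 ^ (n + 8 + d) = 2 ^ d * 2 ^ (n + 8) := by rw [pow_add 2 (n + 8) d]; ring
    have e2 : 2 ^ (d + 1) = 2 ^ d * 2 := pow_succ 2 d
    rw [e1, e2] at h
    nlinarith
  have h2 := Nat.le_of_mul_le_mul_left h1 (by positivity)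
  have h3 : 256 ≤ 2 ^ (n + 8) := by
    rw [pow_add]
    have : 1 ≤ 2 ^ n := Nat.one_le_two_pow
    omega
  have h4 : 256 * bad (W (n + 1) (n + 2)) (W (n + 2 + d) (n + 2)) ≤
      2 ^ (n + 8) * bad (W (n + 1) (n + 2)) (W (n + 2 + d) (n + 2)) := Nat.mul_le_mul_right _ h3
  omega

theorem length_large (i L : ℕ) (h : i < L + 2) : L ≤ (W (L + 1) i).length := by
  rw [length_W_succ L i h]
  have h1 := W_length_pos L i
  have h2 := U_length_pos L
  have h3 : L < 2 ^ L := Nat.lt_two_pow_self
  have h4 : 2 ^ L ≤ M L := by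
    rw [M_eq]
    exact Nat.le_mul_of_pos_right _ (by omega)
  have h5 : M L ≤ M L * (W L i).length := Nat.le_mul_of_pos_right _ h1
  omega

/-- The combinatorial input. -/
theorem exists_subshift : ∃ X : Set (ℤ → Bool), IsClosed X ∧ X.Nonempty ∧
    (∀ x ∈ X, ∀ k, shift k x ∈ X) ∧
    ∀ n : ℕ, ∃ H : ℕ, 0 < H ∧ ∀ x ∈ X, ∀ L₀ : ℕ, ∃ L : ℕ, L₀ ≤ L ∧ ∃ k : ℤ,
      16 * cc (fun i => ¬ good n H (shift (k + i) x)) L ≤ L := by
  refine ⟨XX, isClosed_XX, XX_nonempty, fun x hx k => XX_shift hx k, fun n => ?_⟩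
  refine ⟨(W (n + 1) (n + 2)).length, W_length_pos _ _, fun x hx L₀ => ?_⟩
  obtain ⟨s, hs⟩ := XX_occ hx (n + 2 + L₀) (n + 2) (by omega)
  refine ⟨(W (n + 2 + L₀) (n + 2)).length, ?_, s, ?_⟩
  · have := length_large (n + 2) (n + 1 + L₀) (by omega)
    have e : n + 1 + L₀ + 1 = n + 2 + L₀ := by ring
    rw [e] at this
    omega
  · refine le_trans (Nat.mul_le_mul_left _ ?_) (bad_ratio' n L₀)
    unfold bad
    apply cc_mono
    intro p hp hbad hgood
    apply hbad
    obtain ⟨h1, s', h2⟩ := hgood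
    apply periodic_good n _ s'
    intro t ht
    rw [← h2 t ht, hs (p + t) (by omega)]
    simp only [shift]
    congr 2
    push_cast
    ring

end Pool.Agent.H48
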