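import Mathlib
import Pool.Agent.H48.Words

/-!
# The group attached to a subshift
-/

namespace Pool.Agent.H48

open Set Equiv

variable {X : Set (ℤ → Bool)} (hX : ∀ x ∈ X, ∀ k, shift k x ∈ X)

/-- The space on which the group acts. -/
abbrev Sp (X : Set (ℤ → Bool)) : Type := X × Fin 3 × Bool

/-- The ambient group. -/
abbrev Big (X : Set (ℤ → Bool)) : Type := Perm (Sp X) × Multiplicative ℤ

/-- The shift on `X`. -/
def shX (k : ℤ) (x : X) : X := ⟨shift k x, hX x x.2 k⟩

theorem shX_shX (k l : ℤ) (x : X) : shX hX k (shX hX l x) = shX hX (k + l) x := by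
  apply Subtype.ext
  exact shift_shift k l x

theorem shX_zero (x : X) : shX hX 0 x = x := by
  apply Subtype.ext
  exact shift_zero _

/-- The shift as a permutation. -/
def phi (k : ℤ) : Perm (Sp X) where
  toFun p := (shX hX k p.1, p.2)
  invFun p := (shX hX (-k) p.1, p.2)
  left_inv p := by
    refine Prod.ext ?_ rfl
    change shX hX (-k) (shX hX k p.1) = p.1
    rw [shX_shX, neg_add_cancel, shX_zero]
  right_inv p := by
    refine Prod.ext ?_ rfl
    change shX hX k (shX hX (-k) p.1) = p.1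
    rw [shX_shX, add_neg_cancel, shX_zero]

theorem phi_mul (k l : ℤ) : phi hX k * phi hX l = phi hX (k + l) := by
  ext1 p
  refine Prod.ext ?_ rfl
  exact shX_shX hX k l p.1

theorem phi_zero : phi hX 0 = 1 := by
  ext1 p
  refine Prod.ext ?_ rfl
  exact shX_zero hX p.1

/-- Local permutations. -/
def loc (X : Set (ℤ → Bool)) :
    ((ℤ → Bool) → Perm (Fin 3)) × ((ℤ → Bool) → Perm Bool) →* Perm (Sp X) where
  toFun c :=
    { toFun := fun p => (p.1, c.1 p.1 p.2.1, c.2 p.1 p.2.2)
      invFun := fun p => (p.1, (c.1 p.1)⁻¹ p.2.1, (c.2 p.1)⁻¹ p.2.2)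
      left_inv := fun p => by simp
      right_inv := fun p => by simp }
  map_one' := by ext1 p; rfl
  map_mul' c d := by ext1 p; rfl

theorem loc_apply (c : ((ℤ → Bool) → Perm (Fin 3)) × ((ℤ → Bool) → Perm Bool)) (p : Sp X) :
    loc X c p = (p.1, c.1 p.1 p.2.1, c.2 p.1 p.2.2) := rfl

theorem phi_conj_loc (k : ℤ) (c : ((ℤ → Bool) → Perm (Fin 3)) × ((ℤ → Bool) → Perm Bool)) :
    phi hX (-k) * loc X c * phi hX k =
      loc X (fun x => c.1 (shift k x), fun x => c.2 (shift k x)) := by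
  ext1 p
  refine Prod.ext ?_ rfl
  change shX hX (-k) (shX hX k p.1) = p.1
  rw [shX_shX, neg_add_cancel, shX_zero]

/-- Elementary local functions with values in `Perm (Fin 3)`. -/
def ee (n : ℤ) (j : Bool) (σ : Perm (Fin 3)) : (ℤ → Bool) → Perm (Fin 3) :=
  fun x => if x n = j then σ else 1

/-- Elementary local functions with values in `Perm Bool`. -/
def ee' (n : ℤ) (j : Bool) : (ℤ → Bool) → Perm Bool :=
  fun x => if x n = j then Equiv.boolNot else 1

/-- Generators. -/
def gen : Unit ⊕ (Bool × Perm (Fin 3)) ⊕ Bool → Big X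
  | Sum.inl _ => (phi hX 1, Multiplicative.ofAdd 1)
  | Sum.inr (Sum.inl (j, σ)) => (loc X (ee 0 j σ, 1), 1)
  | Sum.inr (Sum.inr j) => (loc X (1, ee' 0 j), 1)

/-- The group attached to the subshift. -/
def Gam : Subgroup (Big X) := Subgroup.closure (Set.range (gen hX))

theorem gam_fg : Group.FG (Gam hX) := by
  rw [Group.fg_iff_subgroup_fg]
  exact ⟨(Set.finite_range (gen hX)).toFinset, by simp [Gam]⟩

/-- The shift generator. -/
def gT : Gam hX := ⟨gen hX (Sum.inl ()), Subgroup.subset_closure ⟨_, rfl⟩⟩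

/-- The local generators of the first family. -/
def gS (j : Bool) (σ : Perm (Fin 3)) : Gam hX :=
  ⟨gen hX (Sum.inr (Sum.inl (j, σ))), Subgroup.subset_closure ⟨_, rfl⟩⟩

/-- The local generators of the second family. -/
def gR (j : Bool) : Gam hX :=
  ⟨gen hX (Sum.inr (Sum.inr j)), Subgroup.subset_closure ⟨_, rfl⟩⟩

theorem gT_zpow (n : ℤ) : ((gT hX ^ n : Gam hX) : Big X) = (phi hX n, Multiplicative.ofAdd n) := by
  have h1 : ∀ n : ℕ, ((gT hX ^ n : Gam hX) : Big X) = (phi hX n, Multiplicative.ofAdd (n : ℤ)) := by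
    intro n
    induction n with
    | zero =>
      rw [pow_zero]
      refine Prod.ext ?_ rfl
      exact (phi_zero hX).symm
    | succ n ih =>
      rw [pow_succ, Subgroup.coe_mul, ih]
      change (phi hX n, Multiplicative.ofAdd (n : ℤ)) * (phi hX 1, Multiplicative.ofAdd (1 : ℤ)) = _
      rw [Prod.mk_mul_mk, phi_mul, ← ofAdd_add]
      push_cast
      rfl
  obtain ⟨m, rfl | rfl⟩ := n.eq_nat_or_neg
  · rw [zpow_natCast]; exact h1 m
  · rw [zpow_neg, zpow_natCast, Subgroup.coe_inv, h1, Prod.inv_mk, ofAdd_neg]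
    congr 1
    rw [inv_eq_iff_mul_eq_one, phi_mul, add_neg_cancel, phi_zero]

/-- Conjugates of local generators of the first family. -/
def gE (n : ℤ) (j : Bool) (σ : Perm (Fin 3)) : Gam hX := gT hX ^ (-n) * gS hX j σ * gT hX ^ n

/-- Conjugates of local generators of the second family. -/
def gE' (n : ℤ) (j : Bool) : Gam hX := gT hX ^ (-n) * gR hX j * gT hX ^ n

theorem gE_coe (n : ℤ) (j : Bool) (σ : Perm (Fin 3)) :
    (gE hX n j σ : Big X) = (loc X (ee n j σ, 1), 1) := by
  unfold gE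
  rw [Subgroup.coe_mul, Subgroup.coe_mul, gT_zpow, gT_zpow]
  change (phi hX (-n), Multiplicative.ofAdd (-n)) * (loc X (ee 0 j σ, 1), 1) *
    (phi hX n, Multiplicative.ofAdd n) = _
  rw [Prod.mk_mul_mk, Prod.mk_mul_mk, phi_conj_loc]
  refine Prod.ext ?_ ?_
  · change loc X _ = loc X _
    congr 1
    refine Prod.ext ?_ rfl
    funext x
    simp [ee, shift]
  · simp

theorem gE'_coe (n : ℤ) (j : Bool) :
    (gE' hX n j : Big X) = (loc X (1, ee' n j), 1) := by
  unfold gE'
  rw [Subgroup.coe_mul, Subgroup.coe_mul, gT_zpow, gT_zpow]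
  change (phi hX (-n), Multiplicative.ofAdd (-n)) * (loc X (1, ee' 0 j), 1) *
    (phi hX n, Multiplicative.ofAdd n) = _
  rw [Prod.mk_mul_mk, Prod.mk_mul_mk, phi_conj_loc]
  refine Prod.ext ?_ ?_
  · change loc X _ = loc X _
    congr 1
    refine Prod.ext rfl ?_
    funext x
    simp [ee', shift]
  · simp

theorem gE_comm (n m : ℤ) (j l : Bool) (σ : Perm (Fin 3)) :
    gE hX n j σ * gE' hX m l = gE' hX m l * gE hX n j σ := by
  apply Subtype.ext
  rw [Subgroup.coe_mul, Subgroup.coe_mul, gE_coe, gE'_coe, Prod.mk_mul_mk, Prod.mk_mul_mk,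
    ← map_mul, ← map_mul]
  simp

theorem gE_zero (j : Bool) (σ : Perm (Fin 3)) : gE hX 0 j σ = gS hX j σ := by
  simp [gE]

theorem gE'_zero (j : Bool) : gE' hX 0 j = gR hX j := by
  simp [gE']

end Pool.Agent.H48
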