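import Mathlib
import Pool.Agent.H48.Grp

/-!
# Actions of the group close to the natural one factor onto the subshift
-/

namespace Pool.Agent.H48

open Set Equiv
open scoped commutatorElement

variable {X : Set (ℤ → Bool)} (hX : ∀ x ∈ X, ∀ k, shift k x ∈ X)

variable {Y : Type} [MulAction (Gam hX) Y] (i : Y → Bool) (f : Y → Fin 3) (f' : Y → Bool)

/-- The conditions satisfied by all actions close to the natural one. -/
structure Cond : Prop where
  T_f : ∀ y, f (gT hX • y) = f y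
  T_f' : ∀ y, f' (gT hX • y) = f' y
  S_f : ∀ j σ y, f (gS hX j σ • y) = if i y = j then σ (f y) else f y
  S_f' : ∀ j σ y, f' (gS hX j σ • y) = f' y
  R_f : ∀ j y, f (gR hX j • y) = f y
  R_f' : ∀ j y, f' (gR hX j • y) = if i y = j then !(f' y) else f' y

/-- The itinerary of a point. -/
def itin (y : Y) : ℤ → Bool := fun n => i (gT hX ^ n • y)

variable {hX i f f'}

theorem Cond.T_zpow_f (h : Cond hX i f f') (k : ℤ) (y : Y) : f (gT hX ^ k • y) = f y := by
  have h1 : ∀ (n : ℕ) (y : Y), f (gT hX ^ n • y) = f y := by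
    intro n
    induction n with
    | zero => intro y; simp
    | succ n ih => intro y; rw [pow_succ', mul_smul, h.T_f, ih]
  obtain ⟨m, rfl | rfl⟩ := k.eq_nat_or_neg
  · rw [zpow_natCast]; exact h1 m y
  · rw [zpow_neg, zpow_natCast]
    have := h1 m ((gT hX ^ m)⁻¹ • y)
    rw [smul_inv_smul] at this
    exact this.symm

theorem Cond.T_zpow_f' (h : Cond hX i f f') (k : ℤ) (y : Y) : f' (gT hX ^ k • y) = f' y := by
  have h1 : ∀ (n : ℕ) (y : Y), f' (gT hX ^ n • y) = f' y := by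
    intro n
    induction n with
    | zero => intro y; simp
    | succ n ih => intro y; rw [pow_succ', mul_smul, h.T_f', ih]
  obtain ⟨m, rfl | rfl⟩ := k.eq_nat_or_neg
  · rw [zpow_natCast]; exact h1 m y
  · rw [zpow_neg, zpow_natCast]
    have := h1 m ((gT hX ^ m)⁻¹ • y)
    rw [smul_inv_smul] at this
    exact this.symm

theorem Cond.gE_f (h : Cond hX i f f') (n : ℤ) (j : Bool) (σ : Perm (Fin 3)) (y : Y) :
    f (gE hX n j σ • y) = if i (gT hX ^ n • y) = j then σ (f y) else f y := by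
  rw [gE, mul_smul, mul_smul, h.T_zpow_f, h.S_f, h.T_zpow_f]

theorem Cond.gE_f' (h : Cond hX i f f') (n : ℤ) (j : Bool) (σ : Perm (Fin 3)) (y : Y) :
    f' (gE hX n j σ • y) = f' y := by
  rw [gE, mul_smul, mul_smul, h.T_zpow_f', h.S_f', h.T_zpow_f']

theorem Cond.gE'_f (h : Cond hX i f f') (n : ℤ) (j : Bool) (y : Y) :
    f (gE' hX n j • y) = f y := by
  rw [gE', mul_smul, mul_smul, h.T_zpow_f, h.R_f, h.T_zpow_f]

theorem Cond.gE'_f' (h : Cond hX i f f') (n : ℤ) (j : Bool) (y : Y) :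
    f' (gE' hX n j • y) = if i (gT hX ^ n • y) = j then !(f' y) else f' y := by
  rw [gE', mul_smul, mul_smul, h.T_zpow_f', h.R_f', h.T_zpow_f']

theorem Cond.gE_i (h : Cond hX i f f') (n : ℤ) (j : Bool) (σ : Perm (Fin 3)) (y : Y) :
    i (gE hX n j σ • y) = i y := by
  have h1 : f' ((gE hX n j σ * gE' hX 0 (i y)) • y) = !(f' y) := by
    rw [mul_smul, h.gE_f', gE'_zero, h.R_f', if_pos rfl]
  rw [gE_comm, mul_smul, gE'_zero, h.R_f', h.gE_f'] at h1
  by_contra hne
  rw [if_neg hne] at h1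
  cases hf : f' y <;> simp [hf] at h1

/-- A fixed-point free permutation of `Fin 3`. -/
def rho : Perm (Fin 3) := finRotate 3

theorem rho_ne (a : Fin 3) : rho a ≠ a := by
  revert a; decide

/-- A transposition of `Fin 3`. -/
def tau : Perm (Fin 3) := Equiv.swap 0 1

theorem comm_tau_rho : ⁅tau, rho⁆ = rho := by decide

theorem Cond.gE'_i (h : Cond hX i f f') (n : ℤ) (j : Bool) (y : Y) :
    i (gE' hX n j • y) = i y := by
  have h1 : f ((gE' hX n j * gE hX 0 (i y) rho) • y) = rho (f y) := by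
    rw [mul_smul, h.gE'_f, gE_zero, h.S_f, if_pos rfl]
  rw [← gE_comm, mul_smul, gE_zero, h.S_f, h.gE'_f] at h1
  by_contra hne
  rw [if_neg hne] at h1
  exact rho_ne _ h1.symm

theorem itin_zpow (k : ℤ) (y : Y) : itin hX i (gT hX ^ k • y) = shift k (itin hX i y) := by
  funext n
  unfold itin shift
  rw [← mul_smul, ← zpow_add]

theorem zpow_gE (m n : ℤ) (j : Bool) (σ : Perm (Fin 3)) :
    gT hX ^ m * gE hX n j σ = gE hX (n - m) j σ * gT hX ^ m := by
  unfold gE
  group

theorem zpow_gE' (m n : ℤ) (j : Bool) :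
    gT hX ^ m * gE' hX n j = gE' hX (n - m) j * gT hX ^ m := by
  unfold gE'
  group

theorem Cond.itin_gE (h : Cond hX i f f') (n : ℤ) (j : Bool) (σ : Perm (Fin 3)) (y : Y) :
    itin hX i (gE hX n j σ • y) = itin hX i y := by
  funext m
  unfold itin
  rw [← mul_smul, zpow_gE, mul_smul, h.gE_i]

theorem Cond.itin_gE' (h : Cond hX i f f') (n : ℤ) (j : Bool) (y : Y) :
    itin hX i (gE' hX n j • y) = itin hX i y := by
  funext m
  unfold itin
  rw [← mul_smul, zpow_gE', mul_smul, h.gE'_i]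

theorem Cond.itin_smul (h : Cond hX i f f') (g : Gam hX) (y : Y) :
    itin hX i (g • y) = shift (Multiplicative.toAdd (g : Big X).2) (itin hX i y) := by
  obtain ⟨g, hg⟩ := g
  change itin hX i ((⟨g, hg⟩ : Gam hX) • y) = shift (Multiplicative.toAdd g.2) (itin hX i y)
  revert y
  refine Subgroup.closure_induction (p := fun (g : Big X) (hg : g ∈ Gam hX) => ∀ y : Y,
    itin hX i ((⟨g, hg⟩ : Gam hX) • y) = shift (Multiplicative.toAdd g.2) (itin hX i y))
    ?_ ?_ ?_ ?_ hg
  · rintro x ⟨s, rfl⟩ y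
    rcases s with s | ⟨j, σ⟩ | j
    · have := itin_zpow (hX := hX) (i := i) 1 y
      rw [zpow_one] at this
      exact this
    · have := h.itin_gE 0 j σ y
      rw [gE_zero] at this
      refine this.trans ?_
      change _ = shift 0 _
      rw [shift_zero]
    · have := h.itin_gE' 0 j y
      rw [gE'_zero] at this
      refine this.trans ?_
      change _ = shift 0 _
      rw [shift_zero]
  · intro y
    change itin hX i ((1 : Gam hX) • y) = shift 0 _
    rw [one_smul, shift_zero]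
  · intro a b ha hb iha ihb y
    have e : (⟨a * b, mul_mem ha hb⟩ : Gam hX) = ⟨a, ha⟩ * ⟨b, hb⟩ := rfl
    rw [e, mul_smul, iha, ihb, shift_shift]
    rfl
  · intro a ha iha y
    have e : (⟨a⁻¹, inv_mem ha⟩ : Gam hX) = (⟨a, ha⟩ : Gam hX)⁻¹ := rfl
    have h1 := iha ((⟨a, ha⟩ : Gam hX)⁻¹ • y)
    rw [smul_inv_smul] at h1
    rw [e, h1, shift_shift]
    change _ = shift (-(Multiplicative.toAdd a.2) + Multiplicative.toAdd a.2) _
    rw [neg_add_cancel, shift_zero]

variable (hX i f) in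
/-- `g` acts through the local function `c`. -/
def Rep (g : Gam hX) (c : (ℤ → Bool) → Perm (Fin 3)) : Prop :=
  (g : Big X) = (loc X (c, 1), 1) ∧
    ∀ y : Y, itin hX i (g • y) = itin hX i y ∧ f (g • y) = c (itin hX i y) (f y)

theorem Rep.mul {g g' : Gam hX} {c c' : (ℤ → Bool) → Perm (Fin 3)} (h : Rep hX i f g c)
    (h' : Rep hX i f g' c') : Rep hX i f (g * g') (c * c') := by
  refine ⟨?_, fun y => ?_⟩
  · rw [Subgroup.coe_mul, h.1, h'.1, Prod.mk_mul_mk, ← map_mul]
    simp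
  · rw [mul_smul, (h.2 _).1, (h'.2 _).1, (h.2 _).2, (h'.2 _).1, (h'.2 _).2]
    exact ⟨rfl, rfl⟩

theorem Rep.inv {g : Gam hX} {c : (ℤ → Bool) → Perm (Fin 3)} (h : Rep hX i f g c) :
    Rep hX i f g⁻¹ c⁻¹ := by
  refine ⟨?_, fun y => ?_⟩
  · rw [Subgroup.coe_inv, h.1, Prod.inv_mk, ← map_inv]
    simp
  · have h1 := h.2 (g⁻¹ • y)
    rw [smul_inv_smul] at h1
    refine ⟨h1.1.symm, ?_⟩
    rw [h1.1, Pi.inv_apply, eq_comm, Perm.inv_eq_iff_eq]
    exact h1.2

theorem Rep.comm {g g' : Gam hX} {c c' : (ℤ → Bool) → Perm (Fin 3)} (h : Rep hX i f g c)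
    (h' : Rep hX i f g' c') : Rep hX i f ⁅g, g'⁆ ⁅c, c'⁆ :=
  ((h.mul h').mul h.inv).mul h'.inv

theorem Cond.rep_gE (h : Cond hX i f f') (n : ℤ) (j : Bool) (σ : Perm (Fin 3)) :
    Rep hX i f (gE hX n j σ) (ee n j σ) := by
  refine ⟨gE_coe hX n j σ, fun y => ⟨h.itin_gE n j σ y, ?_⟩⟩
  rw [h.gE_f]
  unfold ee itin
  split_ifs <;> rfl

theorem Cond.exists_rep (h : Cond hX i f f') (z : ℤ → Bool) (l : List ℤ) :
    ∃ (g : Gam hX) (c : (ℤ → Bool) → Perm (Fin 3)), Rep hX i f g c ∧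
      (∀ x, (∀ p ∈ l, x p = z p) → c x = rho) ∧ (∀ x, (∃ p ∈ l, x p ≠ z p) → c x = 1) := by
  induction l with
  | nil =>
    refine ⟨gE hX 0 true rho * gE hX 0 false rho, _, (h.rep_gE 0 true rho).mul
      (h.rep_gE 0 false rho), fun x _ => ?_, fun x hx => ?_⟩
    · rw [Pi.mul_apply]
      unfold ee
      cases x 0 <;> simp
    · obtain ⟨p, hp, _⟩ := hx
      simp at hp
  | cons p l ih =>
    obtain ⟨g, c, hr, h1, h2⟩ := ih
    refine ⟨_, _, (h.rep_gE p (z p) tau).comm hr, fun x hx => ?_, fun x hx => ?_⟩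
    · have e1 : c x = rho := h1 x fun q hq => hx q (List.mem_cons_of_mem _ hq)
      have e2 : ee p (z p) tau x = tau := by
        unfold ee
        rw [if_pos (hx p List.mem_cons_self)]
      have : ⁅ee p (z p) tau, c⁆ x = ⁅ee p (z p) tau x, c x⁆ := rfl
      rw [this, e1, e2, comm_tau_rho]
    · have : ⁅ee p (z p) tau, c⁆ x = ⁅ee p (z p) tau x, c x⁆ := rfl
      rw [this]
      obtain ⟨q, hq, hne⟩ := hx
      rcases List.mem_cons.1 hq with rfl | hq
      · have e2 : ee q (z q) tau x = 1 := by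
          unfold ee
          rw [if_neg hne]
        rw [e2, commutatorElement_one_left]
      · rw [h2 x ⟨q, hq, hne⟩, commutatorElement_one_right]

/-- The itineraries belong to the subshift. -/
theorem Cond.itin_mem (h : Cond hX i f f') (hcl : IsClosed X) (y : Y) : itin hX i y ∈ X := by
  by_contra hy
  obtain ⟨I, u, hu, hsub⟩ := isOpen_pi_iff.1 hcl.isOpen_compl (itin hX i y) hy
  obtain ⟨g, c, hr, h1, h2⟩ := h.exists_rep (itin hX i y) I.toList
  have hg : g = 1 := by
    apply Subtype.ext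
    rw [hr.1]
    refine Prod.ext ?_ rfl
    ext1 p
    rw [loc_apply]
    have hcx : c p.1 = 1 := by
      apply h2
      by_contra hcon
      push Not at hcon
      refine hsub ?_ p.1.2
      intro q hq
      have := hcon q (Finset.mem_toList.2 hq)
      change (p.1 : ℤ → Bool) q ∈ u q
      rw [this]
      exact (hu q hq).2
    change (p.1, c p.1 p.2.1, (1 : Perm Bool) p.2.2) = p
    rw [hcx]
    rfl
  have h3 := (hr.2 y).2
  rw [hg, one_smul, h1 _ (fun p _ => rfl)] at h3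
  exact rho_ne _ h3.symm

end Pool.Agent.H48
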