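import Mathlib
import Pool.Agent.H48.Grp

/-!
# Følner sets in the group attached to a subshift
-/

namespace Pool.Agent.H48

open Set Equiv

variable {X : Set (ℤ → Bool)} (hX : ∀ x ∈ X, ∀ k, shift k x ∈ X)

/-- A function on `ℤ → Bool` depending only on the coordinates in `[-R, R]`. -/
def IsLoc {α : Type} (R : ℕ) (c : (ℤ → Bool) → α) : Prop :=
  ∀ x y : ℤ → Bool, (∀ i : ℤ, |i| ≤ R → x i = y i) → c x = c y

theorem finite_isLoc {α : Type} [Finite α] (R : ℕ) : {c : (ℤ → Bool) → α | IsLoc R c}.Finite := by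
  classical
  let I := {i : ℤ // i ∈ Finset.Icc (-(R : ℤ)) R}
  let ext : (I → Bool) → (ℤ → Bool) := fun w i => if h : i ∈ Finset.Icc (-(R : ℤ)) R then w ⟨i, h⟩
    else false
  have hext : ∀ c : (ℤ → Bool) → α, IsLoc R c → ∀ x, c x = c (ext (fun i => x i.1)) := by
    intro c hc x
    apply hc
    intro i hi
    have : i ∈ Finset.Icc (-(R : ℤ)) R := by
      rw [Finset.mem_Icc]
      exact abs_le.1 hi
    change x i = if h : i ∈ Finset.Icc (-(R : ℤ)) R then x i else false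
    rw [dif_pos this]
  refine Set.Finite.of_finite_image (f := fun c => fun w => c (ext w)) (Set.toFinite _) ?_
  intro c hc d hd hcd
  funext x
  rw [hext c hc x, hext d hd x]
  exact congrFun hcd (fun i => x i.1)

theorem IsLoc.mono {α : Type} {R R' : ℕ} {c : (ℤ → Bool) → α} (h : IsLoc R c) (hR : R ≤ R') :
    IsLoc R' c := fun x y hxy => h x y fun i hi => hxy i (hi.trans (by exact_mod_cast hR))

theorem IsLoc.comp_shift {α : Type} {R R' : ℕ} {c : (ℤ → Bool) → α} (h : IsLoc R c) (k : ℤ)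
    (hR : (R : ℤ) + |k| ≤ R') : IsLoc R' (fun x => c (shift k x)) := by
  intro x y hxy
  apply h
  intro i hi
  apply hxy
  exact (abs_add_le i k).trans (by omega)

theorem IsLoc.mul {α : Type} [Group α] {R : ℕ} {c d : (ℤ → Bool) → α} (h : IsLoc R c)
    (h' : IsLoc R d) : IsLoc R (c * d) := by
  intro x y hxy
  rw [Pi.mul_apply, Pi.mul_apply, h x y hxy, h' x y hxy]

theorem IsLoc.inv {α : Type} [Group α] {R : ℕ} {c : (ℤ → Bool) → α} (h : IsLoc R c) :
    IsLoc R c⁻¹ := by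
  intro x y hxy
  rw [Pi.inv_apply, Pi.inv_apply, h x y hxy]

/-- The elements of the group with shift part `k` and local part of window `R`. -/
def tile (k : ℤ) (R : ℕ) : Set (Gam hX) :=
  {γ | ∃ (c : (ℤ → Bool) → Perm (Fin 3)) (c' : (ℤ → Bool) → Perm Bool), IsLoc R c ∧ IsLoc R c' ∧
    (γ : Big X) = (phi hX k * loc X (c, c'), Multiplicative.ofAdd k)}

theorem tile_finite (k : ℤ) (R : ℕ) : (tile hX k R).Finite := by
  have h1 : ({c : (ℤ → Bool) → Perm (Fin 3) | IsLoc R c} ×ˢ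
      {c : (ℤ → Bool) → Perm Bool | IsLoc R c}).Finite :=
    (finite_isLoc R).prod (finite_isLoc R)
  have h2 := h1.image (fun c => ((phi hX k * loc X c, Multiplicative.ofAdd k) : Big X))
  refine Set.Finite.of_finite_image (f := fun γ : Gam hX => (γ : Big X)) (h2.subset ?_)
    (Subtype.val_injective.injOn)
  rintro _ ⟨γ, ⟨c, c', hc, hc', hγ⟩, rfl⟩
  exact ⟨(c, c'), ⟨hc, hc'⟩, hγ.symm⟩

theorem one_mem_tile (R : ℕ) : (1 : Gam hX) ∈ tile hX 0 R := by
  refine ⟨1, 1, fun x y _ => rfl, fun x y _ => rfl, ?_⟩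
  rw [phi_zero]
  refine Prod.ext ?_ rfl
  change (1 : Perm (Sp X)) = 1 * loc X 1
  rw [map_one, one_mul]

theorem tile_mul {m k : ℤ} {R₀ R : ℕ} {g γ : Gam hX} (hg : g ∈ tile hX m R₀)
    (hγ : γ ∈ tile hX k R) (hR : (R₀ : ℤ) + |k| ≤ R) : g * γ ∈ tile hX (m + k) R := by
  obtain ⟨c, c', hc, hc', hg⟩ := hg
  obtain ⟨d, d', hd, hd', hγ⟩ := hγ
  refine ⟨(fun x => c (shift k x)) * d, (fun x => c' (shift k x)) * d', (hc.comp_shift k hR).mul hd,
    (hc'.comp_shift k hR).mul hd', ?_⟩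
  rw [Subgroup.coe_mul, hg, hγ, Prod.mk_mul_mk, ofAdd_add]
  congr 1
  have h1 := phi_conj_loc hX k (c, c')
  have h2 : loc X (c, c') * phi hX k = phi hX k *
      loc X (fun x => c (shift k x), fun x => c' (shift k x)) := by
    rw [← h1]
    rw [← mul_assoc, ← mul_assoc, phi_mul, add_neg_cancel, phi_zero, one_mul]
  calc phi hX m * loc X (c, c') * (phi hX k * loc X (d, d'))
      = phi hX m * (loc X (c, c') * phi hX k) * loc X (d, d') := by group
    _ = phi hX m * (phi hX k * loc X (fun x => c (shift k x), fun x => c' (shift k x))) *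
        loc X (d, d') := by rw [h2]
    _ = (phi hX m * phi hX k) * (loc X (fun x => c (shift k x), fun x => c' (shift k x)) *
        loc X (d, d')) := by group
    _ = _ := by rw [phi_mul, ← map_mul]; rfl

theorem tile_mono {k : ℤ} {R R' : ℕ} (h : R ≤ R') : tile hX k R ⊆ tile hX k R' := by
  rintro γ ⟨c, c', hc, hc', hγ⟩
  exact ⟨c, c', hc.mono h, hc'.mono h, hγ⟩

theorem tile_inv {m : ℤ} {R : ℕ} {g : Gam hX} (hg : g ∈ tile hX m R) :
    ∃ R', g⁻¹ ∈ tile hX (-m) R' := by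
  obtain ⟨c, c', hc, hc', hg⟩ := hg
  refine ⟨R + (-m).natAbs, (fun x => c (shift (-m) x))⁻¹, (fun x => c' (shift (-m) x))⁻¹,
    (hc.comp_shift (-m) ?_).inv, (hc'.comp_shift (-m) ?_).inv, ?_⟩
  · push_cast; exact le_refl _
  · push_cast; exact le_refl _
  rw [Subgroup.coe_inv, hg, Prod.inv_mk, ofAdd_neg]
  congr 1
  have h1 := phi_conj_loc hX (-m) (c, c')
  rw [neg_neg] at h1
  have h3 : ((fun x => c (shift (-m) x))⁻¹, (fun x => c' (shift (-m) x))⁻¹) =
      ((fun x => c (shift (-m) x)), (fun x => c' (shift (-m) x)))⁻¹ := rfl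
  have h4 : phi hX (-m) = (phi hX m)⁻¹ := by
    rw [eq_inv_iff_mul_eq_one, phi_mul, neg_add_cancel, phi_zero]
  rw [h3, map_inv, ← h1, h4]
  group

/-- Every element of the group belongs to some tile. -/
theorem exists_tile (g : Gam hX) :
    ∃ R, g ∈ tile hX (Multiplicative.toAdd (g : Big X).2) R := by
  obtain ⟨g, hg⟩ := g
  refine Subgroup.closure_induction (p := fun (g : Big X) (hg : g ∈ Gam hX) =>
    ∃ R, (⟨g, hg⟩ : Gam hX) ∈ tile hX (Multiplicative.toAdd g.2) R) ?_ ?_ ?_ ?_ hg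
  · rintro x ⟨s, rfl⟩
    refine ⟨0, ?_⟩
    rcases s with s | ⟨j, σ⟩ | j
    · refine ⟨1, 1, fun x y _ => rfl, fun x y _ => rfl, ?_⟩
      change (phi hX 1, Multiplicative.ofAdd (1 : ℤ)) = (phi hX 1 * loc X 1, Multiplicative.ofAdd 1)
      rw [(loc X).map_one, mul_one]
    · refine ⟨ee 0 j σ, 1, ?_, fun x y _ => rfl, ?_⟩
      · intro x y hxy
        unfold ee
        rw [hxy 0 (by simp)]
      · change (loc X (ee 0 j σ, 1), (1 : Multiplicative ℤ)) =
          (phi hX 0 * loc X (ee 0 j σ, 1), Multiplicative.ofAdd 0)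
        rw [phi_zero, one_mul]
        rfl
    · refine ⟨1, ee' 0 j, fun x y _ => rfl, ?_, ?_⟩
      · intro x y hxy
        unfold ee'
        rw [hxy 0 (by simp)]
      · change (loc X (1, ee' 0 j), (1 : Multiplicative ℤ)) =
          (phi hX 0 * loc X (1, ee' 0 j), Multiplicative.ofAdd 0)
        rw [phi_zero, one_mul]
        rfl
  · exact ⟨0, one_mem_tile hX 0⟩
  · rintro x y hx hy ⟨R, hR⟩ ⟨R', hR'⟩
    refine ⟨R + (Multiplicative.toAdd y.2).natAbs + R', ?_⟩
    refine tile_mul hX hR (tile_mono hX (by omega) hR') ?_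
    push_cast
    omega
  · rintro x hx ⟨R, hR⟩
    exact tile_inv hX hR

theorem tile_eq_image (k : ℤ) (R : ℕ) :
    tile hX k R = (fun γ => gT hX ^ k * γ) '' tile hX 0 R := by
  have hT : gT hX ^ k ∈ tile hX k 0 := by
    refine ⟨1, 1, fun x y _ => rfl, fun x y _ => rfl, ?_⟩
    rw [gT_zpow]
    change _ = (phi hX k * loc X 1, Multiplicative.ofAdd k)
    rw [map_one, mul_one]
  ext γ
  constructor
  · rintro ⟨c, c', hc, hc', hγ⟩
    refine ⟨gT hX ^ (-k) * γ, ⟨c, c', hc, hc', ?_⟩, ?_⟩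
    · rw [Subgroup.coe_mul, gT_zpow, hγ, Prod.mk_mul_mk, ← mul_assoc, phi_mul, ← ofAdd_add,
        neg_add_cancel]
    · change gT hX ^ k * (gT hX ^ (-k) * γ) = γ
      group
  · rintro ⟨δ, hδ, rfl⟩
    have := tile_mul hX hT hδ (by simp)
    rwa [add_zero] at this

open Classical in
/-- The tile as a finite set. -/
noncomputable def tileF (k : ℤ) (R : ℕ) : Finset (Gam hX) := (tile_finite hX k R).toFinset

theorem mem_tileF {k : ℤ} {R : ℕ} {γ : Gam hX} : γ ∈ tileF hX k R ↔ γ ∈ tile hX k R := by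
  simp [tileF]

theorem card_tileF (k : ℤ) (R : ℕ) : (tileF hX k R).card = (tileF hX 0 R).card := by
  classical
  have h1 : tileF hX k R = (tileF hX 0 R).image (fun γ => gT hX ^ k * γ) := by
    ext γ
    rw [mem_tileF, tile_eq_image, Finset.mem_image]
    constructor
    · rintro ⟨δ, hδ, rfl⟩
      exact ⟨δ, (mem_tileF hX).2 hδ, rfl⟩
    · rintro ⟨δ, hδ, rfl⟩
      exact ⟨δ, (mem_tileF hX).1 hδ, rfl⟩
  rw [h1]
  exact Finset.card_image_of_injective _ (mul_right_injective _)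

open Classical in
/-- The Følner sets. -/
noncomputable def fol (L R : ℕ) : Finset (Gam hX) :=
  (Finset.range L).biUnion (fun k => tileF hX (k : ℤ) R)

theorem tileF_disjoint {k l : ℤ} (h : k ≠ l) (R R' : ℕ) :
    Disjoint (tileF hX k R) (tileF hX l R') := by
  rw [Finset.disjoint_left]
  intro γ h1 h2
  obtain ⟨c, c', _, _, e1⟩ := (mem_tileF hX).1 h1
  obtain ⟨d, d', _, _, e2⟩ := (mem_tileF hX).1 h2
  rw [e1] at e2
  have := congrArg Prod.snd e2
  exact h (Multiplicative.ofAdd.injective this)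

theorem card_fol (L R : ℕ) : (fol hX L R).card = L * (tileF hX 0 R).card := by
  classical
  unfold fol
  rw [Finset.card_biUnion]
  · have h1 : ∀ k ∈ Finset.range L, (tileF hX (k : ℤ) R).card = (tileF hX 0 R).card :=
      fun k _ => card_tileF hX (k : ℤ) R
    rw [Finset.sum_congr rfl h1]
    simp
  · intro k _ l _ hkl
    exact tileF_disjoint hX (by exact_mod_cast hkl) R R

theorem card_tileF_pos (R : ℕ) : 0 < (tileF hX 0 R).card :=
  Finset.card_pos.2 ⟨1, (mem_tileF hX).2 (one_mem_tile hX R)⟩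

theorem card_bad_range (m : ℤ) (L : ℕ) :
    ((Finset.range L).filter (fun k : ℕ => ¬ (0 ≤ m + k ∧ m + k < L))).card ≤ m.natAbs := by
  rcases le_total 0 m with hm | hm
  · have hsub : (Finset.range L).filter (fun k : ℕ => ¬ (0 ≤ m + k ∧ m + k < L)) ⊆
        Finset.Ico (L - m.natAbs) L := by
      intro k hk
      rw [Finset.mem_filter, Finset.mem_range] at hk
      rw [Finset.mem_Ico]
      omega
    refine (Finset.card_le_card hsub).trans ?_
    rw [Nat.card_Ico]; omega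
  · have hsub : (Finset.range L).filter (fun k : ℕ => ¬ (0 ≤ m + k ∧ m + k < L)) ⊆
        Finset.range m.natAbs := by
      intro k hk
      rw [Finset.mem_filter, Finset.mem_range] at hk
      rw [Finset.mem_range]
      omega
    refine (Finset.card_le_card hsub).trans ?_
    simp

theorem folner_bound {m : ℤ} {R₀ L R : ℕ} {g : Gam hX} (hg : g ∈ tile hX m R₀)
    (hR : R₀ + L ≤ R) :
    (((fun x => g * x) '' (fol hX L R : Set (Gam hX))) \ (fol hX L R : Set (Gam hX))).ncard ≤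
      m.natAbs * (tileF hX 0 R).card := by
  classical
  have hsub : ((fun x => g * x) '' (fol hX L R : Set (Gam hX))) \ (fol hX L R : Set (Gam hX)) ⊆
      ((((Finset.range L).filter (fun k : ℕ => ¬ (0 ≤ m + k ∧ m + k < L))).biUnion
        (fun k => tileF hX (k : ℤ) R)).image (fun x => g * x) : Finset (Gam hX)) := by
    rintro _ ⟨⟨γ, hγ, rfl⟩, hn⟩
    rw [Finset.mem_coe] at hγ
    unfold fol at hγ
    rw [Finset.mem_biUnion] at hγ
    obtain ⟨k, hk, hγk⟩ := hγ
    rw [Finset.mem_range] at hk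
    rw [Finset.mem_coe, Finset.mem_image]
    refine ⟨γ, ?_, rfl⟩
    rw [Finset.mem_biUnion]
    refine ⟨k, ?_, hγk⟩
    rw [Finset.mem_filter, Finset.mem_range]
    refine ⟨hk, fun hcon => hn ?_⟩
    have h1 := tile_mul hX hg ((mem_tileF hX).1 hγk) (by
      rw [Nat.abs_cast]; omega)
    rw [Finset.mem_coe]
    unfold fol
    rw [Finset.mem_biUnion]
    refine ⟨(m + k).toNat, ?_, ?_⟩
    · rw [Finset.mem_range]; omega
    · rw [mem_tileF, Int.toNat_of_nonneg hcon.1]
      exact h1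
  refine (Set.ncard_le_ncard hsub (Finset.finite_toSet _)).trans ?_
  rw [Set.ncard_coe_finset]
  refine Finset.card_image_le.trans (Finset.card_biUnion_le.trans ?_)
  have h1 : ∀ k ∈ (Finset.range L).filter (fun k : ℕ => ¬ (0 ≤ m + k ∧ m + k < L)),
      (tileF hX (k : ℤ) R).card = (tileF hX 0 R).card := fun k _ => card_tileF hX (k : ℤ) R
  rw [Finset.sum_congr rfl h1, Finset.sum_const, smul_eq_mul]
  exact Nat.mul_le_mul_right _ (card_bad_range m L)

/-- The group has Følner sets. -/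
theorem gam_folner (F : Finset (Gam hX)) (ε : ℝ) (hε : 0 < ε) :
    ∃ S : Finset (Gam hX), S.Nonempty ∧ ∀ g ∈ F,
      ((((fun x => g * x) '' (S : Set (Gam hX))) \ (S : Set (Gam hX))).ncard : ℝ) <
        ε * (S.card : ℝ) := by
  classical
  choose R hR using exists_tile hX
  obtain ⟨R₀, hR₀⟩ : ∃ R₀ : ℕ, ∀ g ∈ F, R g ≤ R₀ :=
    ⟨F.sup R, fun g hg => Finset.le_sup hg⟩
  obtain ⟨m₀, hm₀⟩ : ∃ m₀ : ℕ, ∀ g ∈ F, (Multiplicative.toAdd (g : Big X).2).natAbs ≤ m₀ :=
    ⟨F.sup (fun g => (Multiplicative.toAdd (g : Big X).2).natAbs),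
      fun g hg => Finset.le_sup (f := fun g : Gam hX => (Multiplicative.toAdd (g : Big X).2).natAbs) hg⟩
  obtain ⟨L, hL⟩ := exists_nat_gt ((m₀ : ℝ) / ε)
  have hL0 : 0 < L := by
    have : (0 : ℝ) ≤ m₀ / ε := by positivity
    exact_mod_cast this.trans_lt hL
  have ht := card_tileF_pos hX (R₀ + L)
  refine ⟨fol hX L (R₀ + L), ?_, fun g hg => ?_⟩
  · rw [← Finset.card_pos, card_fol]
    positivity
  · have h1 := folner_bound hX (tile_mono hX (hR₀ g hg) (hR g)) (le_refl (R₀ + L))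
    have h2 : (Multiplicative.toAdd (g : Big X).2).natAbs * (tileF hX 0 (R₀ + L)).card ≤
        m₀ * (tileF hX 0 (R₀ + L)).card := Nat.mul_le_mul_right _ (hm₀ g hg)
    have h3 : ((((fun x => g * x) '' (fol hX L (R₀ + L) : Set (Gam hX))) \
        (fol hX L (R₀ + L) : Set (Gam hX))).ncard : ℝ) ≤ m₀ * (tileF hX 0 (R₀ + L)).card := by
      exact_mod_cast h1.trans h2
    refine h3.trans_lt ?_
    rw [card_fol]
    push_cast
    have ht' : (0 : ℝ) < (tileF hX 0 (R₀ + L)).card := by exact_mod_cast ht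
    rw [div_lt_iff₀ hε] at hL
    nlinarith

end Pool.Agent.H48
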