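import Mathlib

/-!
# A consequence of the mean ergodic theorem
-/

namespace Pool.Agent.H48

open MeasureTheory Set Filter Topology

/-- For an ergodic transformation `S`, if `B \ S⁻ˡ B` has measure at most `δ` for all `l`, then
`ν B * (1 - ν B) ≤ δ`. -/
theorem erg_var_le {Ω : Type} [MeasurableSpace Ω] (ν : Measure Ω) [IsProbabilityMeasure ν]
    (S : Ω → Ω) (hS : Ergodic S ν) (B : Set Ω) (hB : MeasurableSet B) (δ : ℝ)
    (h : ∀ l : ℕ, ν.real (B ∩ (S^[l]) ⁻¹' Bᶜ) ≤ δ) : ν.real B * (1 - ν.real B) ≤ δ := by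
  have hmp : MeasurePreserving S ν ν := hS.toMeasurePreserving
  set f : Lp ℝ 2 ν := indicatorConstLp 2 hB (measure_ne_top ν B) (1 : ℝ) with hf
  set one : Lp ℝ 2 ν := indicatorConstLp 2 MeasurableSet.univ (measure_ne_top ν univ) (1 : ℝ)
    with hone
  set V : Lp ℝ 2 ν →L[ℝ] Lp ℝ 2 ν :=
    (Lp.compMeasurePreservingₗᵢ ℝ S hmp).toContinuousLinearMap with hV
  have hVapp : ∀ g : Lp ℝ 2 ν, V g = Lp.compMeasurePreserving S hmp g := fun g => rfl
  have hVn : ‖V‖ ≤ 1 := LinearIsometry.norm_toContinuousLinearMap_le _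
  obtain ⟨g, hgfix, hlim'⟩ : ∃ g : Lp ℝ 2 ν, V g = g ∧
      Tendsto (fun N => birkhoffAverage ℝ V _root_.id N f) atTop (𝓝 g) :=
    ⟨_, ((V.eqLocus (1 : Lp ℝ 2 ν →L[ℝ] Lp ℝ 2 ν)).orthogonalProjectionOnto f).2,
      V.tendsto_birkhoffAverage_orthogonalProjection hVn f⟩
  obtain ⟨c, hc⟩ := hS.eq_const_of_compMeasurePreserving_eq (g := (g : Ω →ₘ[ν] ℝ)) (by
    have := congrArg (fun u : Lp ℝ 2 ν => (u : Ω →ₘ[ν] ℝ)) hgfix
    exact this)
  have hgc : (g : Ω → ℝ) =ᵐ[ν] fun _ => c := by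
    have h1 : (g : Ω →ₘ[ν] ℝ) = AEEqFun.const Ω c := hc
    have h2 := AEEqFun.coeFn_const (μ := ν) Ω c
    change ((g : Ω →ₘ[ν] ℝ) : Ω → ℝ) =ᵐ[ν] fun _ => c
    rw [h1]
    exact h2
  -- the iterates
  have hiter : ∀ n : ℕ, (V : Lp ℝ 2 ν → Lp ℝ 2 ν)^[n] f =
      indicatorConstLp 2 (hB.preimage (hmp.iterate n).measurable)
        (measure_ne_top ν _) (1 : ℝ) := by
    intro n
    have h1 : (V : Lp ℝ 2 ν → Lp ℝ 2 ν) = Lp.compMeasurePreserving S hmp := rfl
    rw [h1, Lp.compMeasurePreserving_iterate hmp n, hf,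
      Lp.indicatorConstLp_compMeasurePreserving hB (measure_ne_top ν B) (1 : ℝ) (hmp.iterate n)]
  have hinner : ∀ (A : Set Ω) (hA : MeasurableSet A) (n : ℕ),
      inner ℝ (indicatorConstLp 2 hA (measure_ne_top ν A) (1 : ℝ)) ((V : Lp ℝ 2 ν → Lp ℝ 2 ν)^[n] f)
        = ν.real (A ∩ (S^[n]) ⁻¹' B) := by
    intro A hA n
    rw [hiter n]
    exact L2.real_inner_indicatorConstLp_one_indicatorConstLp_one _ _ _ _
  have hlimA : ∀ (A : Set Ω) (hA : MeasurableSet A), Tendsto
      (fun N : ℕ => (N : ℝ)⁻¹ * ∑ n ∈ Finset.range N, ν.real (A ∩ (S^[n]) ⁻¹' B)) atTop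
      (𝓝 (inner ℝ (indicatorConstLp 2 hA (measure_ne_top ν A) (1 : ℝ)) g)) := by
    intro A hA
    have h1 : Continuous (fun u : Lp ℝ 2 ν =>
        inner ℝ (indicatorConstLp 2 hA (measure_ne_top ν A) (1 : ℝ)) u) := by fun_prop
    have h2 := (h1.tendsto g).comp hlim'
    refine h2.congr fun N => ?_
    change inner ℝ _ (birkhoffAverage ℝ V _root_.id N f) = _
    unfold birkhoffAverage birkhoffSum
    rw [real_inner_smul_right, inner_sum]
    congr 1
    apply Finset.sum_congr rfl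
    intro n _
    exact hinner A hA n
  have hval : ∀ (A : Set Ω) (hA : MeasurableSet A),
      inner ℝ (indicatorConstLp 2 hA (measure_ne_top ν A) (1 : ℝ)) g = c * ν.real A := by
    intro A hA
    rw [L2.inner_indicatorConstLp_one]
    rw [setIntegral_congr_ae hA (hgc.mono fun x hx _ => hx)]
    simp [mul_comm]
  -- the constant is the measure of `B`
  have hc1 : c = ν.real B := by
    have h1 := hlimA univ MeasurableSet.univ
    rw [hval univ MeasurableSet.univ] at h1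
    have h2 : Tendsto (fun N : ℕ => (N : ℝ)⁻¹ * ∑ n ∈ Finset.range N,
        ν.real (univ ∩ (S^[n]) ⁻¹' B)) atTop (𝓝 (ν.real B)) := by
      refine tendsto_const_nhds.congr' ?_
      filter_upwards [eventually_gt_atTop 0] with N hN
      have h3 : ∀ n ∈ Finset.range N, ν.real (univ ∩ (S^[n]) ⁻¹' B) = ν.real B := by
        intro n _
        rw [univ_inter]
        exact congrArg ENNReal.toReal ((hmp.iterate n).measure_preimage hB.nullMeasurableSet)
      rw [Finset.sum_congr rfl h3, Finset.sum_const, Finset.card_range, nsmul_eq_mul]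
      field_simp
    have h3 := tendsto_nhds_unique h1 h2
    simpa using h3
  have h1 := hlimA B hB
  rw [hval B hB, hc1] at h1
  have h2 : ν.real B - δ ≤ ν.real B * ν.real B := by
    refine ge_of_tendsto h1 ?_
    filter_upwards [eventually_gt_atTop 0] with N hN
    have h3 : ∀ n ∈ Finset.range N, ν.real B - δ ≤ ν.real (B ∩ (S^[n]) ⁻¹' B) := by
      intro n _
      have h4 : ν.real (B ∩ (S^[n]) ⁻¹' B) + ν.real (B \ (S^[n]) ⁻¹' B) = ν.real B :=
        measureReal_inter_add_sdiff (hB.preimage (hmp.iterate n).measurable)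
      have h5 : B \ (S^[n]) ⁻¹' B = B ∩ (S^[n]) ⁻¹' Bᶜ := by
        rw [preimage_compl, sdiff_eq]
      rw [h5] at h4
      have := h n
      linarith
    have h4 := Finset.sum_le_sum h3
    rw [Finset.sum_const, Finset.card_range, nsmul_eq_mul] at h4
    have hN' : (0 : ℝ) < N := by exact_mod_cast hN
    rw [inv_mul_eq_div, le_div_iff₀ hN']
    linarith
  linarith

end Pool.Agent.H48
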