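import Mathlib
import Pool.Agent.H48.Claim
import Pool.Agent.H48.Factor
import Pool.Agent.H48.Folner
import Pool.Agent.H48.Average
import Pool.Agent.H48.Met

/-!
# Actions close to the natural one have a non-closed set of ergodic measures
-/

namespace Pool.Agent.H48

open MeasureTheory Set Filter Topology

/-- The `MulAction` given by a homomorphism into the self-maps. -/
@[reducible] def actOf {Γ : Type} [Group Γ] (a : Γ → C(ℕ → Bool, ℕ → Bool))
    (h1 : a 1 = ContinuousMap.id (ℕ → Bool)) (hmul : ∀ g h : Γ, a (g * h) = (a g).comp (a h)) :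
    MulAction Γ (ℕ → Bool) where
  smul g y := a g y
  one_smul y := by change a 1 y = y; rw [h1]; rfl
  mul_smul g h y := by change a (g * h) y = a g (a h y); rw [hmul]; rfl

theorem isClopen_isLoc {R : ℕ} {P : (ℤ → Bool) → Prop} (h : IsLoc R P) : IsClopen {x | P x} := by
  have hopen : ∀ Q : (ℤ → Bool) → Prop, IsLoc R Q → IsOpen {x | Q x} := by
    intro Q hQ
    rw [isOpen_iff_forall_mem_open]
    intro x hx
    refine ⟨⋂ i ∈ Finset.Icc (-(R : ℤ)) R, {y : ℤ → Bool | y i = x i}, ?_, ?_, ?_⟩
    · intro y hy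
      have : Q y = Q x := by
        apply hQ
        intro i hi
        have h1 := mem_iInter₂.1 hy i (by rw [Finset.mem_Icc]; exact abs_le.1 hi)
        exact h1
      change Q y
      rw [this]
      exact hx
    · refine isOpen_biInter_finset fun i _ => ?_
      exact (isOpen_discrete {b : Bool | b = x i}).preimage
        (continuous_apply (A := fun _ : ℤ => Bool) i)
    · exact mem_iInter₂.2 fun i _ => rfl
  refine ⟨?_, hopen P h⟩
  rw [← isOpen_compl_iff]
  have : {x | P x}ᶜ = {x | ¬ P x} := rfl
  rw [this]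
  apply hopen
  intro x y hxy
  change (¬ P x) = (¬ P y)
  rw [h x y hxy]

theorem good_isLoc (n H : ℕ) : IsLoc (H + n) (good n H) := by
  intro x y hxy
  unfold good
  have e1 : cc (fun i => x i = true) H = cc (fun i => y i = true) H := by
    apply cc_congr
    intro i hi
    rw [hxy i (by rw [Nat.abs_cast]; push_cast; omega)]
  have e2 : ∀ l ≤ n, cc (fun i => x i = true ∧ x (i + l) = false) H =
      cc (fun i => y i = true ∧ y (i + l) = false) H := by
    intro l hl
    apply cc_congr
    intro i hi
    rw [hxy i (by rw [Nat.abs_cast]; push_cast; omega),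
      hxy (i + l) (by rw [← Nat.cast_add, Nat.abs_cast]; push_cast; omega)]
  rw [e1]
  apply propext
  constructor
  · rintro ⟨h1, h2, h3⟩
    exact ⟨h1, h2, fun l hl => by rw [← e2 l hl]; exact h3 l hl⟩
  · rintro ⟨h1, h2, h3⟩
    exact ⟨h1, h2, fun l hl => by rw [e2 l hl]; exact h3 l hl⟩

/-- Bounding the measure of a set by the frequency of visits on a large set. -/
theorem meas_le {Y : Type} [MeasurableSpace Y] (μ : Measure Y) [IsProbabilityMeasure μ]
    (T : Y → Y) (hT : MeasurePreserving T μ μ) (E G : Set Y) (hE : MeasurableSet E)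
    (hG : MeasurableSet G) (H : ℕ) (hH : 0 < H) (c : ℝ) (hc : 0 ≤ c)
    (h : ∀ y ∈ G, (cc (fun k => T^[k] y ∈ E) H : ℝ) ≤ c * H) :
    μ.real E ≤ c + μ.real Gᶜ := by
  classical
  have hsum : ∀ y, (cc (fun k => T^[k] y ∈ E) H : ℝ) =
      ∑ k ∈ Finset.range H, ((T^[k]) ⁻¹' E).indicator (fun _ => (1 : ℝ)) y := by
    intro y
    unfold cc
    rw [Finset.card_filter]
    push_cast
    apply Finset.sum_congr rfl
    intro k _
    by_cases hk : T^[k] y ∈ E <;> simp [hk]
  have hmeas : ∀ k, MeasurableSet ((T^[k]) ⁻¹' E) := fun k =>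
    hE.preimage (hT.iterate k).measurable
  have hint : ∫ y, (cc (fun k => T^[k] y ∈ E) H : ℝ) ∂μ = H * μ.real E := by
    simp_rw [hsum]
    rw [integral_finsetSum]
    · have h1 : ∀ k ∈ Finset.range H,
          ∫ y, ((T^[k]) ⁻¹' E).indicator (fun _ => (1 : ℝ)) y ∂μ = μ.real E := by
        intro k _
        rw [integral_indicator_const _ (hmeas k)]
        have : μ.real ((T^[k]) ⁻¹' E) = μ.real E :=
          congrArg ENNReal.toReal ((hT.iterate k).measure_preimage hE.nullMeasurableSet)
        rw [this]; simp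
      rw [Finset.sum_congr rfl h1]
      simp
    · intro k _
      exact (integrable_const (1 : ℝ)).indicator (hmeas k)
  have hle : ∫ y, (cc (fun k => T^[k] y ∈ E) H : ℝ) ∂μ ≤
      ∫ y, (c * H + Gᶜ.indicator (fun _ => (H : ℝ)) y) ∂μ := by
    apply integral_mono
    · simp_rw [hsum]
      exact integrable_finsetSum _ fun k _ => (integrable_const (1 : ℝ)).indicator (hmeas k)
    · exact (integrable_const _).add ((integrable_const _).indicator hG.compl)
    · intro y
      by_cases hy : y ∈ G
      · have : Gᶜ.indicator (fun _ => (H : ℝ)) y = 0 := by simp [hy]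
        simp only [this, add_zero]
        exact h y hy
      · have : Gᶜ.indicator (fun _ => (H : ℝ)) y = H := by simp [hy]
        simp only [this]
        have h1 : (cc (fun k => T^[k] y ∈ E) H : ℝ) ≤ H := by exact_mod_cast cc_le _ _
        have h2 : 0 ≤ c * H := by positivity
        linarith
  rw [hint, integral_add (integrable_const _) ((integrable_const _).indicator hG.compl),
    integral_const, integral_indicator_const _ hG.compl] at hle
  simp only [smul_eq_mul, measureReal_def, measure_univ, ENNReal.toReal_one, one_mul] at hle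
  rw [measureReal_def, measureReal_def]
  have hH' : (0 : ℝ) < H := by exact_mod_cast hH
  nlinarith

section Main

variable {X : Set (ℤ → Bool)} (hX : ∀ x ∈ X, ∀ k, shift k x ∈ X)
  (a : Gam hX → C(ℕ → Bool, ℕ → Bool))
  (h1 : a 1 = ContinuousMap.id (ℕ → Bool)) (hmul : ∀ g h : Gam hX, a (g * h) = (a g).comp (a h))
  (i : (ℕ → Bool) → Bool) (f : (ℕ → Bool) → Fin 3) (f' : (ℕ → Bool) → Bool)

/-- The itinerary for an action given by a homomorphism. -/
def itn (y : ℕ → Bool) : ℤ → Bool := fun n => i (a (gT hX ^ n) y)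

theorem itn_eq : itn hX a i = @itin X hX (ℕ → Bool) (actOf a h1 hmul) i := rfl

theorem itn_smul (hcond : @Cond X hX (ℕ → Bool) (actOf a h1 hmul) i f f') (g : Gam hX)
    (y : ℕ → Bool) :
    itn hX a i (a g y) = shift (Multiplicative.toAdd (g : Big X).2) (itn hX a i y) :=
  @Cond.itin_smul X hX (ℕ → Bool) (actOf a h1 hmul) i f f' hcond g y

theorem itn_mem (hcond : @Cond X hX (ℕ → Bool) (actOf a h1 hmul) i f f') (hcl : IsClosed X)
    (y : ℕ → Bool) : itn hX a i y ∈ X :=
  @Cond.itin_mem X hX (ℕ → Bool) (actOf a h1 hmul) i f f' hcond hcl y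

theorem itn_continuous (hi : Continuous i) : Continuous (itn hX a i) :=
  continuous_pi fun n => hi.comp (a (gT hX ^ n)).continuous

/-- Invariant measures giving large mass to the good set. -/
theorem exists_inv_good (hcond : @Cond X hX (ℕ → Bool) (actOf a h1 hmul) i f f')
    (hcl : IsClosed X) (hi : Continuous i) (n H : ℕ)
    (hH : ∀ x ∈ X, ∀ L₀ : ℕ, ∃ L : ℕ, L₀ ≤ L ∧ ∃ k : ℤ,
      16 * cc (fun i => ¬ good n H (shift (k + i) x)) L ≤ L) :
    ∃ μ : ProbabilityMeasure (ℕ → Bool), Inv a μ ∧
      (15 / 16 : ℝ) ≤ (μ {y | good n H (itn hX a i y)} : ℝ) := by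
  classical
  set y₀ : ℕ → Bool := fun _ => false
  choose L hL k hk using fun j : ℕ => hH _ (itn_mem hX a h1 hmul i f f' hcond hcl y₀) (j + 1)
  let S : ℕ → Finset (Gam hX) := fun j => fol hX (L j) (L j + j)
  let y : ℕ → (ℕ → Bool) := fun j => a (gT hX ^ (k j)) y₀
  have hLpos : ∀ j, 0 < L j := fun j => by have := hL j; omega
  have hcard : ∀ j, (S j).card = L j * (tileF hX 0 (L j + j)).card := fun j => card_fol hX _ _
  have hne : ∀ j, (S j).Nonempty := by
    intro j
    rw [← Finset.card_pos, hcard]
    exact Nat.mul_pos (hLpos j) (card_tileF_pos hX _)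
  have hGcl : IsClopen {y : ℕ → Bool | good n H (itn hX a i y)} :=
    (isClopen_isLoc (good_isLoc n H)).preimage (itn_continuous hX a i hi)
  refine exists_inv_of_folner a hmul S hne ?_ y _ hGcl (15 / 16) ?_
  · intro g
    obtain ⟨R, hR⟩ := exists_tile hX g
    set m := Multiplicative.toAdd (g : Big X).2
    have hlim : Tendsto (fun j : ℕ => (m.natAbs : ℝ) / (j + 1 : ℝ)) atTop (𝓝 0) :=
      tendsto_const_div_atTop_nhds_zero_nat (m.natAbs : ℝ) |>.comp (tendsto_add_atTop_nat 1) |>.congr
        (fun j => by simp)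
    refine squeeze_zero' (Eventually.of_forall fun j => by positivity) ?_ hlim
    filter_upwards [eventually_ge_atTop R] with j hj
    have e1 := folner_bound hX hR (show R + L j ≤ L j + j by omega)
    have e2 : (0 : ℝ) < (tileF hX 0 (L j + j)).card := by
      exact_mod_cast card_tileF_pos hX _
    have e3 : (0 : ℝ) < L j := by exact_mod_cast hLpos j
    have e4 : ((j : ℝ) + 1) ≤ L j := by exact_mod_cast hL j
    change ((((fun x => g * x) '' (S j : Set (Gam hX))) \ (S j : Set (Gam hX))).ncard : ℝ)
      / (S j).card ≤ _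
    rw [hcard]
    push_cast
    rw [div_le_div_iff₀ (by positivity) (by positivity)]
    have e5 : ((((fun x => g * x) '' (S j : Set (Gam hX))) \ (S j : Set (Gam hX))).ncard : ℝ) ≤
        m.natAbs * (tileF hX 0 (L j + j)).card := by exact_mod_cast e1
    calc _ ≤ (m.natAbs * (tileF hX 0 (L j + j)).card : ℝ) * (j + 1) := by gcongr
      _ ≤ (m.natAbs * (tileF hX 0 (L j + j)).card : ℝ) * L j := by gcongr
      _ = _ := by ring
  · intro j
    rw [avg_real a _ _ _ _ hGcl.isOpen.measurableSet]
    have hpos : (0 : ℝ) < (S j).card := by exact_mod_cast Finset.card_pos.2 (hne j)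
    rw [le_div_iff₀ hpos]
    -- points of the orbit with bad itinerary
    have hit : ∀ γ : Gam hX, itn hX a i (a γ (y j)) =
        shift (Multiplicative.toAdd (γ : Big X).2 + k j) (itn hX a i y₀) := by
      intro γ
      rw [itn_smul hX a h1 hmul i f f' hcond, itn_smul hX a h1 hmul i f f' hcond, shift_shift,
        gT_zpow]
      rfl
    have hbad : cnt (S j) (fun γ => ¬ a γ (y j) ∈ {y : ℕ → Bool | good n H (itn hX a i y)}) ≤
        cc (fun i' => ¬ good n H (shift (k j + i') (itn hX a i y₀))) (L j) *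
          (tileF hX 0 (L j + j)).card := by
      unfold cnt cc
      have hsub : (S j).filter (fun γ => ¬ a γ (y j) ∈ {y : ℕ → Bool | good n H (itn hX a i y)}) ⊆
          ((Finset.range (L j)).filter (fun i' : ℕ => ¬ good n H (shift (k j + i')
            (itn hX a i y₀)))).biUnion (fun k' => tileF hX (k' : ℤ) (L j + j)) := by
        intro γ hγ
        rw [Finset.mem_filter] at hγ
        obtain ⟨hγ1, hγ2⟩ := hγ
        change γ ∈ (Finset.range (L j)).biUnion (fun k => tileF hX (k : ℤ) (L j + j)) at hγ1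
        rw [Finset.mem_biUnion] at hγ1 ⊢
        obtain ⟨k', hk', hγk⟩ := hγ1
        refine ⟨k', ?_, hγk⟩
        rw [Finset.mem_filter]
        refine ⟨hk', fun hgood => hγ2 ?_⟩
        change good n H (itn hX a i (a γ (y j)))
        rw [hit]
        obtain ⟨c, c', _, _, hc⟩ := (mem_tileF hX).1 hγk
        have : Multiplicative.toAdd (γ : Big X).2 = (k' : ℤ) := by rw [hc]; rfl
        rw [this, add_comm]
        exact hgood
      have h2 := (Finset.card_le_card hsub).trans Finset.card_biUnion_le
      have h3 : ∀ k' ∈ (Finset.range (L j)).filter (fun i' : ℕ => ¬ good n H (shift (k j + i')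
            (itn hX a i y₀))), (tileF hX (k' : ℤ) (L j + j)).card =
              (tileF hX 0 (L j + j)).card := fun k' _ => card_tileF hX (k' : ℤ) (L j + j)
      rw [Finset.sum_congr rfl h3, Finset.sum_const, smul_eq_mul] at h2
      refine le_trans (le_of_eq ?_) (le_trans h2 (le_of_eq ?_))
      · congr
      · congr
    have hnot := cnt_not (S j) (fun γ => a γ (y j) ∈ {y : ℕ → Bool | good n H (itn hX a i y)})
    have hk' := hk j
    have e1 : 16 * cnt (S j) (fun γ => ¬ a γ (y j) ∈ {y : ℕ → Bool | good n H (itn hX a i y)}) ≤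
        (S j).card := by
      rw [hcard]
      calc _ ≤ 16 * (cc (fun i' => ¬ good n H (shift (k j + i') (itn hX a i y₀))) (L j) *
          (tileF hX 0 (L j + j)).card) := Nat.mul_le_mul_left _ hbad
        _ = 16 * cc (fun i' => ¬ good n H (shift (k j + i') (itn hX a i y₀))) (L j) *
          (tileF hX 0 (L j + j)).card := by ring
        _ ≤ _ := Nat.mul_le_mul_right _ hk'
    have e2 : 15 * (S j).card ≤
        16 * cnt (S j) (fun γ => a γ (y j) ∈ {y : ℕ → Bool | good n H (itn hX a i y)}) := by
      omega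
    have e3 : (15 : ℝ) * (S j).card ≤
        16 * cnt (S j) (fun γ => a γ (y j) ∈ {y : ℕ → Bool | good n H (itn hX a i y)}) := by
      exact_mod_cast e2
    linarith

end Main

end Pool.Agent.H48
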