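import Mathlib
import Pool.Agent.H48.Contra

/-!
# The set of ergodic measures is not closed
-/

namespace Pool.Agent.H48

open MeasureTheory Set Filter Topology

theorem ergodic_push {X : Set (ℤ → Bool)} (hX : ∀ x ∈ X, ∀ k, shift k x ∈ X)
    (a : Gam hX → C(ℕ → Bool, ℕ → Bool))
    (h1 : a 1 = ContinuousMap.id (ℕ → Bool)) (hmul : ∀ g h : Gam hX, a (g * h) = (a g).comp (a h))
    (i : (ℕ → Bool) → Bool) (f : (ℕ → Bool) → Fin 3) (f' : (ℕ → Bool) → Bool)
    (hcond : @Cond X hX (ℕ → Bool) (actOf a h1 hmul) i f f') (hi : Continuous i)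
    (μ : ProbabilityMeasure (ℕ → Bool)) (hinv : Inv a μ) (herg : Erg a μ) :
    Ergodic (shift 1) ((μ : Measure (ℕ → Bool)).map (itn hX a i)) := by
  have hmeas : Measurable (itn hX a i) := (itn_continuous hX a i hi).measurable
  have hsh : Measurable (shift 1) := (continuous_shift 1).measurable
  have hT : ∀ y, itn hX a i (a (gT hX) y) = shift 1 (itn hX a i y) := by
    intro y
    have := itn_smul hX a h1 hmul i f f' hcond (gT hX) y
    rw [this]
    rfl
  refine ⟨⟨hsh, ?_⟩, ⟨fun s hs hinvs => ?_⟩⟩
  · rw [Measure.map_map hsh hmeas]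
    have : shift 1 ∘ itn hX a i = itn hX a i ∘ (a (gT hX)) := by
      funext y; exact (hT y).symm
    rw [this, ← Measure.map_map hmeas (a (gT hX)).continuous.measurable, hinv (gT hX)]
  · -- `s` is invariant under all shifts
    have hs1 : ∀ x, shift 1 x ∈ s ↔ x ∈ s := by
      intro x
      have := congrArg (fun t => x ∈ t) hinvs
      exact iff_of_eq this
    have hsn : ∀ (n : ℕ) (x : ℤ → Bool), shift n x ∈ s ↔ x ∈ s := by
      intro n
      induction n with
      | zero => intro x; rw [Nat.cast_zero, shift_zero]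
      | succ n ih =>
        intro x
        have : shift ((n + 1 : ℕ) : ℤ) x = shift 1 (shift n x) := by
          rw [shift_shift]; push_cast; rw [add_comm]
        rw [this, hs1, ih]
    have hsz : ∀ (k : ℤ) (x : ℤ → Bool), shift k x ∈ s ↔ x ∈ s := by
      intro k x
      obtain ⟨m, rfl | rfl⟩ := k.eq_nat_or_neg
      · exact hsn m x
      · rw [← hsn m (shift (-(m : ℤ)) x), shift_shift, add_neg_cancel, shift_zero]
    have h2 : ∀ g : Gam hX, ⇑(a g) ⁻¹' (itn hX a i ⁻¹' s) = itn hX a i ⁻¹' s := by
      intro g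
      ext y
      change itn hX a i (a g y) ∈ s ↔ itn hX a i y ∈ s
      rw [itn_smul hX a h1 hmul i f f' hcond, hsz]
    have h3 := herg _ (hs.preimage hmeas) h2
    rw [Filter.eventuallyConst_set']
    rcases h3 with h3 | h3
    · left
      rw [ae_eq_empty, Measure.map_apply hmeas hs]
      exact h3
    · right
      have hp : IsProbabilityMeasure ((μ : Measure (ℕ → Bool)).map (itn hX a i)) :=
        Measure.isProbabilityMeasure_map hmeas.aemeasurable
      rw [ae_eq_univ, prob_compl_eq_zero_iff hs, Measure.map_apply hmeas hs]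
      exact h3

/-- Main contradiction: for actions close to the natural one the set of ergodic measures is not
closed. -/
theorem not_closed {X : Set (ℤ → Bool)} (hX : ∀ x ∈ X, ∀ k, shift k x ∈ X)
    (hcl : IsClosed X)
    (hC : ∀ n : ℕ, ∃ H : ℕ, 0 < H ∧ ∀ x ∈ X, ∀ L₀ : ℕ, ∃ L : ℕ, L₀ ≤ L ∧ ∃ k : ℤ,
      16 * cc (fun i => ¬ good n H (shift (k + i) x)) L ≤ L)
    (a : Gam hX → C(ℕ → Bool, ℕ → Bool))
    (h1 : a 1 = ContinuousMap.id (ℕ → Bool)) (hmul : ∀ g h : Gam hX, a (g * h) = (a g).comp (a h))
    (i : (ℕ → Bool) → Bool) (f : (ℕ → Bool) → Fin 3) (f' : (ℕ → Bool) → Bool)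
    (hcond : @Cond X hX (ℕ → Bool) (actOf a h1 hmul) i f f') (hi : Continuous i)
    (hclosed : IsClosed {ν : {μ : ProbabilityMeasure (ℕ → Bool) // Inv a μ} | Erg a ν.1}) :
    False := by
  choose H hH0 hH using hC
  have hex : ∀ n, ∃ μ : ProbabilityMeasure (ℕ → Bool), Inv a μ ∧ Erg a μ ∧
      (15 / 16 : ℝ) ≤ (μ {y | good n (H n) (itn hX a i y)} : ℝ) := by
    intro n
    obtain ⟨μ₀, hinv, hge⟩ := exists_inv_good hX a h1 hmul i f f' hcond hcl hi n (H n) (hH n)
    have hGcl : IsClopen {y : ℕ → Bool | good n (H n) (itn hX a i y)} :=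
      (isClopen_isLoc (good_isLoc n (H n))).preimage (itn_continuous hX a i hi)
    obtain ⟨μ, hinv', herg, hle⟩ := exists_erg_max a μ₀ hinv _ hGcl
    exact ⟨μ, hinv', herg, hge.trans (by exact_mod_cast hle)⟩
  choose μ hinv herg hμ using hex
  have hT : ∀ y, itn hX a i (a (gT hX) y) = shift 1 (itn hX a i y) := by
    intro y
    have := itn_smul hX a h1 hmul i f f' hcond (gT hX) y
    rw [this]
    rfl
  have hTi : ∀ (k : ℕ) y, itn hX a i ((a (gT hX))^[k] y) = shift k (itn hX a i y) := by
    intro k
    induction k with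
    | zero => intro y; simp [shift_zero]
    | succ k ih =>
      intro y
      rw [Function.iterate_succ_apply', hT, ih, shift_shift]
      push_cast
      rw [add_comm]
  have hi0 : ∀ y, i y = itn hX a i y 0 := by
    intro y
    unfold itn
    rw [zpow_zero, h1]
    rfl
  have hiT : ∀ (k : ℕ) y, i ((a (gT hX))^[k] y) = itn hX a i y k := by
    intro k y
    rw [hi0, hTi]
    unfold shift
    rw [zero_add]
  set A : Set (ℕ → Bool) := {y | i y = true} with hA
  have hAcl : IsClopen A := by
    have : A = i ⁻¹' {true} := rfl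
    rw [this]
    exact (isClopen_discrete _).preimage hi
  have hTcont : ∀ k : ℕ, Continuous ((a (gT hX))^[k]) := fun k =>
    (a (gT hX)).continuous.iterate k
  have hGm : ∀ n, MeasurableSet {y : ℕ → Bool | good n (H n) (itn hX a i y)} := fun n =>
    ((isClopen_isLoc (good_isLoc n (H n))).preimage (itn_continuous hX a i hi)).isOpen.measurableSet
  have hmp : ∀ n, MeasurePreserving (a (gT hX)) (μ n : Measure (ℕ → Bool)) (μ n) := fun n =>
    ⟨(a (gT hX)).continuous.measurable, hinv n (gT hX)⟩
  have hGc : ∀ n, (μ n : Measure (ℕ → Bool)).real {y | good n (H n) (itn hX a i y)}ᶜ ≤ 1 / 16 := by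
    intro n
    rw [probReal_compl_eq_one_sub (hGm n)]
    have : (μ n : Measure (ℕ → Bool)).real {y | good n (H n) (itn hX a i y)} =
      (μ n {y | good n (H n) (itn hX a i y)} : ℝ) := rfl
    rw [this]
    linarith [hμ n]
  -- the three estimates
  have est1 : ∀ n, (μ n A : ℝ) ≤ 11 / 16 := by
    intro n
    have := meas_le (μ n : Measure (ℕ → Bool)) (a (gT hX)) (hmp n) A _ hAcl.isOpen.measurableSet
      (hGm n) (H n) (hH0 n) (5 / 8) (by norm_num) (by
        intro y hy
        have h2 := hy.2.1
        have h3 : cc (fun k => (a (gT hX))^[k] y ∈ A) (H n) =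
            cc (fun k => itn hX a i y k = true) (H n) := by
          apply cc_congr
          intro k _
          change i _ = true ↔ _
          rw [hiT]
        rw [h3]
        have h4 : (8 : ℝ) * cc (fun k => itn hX a i y k = true) (H n) ≤ 5 * H n := by
          exact_mod_cast h2
        linarith)
    have h5 := hGc n
    have h6 : (μ n : Measure (ℕ → Bool)).real A = (μ n A : ℝ) := rfl
    rw [h6] at this
    linarith
  have est2 : ∀ n, (5 : ℝ) / 16 ≤ (μ n A : ℝ) := by
    intro n
    have := meas_le (μ n : Measure (ℕ → Bool)) (a (gT hX)) (hmp n) Aᶜ _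
      hAcl.compl.isOpen.measurableSet (hGm n) (H n) (hH0 n) (5 / 8) (by norm_num) (by
        intro y hy
        have h2 := hy.1
        have h3 : cc (fun k => (a (gT hX))^[k] y ∈ Aᶜ) (H n) +
            cc (fun k => itn hX a i y k = true) (H n) = H n := by
          have e1 : cc (fun k => (a (gT hX))^[k] y ∈ Aᶜ) (H n) =
            cc (fun k => ¬ itn hX a i y k = true) (H n) := by
            apply cc_congr
            intro k _
            change ¬ i _ = true ↔ _
            rw [hiT]
          rw [e1]
          classical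
          unfold cc
          have := Finset.card_filter_add_card_filter_not (s := Finset.range (H n))
            (fun k : ℕ => itn hX a i y k = true)
          rw [Finset.card_range] at this
          rw [add_comm]
          convert this
        have h4 : (3 : ℝ) * H n ≤ 8 * cc (fun k => itn hX a i y k = true) (H n) := by
          exact_mod_cast h2
        have h5 : (cc (fun k => (a (gT hX))^[k] y ∈ Aᶜ) (H n) : ℝ) +
            cc (fun k => itn hX a i y k = true) (H n) = H n := by exact_mod_cast h3
        linarith)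
    have h5 := hGc n
    rw [probReal_compl_eq_one_sub hAcl.isOpen.measurableSet] at this
    have h6 : (μ n : Measure (ℕ → Bool)).real A = (μ n A : ℝ) := rfl
    rw [h6] at this
    linarith
  have est3 : ∀ n l, l ≤ n → (μ n (A ∩ (a (gT hX))^[l] ⁻¹' Aᶜ) : ℝ) ≤ 1 / 8 := by
    intro n l hl
    have hEm : MeasurableSet (A ∩ (a (gT hX))^[l] ⁻¹' Aᶜ) :=
      hAcl.isOpen.measurableSet.inter
        (hAcl.compl.isOpen.measurableSet.preimage (hTcont l).measurable)
    have := meas_le (μ n : Measure (ℕ → Bool)) (a (gT hX)) (hmp n) _ _ hEm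
      (hGm n) (H n) (hH0 n) (1 / 16) (by norm_num) (by
        intro y hy
        have h2 := hy.2.2 l hl
        have h3 : cc (fun k => (a (gT hX))^[k] y ∈ A ∩ (a (gT hX))^[l] ⁻¹' Aᶜ) (H n) =
            cc (fun k => itn hX a i y k = true ∧ itn hX a i y (k + l) = false) (H n) := by
          apply cc_congr
          intro k _
          change (i _ = true ∧ ¬ i _ = true) ↔ _
          rw [← Function.iterate_add_apply, hiT, hiT, Bool.not_eq_true]
          push_cast
          rw [add_comm (l : ℤ) k]
        rw [h3]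
        have h4 : (16 : ℝ) * cc (fun k => itn hX a i y k = true ∧ itn hX a i y (k + l) = false)
            (H n) ≤ H n := by
          exact_mod_cast h2
        linarith)
    have h5 := hGc n
    have h6 : (μ n : Measure (ℕ → Bool)).real (A ∩ (a (gT hX))^[l] ⁻¹' Aᶜ) =
      (μ n (A ∩ (a (gT hX))^[l] ⁻¹' Aᶜ) : ℝ) := rfl
    rw [h6] at this
    linarith
  -- a limit measure
  obtain ⟨e, φ, hφ, hlim⟩ := CompactSpace.tendsto_subseq μ
  have heinv : Inv a e := (isClosed_inv a).mem_of_tendsto hlim
    (Eventually.of_forall fun j => hinv (φ j))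
  have hlim' : Tendsto (fun j => (⟨μ (φ j), hinv (φ j)⟩ : {μ : ProbabilityMeasure (ℕ → Bool) //
      Inv a μ})) atTop (𝓝 ⟨e, heinv⟩) := tendsto_subtype_rng.2 hlim
  have heerg : Erg a e := hclosed.mem_of_tendsto hlim' (Eventually.of_forall fun j => herg (φ j))
  have hcl' : ∀ B : Set (ℕ → Bool), IsClopen B → Tendsto (fun j => (μ (φ j) B : ℝ)) atTop
      (𝓝 (e B : ℝ)) := fun B hB =>
    (NNReal.continuous_coe.tendsto _).comp
      (ProbabilityMeasure.tendsto_measure_of_isClopen_of_tendsto hlim hB)
  have e1 : (e A : ℝ) ≤ 11 / 16 := le_of_tendsto' (hcl' A hAcl) fun j => est1 (φ j)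
  have e2 : (5 : ℝ) / 16 ≤ e A := ge_of_tendsto' (hcl' A hAcl) fun j => est2 (φ j)
  have e3 : ∀ l : ℕ, (e (A ∩ (a (gT hX))^[l] ⁻¹' Aᶜ) : ℝ) ≤ 1 / 8 := by
    intro l
    refine le_of_tendsto (hcl' _ (hAcl.inter (hAcl.compl.preimage (hTcont l)))) ?_
    filter_upwards [eventually_ge_atTop l] with j hj
    exact est3 (φ j) l (hj.trans hφ.le_apply)
  -- push forward
  have hmeas : Measurable (itn hX a i) := (itn_continuous hX a i hi).measurable
  have hp : IsProbabilityMeasure ((e : Measure (ℕ → Bool)).map (itn hX a i)) :=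
    Measure.isProbabilityMeasure_map hmeas.aemeasurable
  have hergodic := ergodic_push hX a h1 hmul i f f' hcond hi e heinv heerg
  set B : Set (ℤ → Bool) := {x | x 0 = true} with hB
  have hBm : MeasurableSet B :=
    (measurable_pi_apply (X := fun _ : ℤ => Bool) 0) (measurableSet_singleton true)
  have hpre : itn hX a i ⁻¹' B = A := by
    ext y
    change itn hX a i y 0 = true ↔ i y = true
    rw [hi0]
  have hshl : ∀ (l : ℕ) (x : ℤ → Bool), (shift 1)^[l] x = shift l x := by
    intro l
    induction l with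
    | zero => intro x; simp [shift_zero]
    | succ l ih =>
      intro x
      rw [Function.iterate_succ_apply', ih, shift_shift]
      push_cast
      rw [add_comm]
  have hreal : ∀ D : Set (ℤ → Bool), MeasurableSet D →
      ((e : Measure (ℕ → Bool)).map (itn hX a i)).real D = (e (itn hX a i ⁻¹' D) : ℝ) := by
    intro D hD
    rw [map_measureReal_apply hmeas hD]
    rfl
  have hvar := erg_var_le _ (shift 1) hergodic B hBm (1 / 8) (by
    intro l
    have hm : Measurable ((shift 1)^[l]) := (continuous_shift 1).measurable.iterate l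
    rw [hreal _ (hBm.inter (hBm.compl.preimage hm))]
    have : itn hX a i ⁻¹' (B ∩ (shift 1)^[l] ⁻¹' Bᶜ) = A ∩ (a (gT hX))^[l] ⁻¹' Aᶜ := by
      ext y
      change (itn hX a i y 0 = true ∧ ¬ (shift 1)^[l] (itn hX a i y) 0 = true) ↔
        (i y = true ∧ ¬ i ((a (gT hX))^[l] y) = true)
      rw [hshl, hiT, hi0]
      unfold shift
      rw [zero_add]
    rw [this]
    exact e3 l)
  rw [hreal B hBm, hpre] at hvar
  nlinarith

end Pool.Agent.H48
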