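import Mathlib
import Pool.Agent.H48.Cantor
import Pool.Agent.H48.Baire
import Pool.Agent.H48.Contra2

/-!
# The natural action and the open set around it
-/

namespace Pool.Agent.H48

open MeasureTheory Set Filter Topology TopologicalSpace Equiv

theorem no_isolated (w : ℕ → Bool) (V : Set (ℕ → Bool)) (hV : IsOpen V) (hw : w ∈ V) :
    ∃ w' ∈ V, w' ≠ w := by
  have hlim : Tendsto (fun n : ℕ => Function.update w n (!(w n))) atTop (𝓝 w) := by
    rw [tendsto_pi_nhds]
    intro k
    refine tendsto_const_nhds.congr' ?_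
    filter_upwards [eventually_gt_atTop k] with n hn
    rw [Function.update_of_ne (by omega)]
  obtain ⟨n, hn⟩ := (hlim.eventually (hV.mem_nhds hw)).exists
  refine ⟨_, hn, fun h => ?_⟩
  have := congrFun h n
  simp at this

/-- A compact totally disconnected second countable Hausdorff space times the Cantor space is
homeomorphic to the Cantor space. -/
theorem exists_homeo_prod (Z : Type) [TopologicalSpace Z] [CompactSpace Z] [T2Space Z]
    [TotallyDisconnectedSpace Z] [SecondCountableTopology Z] [Nonempty Z] :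
    Nonempty ((Z × (ℕ → Bool)) ≃ₜ (ℕ → Bool)) := by
  have : Countable (Clopens (Z × (ℕ → Bool))) :=
    TopologicalSpace.Clopens.countable_iff_secondCountable.2 inferInstance
  obtain ⟨e, he⟩ := exists_surjective_nat (Clopens (Z × (ℕ → Bool)))
  refine exists_homeo_cantor (fun n => (e n : Set (Z × (ℕ → Bool)))) (fun n => (e n).isClopen)
    ?_ ?_
  · intro x y hxy
    obtain ⟨U, hU, hxU, hyU⟩ := exists_isClopen_of_totally_separated hxy
    obtain ⟨n, hn⟩ := he ⟨U, hU⟩
    refine ⟨n, ?_, ?_⟩
    · rw [hn]; exact hxU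
    · rw [hn]; exact hyU
  · rintro U hU ⟨⟨z, w⟩, hzw⟩
    have hV : IsOpen {w' : ℕ → Bool | (z, w') ∈ U} := hU.preimage (by fun_prop)
    obtain ⟨w', hw', hne⟩ := no_isolated w _ hV hzw
    exact ⟨(z, w'), hw', (z, w), hzw, fun h => hne (congrArg Prod.snd h)⟩

section Nat

variable {X : Set (ℤ → Bool)} (hX : ∀ x ∈ X, ∀ k, shift k x ∈ X)

theorem phi_continuous (k : ℤ) : Continuous (phi hX k) := by
  refine Continuous.prodMk ?_ continuous_snd
  refine Continuous.subtype_mk ?_ _
  exact (continuous_shift k).comp (continuous_subtype_val.comp continuous_fst)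

theorem isLocallyConstant_isLoc {α : Type} {R : ℕ} {c : (ℤ → Bool) → α} (h : IsLoc R c) :
    IsLocallyConstant c := by
  intro s
  have : c ⁻¹' s = {x | c x ∈ s} := rfl
  rw [this]
  refine (isClopen_isLoc (R := R) (P := fun x => c x ∈ s) ?_).isOpen
  intro x y hxy
  change (c x ∈ s) = (c y ∈ s)
  rw [h x y hxy]

theorem loc_continuous {R : ℕ} {c : (ℤ → Bool) → Perm (Fin 3)} {c' : (ℤ → Bool) → Perm Bool}
    (h : IsLoc R c) (h' : IsLoc R c') : Continuous (loc X (c, c')) := by
  have e1 : IsLocallyConstant (fun p : Sp X => c p.1 p.2.1) := by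
    have h1 : IsLocallyConstant (fun p : Sp X => c p.1) :=
      (isLocallyConstant_isLoc h).comp_continuous (continuous_subtype_val.comp continuous_fst)
    have h2 : IsLocallyConstant (fun p : Sp X => p.2.1) :=
      (IsLocallyConstant.iff_continuous _).2 (by fun_prop)
    exact (h1.prodMk h2).comp (fun q => q.1 q.2)
  have e2 : IsLocallyConstant (fun p : Sp X => c' p.1 p.2.2) := by
    have h1 : IsLocallyConstant (fun p : Sp X => c' p.1) :=
      (isLocallyConstant_isLoc h').comp_continuous (continuous_subtype_val.comp continuous_fst)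
    have h2 : IsLocallyConstant (fun p : Sp X => p.2.2) :=
      (IsLocallyConstant.iff_continuous _).2 (by fun_prop)
    exact (h1.prodMk h2).comp (fun q => q.1 q.2)
  exact continuous_fst.prodMk (e1.continuous.prodMk e2.continuous)

theorem gam_continuous (g : Gam hX) : Continuous ((g : Big X).1 : Sp X → Sp X) := by
  obtain ⟨R, c, c', hc, hc', hg⟩ := exists_tile hX g
  rw [hg]
  exact (phi_continuous hX _).comp (loc_continuous hc hc')

/-- The natural action of the group on `Sp X × (ℕ → Bool)`, transported to the Cantor space. -/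
def natAct (h : (Sp X × (ℕ → Bool)) ≃ₜ (ℕ → Bool)) (g : Gam hX) : C(ℕ → Bool, ℕ → Bool) where
  toFun y := h ((g : Big X).1 (h.symm y).1, (h.symm y).2)
  continuous_toFun := by
    refine h.continuous.comp (Continuous.prodMk ?_ ?_)
    · exact (gam_continuous hX g).comp (continuous_fst.comp h.symm.continuous)
    · exact continuous_snd.comp h.symm.continuous

theorem natAct_one (h : (Sp X × (ℕ → Bool)) ≃ₜ (ℕ → Bool)) :
    natAct hX h 1 = ContinuousMap.id (ℕ → Bool) := by
  ext1 y
  change h ((1 : Perm (Sp X)) (h.symm y).1, (h.symm y).2) = y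
  rw [Perm.one_apply, Prod.mk.eta, Homeomorph.apply_symm_apply]

theorem natAct_mul (h : (Sp X × (ℕ → Bool)) ≃ₜ (ℕ → Bool)) (g g' : Gam hX) :
    natAct hX h (g * g') = (natAct hX h g).comp (natAct hX h g') := by
  ext1 y
  change h (((g : Big X).1 * (g' : Big X).1) (h.symm y).1, (h.symm y).2) =
    h ((g : Big X).1 (h.symm (h ((g' : Big X).1 (h.symm y).1, (h.symm y).2))).1,
      (h.symm (h ((g' : Big X).1 (h.symm y).1, (h.symm y).2))).2)
  rw [Homeomorph.symm_apply_apply, Perm.mul_apply]

end Nat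

/-- The finite set of labels. -/
abbrev Lab : Type := Bool × Fin 3 × Bool

/-- The relation imposed on labels by a generator. -/
def lrel : Unit ⊕ (Bool × Perm (Fin 3)) ⊕ Bool → Lab → Lab → Prop
  | Sum.inl _, q, q' => q'.2.1 = q.2.1 ∧ q'.2.2 = q.2.2
  | Sum.inr (Sum.inl (j, σ)), q, q' => q'.2.1 = (if q.1 = j then σ q.2.1 else q.2.1) ∧
      q'.2.2 = q.2.2
  | Sum.inr (Sum.inr j), q, q' => q'.2.1 = q.2.1 ∧ q'.2.2 = if q.1 = j then !q.2.2 else q.2.2

theorem isOpen_rel (P : (ℕ → Bool) → Lab) (hP : Continuous P) (R : Lab → Lab → Prop) :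
    IsOpen {g : C(ℕ → Bool, ℕ → Bool) | ∀ y, R (P y) (P (g y))} := by
  have : {g : C(ℕ → Bool, ℕ → Bool) | ∀ y, R (P y) (P (g y))} =
      ⋂ q : Lab, {g : C(ℕ → Bool, ℕ → Bool) | MapsTo g (P ⁻¹' {q}) (P ⁻¹' {q' | R q q'})} := by
    ext g
    rw [mem_iInter]
    constructor
    · rintro h q y rfl
      exact h y
    · intro h y
      exact h (P y) rfl
  rw [this]
  refine isOpen_iInter_of_finite fun q => ?_
  refine ContinuousMap.isOpen_setOfPred_mapsTo ?_ ?_
  · exact ((isClosed_discrete {q}).preimage hP).isCompact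
  · exact (isOpen_discrete _).preimage hP

end Pool.Agent.H48
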