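import Mathlib

/-!
# Pluripotential theory: the definitions used in the hand-in for MP_3df006_an
-/

set_option autoImplicit false

namespace Pool.Agent.H48.Psh

open MeasureTheory Filter Topology
open scoped ContDiff

/-- Complex Euclidean space of dimension `n`. -/
abbrev Cn (n : ℕ) : Type := EuclideanSpace ℂ (Fin n)

/-- Plurisubharmonic functions with values in `[-∞, ∞)` on an open set `D`: upper semicontinuous,
and `u a` is at most the mean of `u` over the boundary circle of each closed complex disc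
`{a + ζ b : |ζ| ≤ 1}` contained in `D`. The mean is written `M - (mean of M - u)`, where `M` is any
real upper bound of `u` on the circle, so that the value `-∞` is allowed. -/
structure IsPSH {n : ℕ} (D : Set (Cn n)) (u : Cn n → EReal) : Prop where
  ne_top : ∀ z ∈ D, u z ≠ ⊤
  usc : UpperSemicontinuousOn u D
  submean : ∀ a b : Cn n, (∀ ζ : ℂ, ‖ζ‖ ≤ 1 → a + ζ • b ∈ D) → ∀ M : ℝ,
    (∀ θ : ℝ, u (a + Complex.exp (θ * Complex.I) • b) ≤ M) →
      u a + (((∫⁻ θ in Set.Ioc 0 (2 * Real.pi),
        ((M : EReal) - u (a + Complex.exp (θ * Complex.I) • b)).toENNReal) /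
          ENNReal.ofReal (2 * Real.pi) : ENNReal) : EReal) ≤ M

/-- A pluripolar set: it is contained in the `-∞` set of a plurisubharmonic function on the whole
space which is not identically `-∞`. -/
def Pluripolar {n : ℕ} (E : Set (Cn n)) : Prop :=
  ∃ u : Cn n → EReal, IsPSH Set.univ u ∧ (∃ z, u z ≠ ⊥) ∧ ∀ z ∈ E, u z = ⊥

/-- A bounded hyperconvex domain: a nonempty connected bounded open set with a negative continuous
plurisubharmonic exhaustion function. -/
def IsBddHyperconvex {n : ℕ} (D : Set (Cn n)) : Prop :=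
  IsOpen D ∧ IsConnected D ∧ Bornology.IsBounded D ∧
    ∃ ρ : Cn n → ℝ, ContinuousOn ρ D ∧ IsPSH D (fun z => (ρ z : EReal)) ∧ (∀ z ∈ D, ρ z < 0) ∧
      ∀ c : ℝ, c < 0 → IsCompact {z ∈ D | ρ z ≤ c}

/-- A weight on a compact set `K`: a lower semicontinuous function with values in `(-∞, 0]` such
that the set where it is negative is not pluripolar. -/
def IsWeight {n : ℕ} (K : Set (Cn n)) (Q : Cn n → ℝ) : Prop :=
  LowerSemicontinuousOn Q K ∧ (∀ z ∈ K, Q z ≤ 0) ∧ ¬ Pluripolar {z ∈ K | Q z < 0}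

/-- The Lelong class. -/
def Lelong (n : ℕ) : Set (Cn n → EReal) :=
  {u | IsPSH Set.univ u ∧ ∃ C : ℝ, ∀ z, u z ≤ ((Real.posLog ‖z‖ + C : ℝ) : EReal)}

/-- The weighted extremal function `V_{K,Q}`. -/
noncomputable def extV {n : ℕ} (K : Set (Cn n)) (Q : Cn n → ℝ) (z : Cn n) : EReal :=
  sSup {x | ∃ u ∈ Lelong n, (∀ w ∈ K, u w ≤ Q w) ∧ x = u z}

/-- The weighted relative extremal function `U_{K,Q,D}`. -/
noncomputable def extU {n : ℕ} (D K : Set (Cn n)) (Q : Cn n → ℝ) (z : Cn n) : EReal :=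
  sSup {x | ∃ u : Cn n → EReal, IsPSH D u ∧ (∀ w ∈ D, u w < 0) ∧ (∀ w ∈ K, u w ≤ Q w) ∧ x = u z}

/-- Upper semicontinuous regularization. -/
noncomputable def uscReg {n : ℕ} (v : Cn n → EReal) (z : Cn n) : EReal := limsup v (𝓝 z)

/-- The matrix of the mixed derivatives `∂²v / ∂z_j ∂z̄_k` of a real function of class `C²`. -/
noncomputable def complexHessian {n : ℕ} (v : Cn n → ℝ) (z : Cn n) : Matrix (Fin n) (Fin n) ℂ :=
  fun j k =>
    let e : Fin n → Cn n := fun l => EuclideanSpace.single l 1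
    let D2 : Cn n → Cn n → ℝ := fun a b => fderiv ℝ (fderiv ℝ v) z a b
    (1 / 4 : ℂ) * (((D2 (e j) (e k) + D2 (Complex.I • e j) (Complex.I • e k) : ℝ) : ℂ) +
      Complex.I * ((D2 (e j) (Complex.I • e k) - D2 (Complex.I • e j) (e k) : ℝ) : ℂ))

/-- The density with respect to Lebesgue measure of `(dd^c v)^n`, `dd^c = 2 i ∂ ∂̄`, for `v` of
class `C²`: it is `4^n n! det (∂²v / ∂z_j ∂z̄_k)`. -/
noncomputable def maDensity {n : ℕ} (v : Cn n → ℝ) (z : Cn n) : ℝ :=
  4 ^ n * n.factorial * (complexHessian v z).det.re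

/-- `μ` is the complex Monge-Ampere measure (Bedford-Taylor) on the open set `D` of the locally
bounded plurisubharmonic function `u`: it is a Borel measure carried by `D`, finite on compact
subsets of `D`, and on every open `G` relatively compact in `D` it is the weak limit of
`(dd^c v_j)^n` for a sequence of smooth plurisubharmonic functions `v_j` decreasing to `u` on `G`.
(By the theorem of Bedford and Taylor such sequences exist and the limit does not depend on the
sequence.) -/
structure IsMongeAmpere {n : ℕ} (D : Set (Cn n)) (u : Cn n → EReal) (μ : Measure (Cn n)) :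
    Prop where
  carried : μ Dᶜ = 0
  locFinite : ∀ L ⊆ D, IsCompact L → μ L < ⊤
  approx : ∀ G : Set (Cn n), IsOpen G → IsCompact (closure G) → closure G ⊆ D →
    ∃ v : ℕ → Cn n → ℝ,
      (∀ j, ContDiffOn ℝ ∞ (v j) G) ∧
      (∀ j, IsPSH G (fun z => (v j z : EReal))) ∧
      (∀ z ∈ G, Antitone (fun j => v j z)) ∧
      (∀ z ∈ G, Tendsto (fun j => (v j z : EReal)) atTop (𝓝 (u z))) ∧
      ∀ χ : Cn n → ℝ, ContDiff ℝ ∞ χ → HasCompactSupport χ → tsupport χ ⊆ G →
        Tendsto (fun j => ∫ z in G, χ z * maDensity (v j) z) atTop (𝓝 (∫ z, χ z ∂μ))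

end Pool.Agent.H48.Psh
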