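import Mathlib
import Pool.Agent.H48.PshDefs

/-!
# Basic facts on plurisubharmonic functions
-/

namespace Pool.Agent.H48.Psh

open MeasureTheory Filter Topology Set

variable {n : ℕ}

/-- The point of the circle `{a + e^{iθ} b}`. -/
noncomputable def circ (a b : Cn n) (θ : ℝ) : Cn n := a + Complex.exp (θ * Complex.I) • b

theorem circ_def (a b : Cn n) (θ : ℝ) : circ a b θ = a + Complex.exp (θ * Complex.I) • b := rfl

theorem continuous_circ (a b : Cn n) : Continuous (circ a b) := by
  unfold circ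
  fun_prop

theorem two_pi_pos' : (0 : ℝ) < 2 * Real.pi := by positivity

theorem volume_real_Ioc : (volume : Measure ℝ).real (Ioc 0 (2 * Real.pi)) = 2 * Real.pi := by
  rw [measureReal_def, Real.volume_Ioc, ENNReal.toReal_ofReal (by linarith [two_pi_pos'])]
  ring

/-- The sub-mean value inequality with a real majorant. -/
theorem IsPSH.le_mean {D : Set (Cn n)} {u : Cn n → EReal} (h : IsPSH D u) (a b : Cn n)
    (hab : ∀ ζ : ℂ, ‖ζ‖ ≤ 1 → a + ζ • b ∈ D) (H : ℝ → ℝ)
    (hH : IntegrableOn H (Ioc 0 (2 * Real.pi))) (C : ℝ) (hC : ∀ θ, H θ ≤ C)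
    (hu : ∀ θ, u (circ a b θ) ≤ H θ) :
    u a ≤ (((2 * Real.pi)⁻¹ * ∫ θ in Ioc 0 (2 * Real.pi), H θ : ℝ) : EReal) := by
  have h1 := h.submean a b hab C (fun θ => (hu θ).trans (by exact_mod_cast hC θ))
  have ha : a ∈ D := by simpa using hab 0 (by simp)
  have hint : Integrable (fun θ => C - H θ) (volume.restrict (Ioc 0 (2 * Real.pi))) :=
    (integrable_const C).sub hH
  have h2 : ENNReal.ofReal (∫ θ in Ioc 0 (2 * Real.pi), (C - H θ)) ≤
      ∫⁻ θ in Ioc 0 (2 * Real.pi), ((C : EReal) - u (circ a b θ)).toENNReal := by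
    rw [ofReal_integral_eq_lintegral_ofReal hint
      (Eventually.of_forall fun θ => by simpa using hC θ)]
    apply lintegral_mono
    intro θ
    have h3 : ((C - H θ : ℝ) : EReal) ≤ (C : EReal) - u (circ a b θ) := by
      rw [EReal.coe_sub]
      exact EReal.sub_le_sub le_rfl (hu θ)
    calc ENNReal.ofReal (C - H θ) = ((C - H θ : ℝ) : EReal).toENNReal :=
          (EReal.real_coe_toENNReal _).symm
      _ ≤ _ := EReal.toENNReal_le_toENNReal h3
  have h4 : ((((2 * Real.pi)⁻¹ * ∫ θ in Ioc 0 (2 * Real.pi), (C - H θ) : ℝ)) : EReal) ≤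
      (((∫⁻ θ in Set.Ioc 0 (2 * Real.pi), ((C : EReal) - u (circ a b θ)).toENNReal) /
          ENNReal.ofReal (2 * Real.pi) : ENNReal) : EReal) := by
    have h5 : ENNReal.ofReal ((2 * Real.pi)⁻¹ * ∫ θ in Ioc 0 (2 * Real.pi), (C - H θ)) ≤
        (∫⁻ θ in Set.Ioc 0 (2 * Real.pi), ((C : EReal) - u (circ a b θ)).toENNReal) /
          ENNReal.ofReal (2 * Real.pi) := by
      rw [ENNReal.ofReal_mul (by positivity), ENNReal.ofReal_inv_of_pos two_pi_pos',
        mul_comm, ← div_eq_mul_inv]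
      exact ENNReal.div_le_div_right h2 _
    have h6 : 0 ≤ (2 * Real.pi)⁻¹ * ∫ θ in Ioc 0 (2 * Real.pi), (C - H θ) := by
      apply mul_nonneg (by positivity)
      exact integral_nonneg fun θ => by simpa using hC θ
    have h7 : ((ENNReal.ofReal ((2 * Real.pi)⁻¹ * ∫ θ in Ioc 0 (2 * Real.pi), (C - H θ)) :
        ENNReal) : EReal) = (((2 * Real.pi)⁻¹ * ∫ θ in Ioc 0 (2 * Real.pi), (C - H θ) : ℝ) :
        EReal) := by
      rw [EReal.coe_ennreal_ofReal, max_eq_left h6]
    rw [← h7]
    exact_mod_cast h5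
  have h8 : u a + ((((2 * Real.pi)⁻¹ * ∫ θ in Ioc 0 (2 * Real.pi), (C - H θ) : ℝ)) : EReal) ≤ C :=
    le_trans (add_le_add le_rfl h4) h1
  have h9 : ∫ θ in Ioc 0 (2 * Real.pi), (C - H θ) =
      2 * Real.pi * C - ∫ θ in Ioc 0 (2 * Real.pi), H θ := by
    rw [integral_sub (integrable_const C) hH]
    simp only [integral_const, measureReal_restrict_apply_univ, smul_eq_mul]
    rw [volume_real_Ioc]
  rw [h9] at h8
  have hne := h.ne_top a ha
  induction hx : u a using EReal.rec with
  | bot => exact bot_le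
  | top => exact absurd hx hne
  | coe x =>
    rw [hx] at h8
    have h10 : x + (2 * Real.pi)⁻¹ * (2 * Real.pi * C - ∫ θ in Ioc 0 (2 * Real.pi), H θ) ≤ C := by
      exact_mod_cast h8
    have h11 : (2 * Real.pi)⁻¹ * (2 * Real.pi * C - ∫ θ in Ioc 0 (2 * Real.pi), H θ) =
        C - (2 * Real.pi)⁻¹ * ∫ θ in Ioc 0 (2 * Real.pi), H θ := by
      have := two_pi_pos'.ne'
      field_simp
    rw [h11] at h10
    have h12 : x ≤ (2 * Real.pi)⁻¹ * ∫ θ in Ioc 0 (2 * Real.pi), H θ := by linarith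
    exact_mod_cast h12

/-- A continuous real function with the sub-mean value property is plurisubharmonic. -/
theorem isPSH_of_real {D : Set (Cn n)} {v : Cn n → ℝ} (hv : ContinuousOn v D)
    (hmean : ∀ a b : Cn n, (∀ ζ : ℂ, ‖ζ‖ ≤ 1 → a + ζ • b ∈ D) →
      v a ≤ (2 * Real.pi)⁻¹ * ∫ θ in Ioc 0 (2 * Real.pi), v (circ a b θ)) :
    IsPSH D (fun z => (v z : EReal)) := by
  refine ⟨fun z _ => EReal.coe_ne_top _, ?_, ?_⟩
  · exact (continuous_coe_real_ereal.comp_continuousOn hv).upperSemicontinuousOn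
  · intro a b hab M hM
    have hcirc : ∀ θ, circ a b θ ∈ D := fun θ => hab _ (by
      rw [Complex.norm_exp_ofReal_mul_I])
    have hcont : Continuous fun θ => v (circ a b θ) :=
      hv.comp_continuous (continuous_circ a b) hcirc
    have hint : IntegrableOn (fun θ => v (circ a b θ)) (Ioc 0 (2 * Real.pi)) :=
      hcont.integrableOn_Ioc
    have hM' : ∀ θ, v (circ a b θ) ≤ M := fun θ => by
      have := hM θ
      exact_mod_cast this
    have e1 : ∀ θ : ℝ, ((M : EReal) - ((v (a + Complex.exp (θ * Complex.I) • b) : ℝ) :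
        EReal)).toENNReal = ENNReal.ofReal (M - v (circ a b θ)) := by
      intro θ
      rw [← EReal.coe_sub, EReal.real_coe_toENNReal]
      rfl
    simp_rw [e1]
    have hint2 : Integrable (fun θ => M - v (circ a b θ))
        (volume.restrict (Ioc 0 (2 * Real.pi))) := (integrable_const M).sub hint
    rw [← ofReal_integral_eq_lintegral_ofReal hint2
      (Eventually.of_forall fun θ => by simpa using hM' θ), ← ENNReal.ofReal_div_of_pos two_pi_pos',
      EReal.coe_ennreal_ofReal]
    have h6 : 0 ≤ (∫ θ in Ioc 0 (2 * Real.pi), (M - v (circ a b θ))) / (2 * Real.pi) := by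
      apply div_nonneg _ two_pi_pos'.le
      exact integral_nonneg fun θ => by simpa using hM' θ
    rw [max_eq_left h6]
    have h9 : ∫ θ in Ioc 0 (2 * Real.pi), (M - v (circ a b θ)) =
        2 * Real.pi * M - ∫ θ in Ioc 0 (2 * Real.pi), v (circ a b θ) := by
      rw [integral_sub (integrable_const M) hint]
      simp only [integral_const, measureReal_restrict_apply_univ, smul_eq_mul]
      rw [volume_real_Ioc]
    rw [h9]
    have h10 := hmean a b hab
    have h11 : v a + (2 * Real.pi * M - ∫ θ in Ioc 0 (2 * Real.pi), v (circ a b θ)) /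
        (2 * Real.pi) ≤ M := by
      have := two_pi_pos'.ne'
      have h12 : (2 * Real.pi * M - ∫ θ in Ioc 0 (2 * Real.pi), v (circ a b θ)) /
        (2 * Real.pi) = M - (2 * Real.pi)⁻¹ * ∫ θ in Ioc 0 (2 * Real.pi), v (circ a b θ) := by
        field_simp
      rw [h12]
      linarith
    exact_mod_cast h11

/-- A plurisubharmonic function stays plurisubharmonic on a smaller set. -/
theorem IsPSH.mono {D D' : Set (Cn n)} {u : Cn n → EReal} (h : IsPSH D u) (hD : D' ⊆ D) :
    IsPSH D' u :=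
  ⟨fun z hz => h.ne_top z (hD hz), h.usc.mono hD,
    fun a b hab => h.submean a b fun ζ hζ => hD (hab ζ hζ)⟩

end Pool.Agent.H48.Psh
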