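import Mathlib
import Pool.Agent.H48.Psh1

/-!
# Radial plurisubharmonic functions
-/

namespace Pool.Agent.H48.Psh

open MeasureTheory Filter Topology Set

variable {n : ℕ}

theorem null_zero_set (c d : ℂ) (hd : d ≠ 0) :
    volume {θ : ℝ | θ ∈ Ioc 0 (2 * Real.pi) ∧ c + Complex.exp (θ * Complex.I) * d = 0} = 0 := by
  apply Set.Subsingleton.measure_zero
  rintro θ ⟨⟨h1, h2⟩, h3⟩ θ' ⟨⟨h4, h5⟩, h6⟩
  apply eq_of_circleMap_eq (c := 0) (R := 1) one_ne_zero
  · rw [abs_lt]; constructor <;> linarith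
  · unfold circleMap
    have h7 : Complex.exp (θ * Complex.I) * d = Complex.exp (θ' * Complex.I) * d := by
      rw [eq_neg_of_add_eq_zero_right h3, eq_neg_of_add_eq_zero_right h6]
    simp [mul_right_cancel₀ hd h7]

theorem ae_ne_zero (c d : ℂ) (hd : d ≠ 0) :
    ∀ᵐ θ : ℝ ∂(volume.restrict (Ioc 0 (2 * Real.pi))), c + Complex.exp (θ * Complex.I) * d ≠ 0 := by
  rw [ae_restrict_iff' measurableSet_Ioc, ae_iff]
  convert null_zero_set c d hd using 2
  ext θ
  simp only [mem_Ioc, ne_eq, Classical.not_imp, not_not, mem_ofPred_eq]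

theorem log_circle_integrable (c d : ℂ) (hd : d ≠ 0) (hc : c ≠ 0) :
    IntegrableOn (fun θ : ℝ => Real.log ‖c + Complex.exp (θ * Complex.I) * d‖)
      (Ioc 0 (2 * Real.pi)) ∧
    2 * Real.pi * Real.log ‖c‖ ≤
      ∫ θ in Ioc 0 (2 * Real.pi), Real.log ‖c + Complex.exp (θ * Complex.I) * d‖ := by
  have h1 := circleIntegrable_log_norm_sub_const (a := -c / d) (c := 0) 1
  unfold CircleIntegrable at h1
  rw [intervalIntegrable_iff_integrableOn_Ioc_of_le two_pi_pos'.le] at h1
  have hae : ∀ᵐ θ : ℝ ∂(volume.restrict (Ioc 0 (2 * Real.pi))),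
      Real.log ‖d‖ + Real.log ‖circleMap 0 1 θ - -c / d‖ =
        Real.log ‖c + Complex.exp (θ * Complex.I) * d‖ := by
    filter_upwards [ae_ne_zero c d hd] with θ hθ
    have e1 : c + Complex.exp (θ * Complex.I) * d = d * (circleMap 0 1 θ - -c / d) := by
      unfold circleMap
      field_simp
      push_cast
      ring
    rw [e1, norm_mul, Real.log_mul (norm_ne_zero_iff.2 hd)]
    rw [norm_ne_zero_iff]
    intro h
    rw [e1, h, mul_zero] at hθ
    exact hθ rfl
  have hint : IntegrableOn (fun θ : ℝ => Real.log ‖d‖ + Real.log ‖circleMap 0 1 θ - -c / d‖)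
      (Ioc 0 (2 * Real.pi)) := (integrable_const _).add h1
  refine ⟨hint.congr hae, ?_⟩
  rw [← integral_congr_ae hae, integral_add (integrable_const _) h1]
  simp only [integral_const, measureReal_restrict_apply_univ, smul_eq_mul]
  rw [volume_real_Ioc]
  have h2 := circleAverage_log_norm_sub_const_eq_posLog (a := -c / d)
  rw [Real.circleAverage_def, intervalIntegral.integral_of_le two_pi_pos'.le, smul_eq_mul] at h2
  have h3 : ∫ θ in Ioc 0 (2 * Real.pi), Real.log ‖circleMap 0 1 θ - -c / d‖ =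
      2 * Real.pi * Real.posLog ‖-c / d‖ := by
    rw [← h2, ← mul_assoc, mul_inv_cancel₀ two_pi_pos'.ne', one_mul]
  rw [h3, ← mul_add]
  apply mul_le_mul_of_nonneg_left _ two_pi_pos'.le
  have h4 : Real.log ‖-c / d‖ ≤ Real.posLog ‖-c / d‖ := by
    rw [Real.posLog_apply]; exact le_max_right _ _
  have h5 : Real.log ‖-c / d‖ = Real.log ‖c‖ - Real.log ‖d‖ := by
    rw [norm_div, norm_neg, Real.log_div (norm_ne_zero_iff.2 hc) (norm_ne_zero_iff.2 hd)]
  linarith

/-- The radial criterion for plurisubharmonicity. -/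
theorem radial_mean {f : ℝ → ℝ} (hcont : ContinuousOn f (Ici 0))
    (hmono : ∀ s t, 0 ≤ s → s ≤ t → f s ≤ f t)
    (hsub : ∀ t₀ : ℝ, ∃ m : ℝ, 0 ≤ m ∧ ∀ t : ℝ,
      f (Real.exp (2 * t₀)) + m * (t - t₀) ≤ f (Real.exp (2 * t))) (a b : Cn n) :
    f (‖a‖ ^ 2) ≤ (2 * Real.pi)⁻¹ * ∫ θ in Ioc 0 (2 * Real.pi), f (‖circ a b θ‖ ^ 2) := by
  have hfc : Continuous fun θ => f (‖circ a b θ‖ ^ 2) :=
    hcont.comp_continuous ((continuous_circ a b).norm.pow 2) (fun θ => by
      rw [mem_Ici]; positivity)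
  have hint : IntegrableOn (fun θ => f (‖circ a b θ‖ ^ 2)) (Ioc 0 (2 * Real.pi)) :=
    hfc.integrableOn_Ioc
  rw [inv_mul_eq_div, le_div_iff₀ two_pi_pos']
  have hconst : ∀ c : ℝ, ∫ _θ in Ioc 0 (2 * Real.pi), c = c * (2 * Real.pi) := by
    intro c
    simp only [integral_const, measureReal_restrict_apply_univ, smul_eq_mul]
    rw [volume_real_Ioc]; ring
  by_cases ha : a = 0
  · rw [← hconst]
    apply integral_mono (integrable_const _) hint
    intro θ
    change f (‖a‖ ^ 2) ≤ f (‖circ a b θ‖ ^ 2)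
    apply hmono
    · positivity
    · rw [ha, norm_zero]
      simp
  -- the direction of `a`
  set c : ℝ := ‖a‖ with hc
  have hcpos : 0 < c := norm_pos_iff.2 ha
  set w : Cn n := ((c : ℂ)⁻¹) • a with hw
  have hwn : ‖w‖ = 1 := by
    rw [hw, norm_smul, norm_inv, Complex.norm_real, Real.norm_eq_abs, abs_of_pos hcpos, ← hc,
      inv_mul_cancel₀ hcpos.ne']
  set d : ℂ := inner ℂ w b with hd
  have hwa : inner ℂ w a = (c : ℂ) := by
    rw [hw, inner_smul_left, inner_self_eq_norm_sq_to_K, ← hc]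
    simp only [map_inv₀, Complex.conj_ofReal, Complex.coe_algebraMap]
    have : (c : ℂ) ≠ 0 := by exact_mod_cast hcpos.ne'
    field_simp
  have hlow : ∀ θ : ℝ, ‖(c : ℂ) + Complex.exp (θ * Complex.I) * d‖ ≤ ‖circ a b θ‖ := by
    intro θ
    have h1 : inner ℂ w (circ a b θ) = (c : ℂ) + Complex.exp (θ * Complex.I) * d := by
      unfold circ
      rw [inner_add_right, inner_smul_right, hwa, ← hd]
    rw [← h1]
    calc ‖inner ℂ w (circ a b θ)‖ ≤ ‖w‖ * ‖circ a b θ‖ := norm_inner_le_norm _ _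
      _ = ‖circ a b θ‖ := by rw [hwn, one_mul]
  have hexp : ∀ x : ℝ, 0 < x → Real.exp (2 * Real.log x) = x ^ 2 := by
    intro x hx
    rw [mul_comm, Real.exp_mul, Real.exp_log hx]
    norm_cast
  obtain ⟨m, hm0, hm⟩ := hsub (Real.log c)
  rw [hexp c hcpos] at hm
  by_cases hd0 : d = 0
  · rw [← hconst]
    apply integral_mono (integrable_const _) hint
    intro θ
    change f (c ^ 2) ≤ f (‖circ a b θ‖ ^ 2)
    apply hmono
    · positivity
    · have := hlow θ
      rw [hd0, mul_zero, add_zero, Complex.norm_real, Real.norm_eq_abs, abs_of_pos hcpos] at this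
      gcongr
  · have hcc : (c : ℂ) ≠ 0 := by exact_mod_cast hcpos.ne'
    obtain ⟨h1, h2⟩ := log_circle_integrable (c : ℂ) d hd0 hcc
    rw [Complex.norm_real, Real.norm_eq_abs, abs_of_pos hcpos] at h2
    have hae : ∀ᵐ θ : ℝ ∂(volume.restrict (Ioc 0 (2 * Real.pi))),
        (f (c ^ 2) - m * Real.log c) + m * Real.log ‖(c : ℂ) + Complex.exp (θ * Complex.I) * d‖ ≤
          f (‖circ a b θ‖ ^ 2) := by
      filter_upwards [ae_ne_zero (c : ℂ) d hd0] with θ hθ
      have hpos : 0 < ‖(c : ℂ) + Complex.exp (θ * Complex.I) * d‖ := norm_pos_iff.2 hθ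
      have h3 := hm (Real.log ‖(c : ℂ) + Complex.exp (θ * Complex.I) * d‖)
      rw [hexp _ hpos] at h3
      have h4 : f (‖(c : ℂ) + Complex.exp (θ * Complex.I) * d‖ ^ 2) ≤ f (‖circ a b θ‖ ^ 2) := by
        apply hmono _ _ (by positivity)
        have := hlow θ
        gcongr
      linarith
    have hadd : Integrable (fun θ : ℝ => (f (c ^ 2) - m * Real.log c) +
        m * Real.log ‖(c : ℂ) + Complex.exp (θ * Complex.I) * d‖)
        (volume.restrict (Ioc 0 (2 * Real.pi))) := (integrable_const _).add (h1.const_mul m)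
    have h5 := integral_mono_ae hadd hint hae
    rw [integral_add (integrable_const _) (h1.const_mul m), hconst, integral_const_mul] at h5
    have h6 : m * (2 * Real.pi * Real.log c) ≤
        m * ∫ θ in Ioc 0 (2 * Real.pi), Real.log ‖(c : ℂ) + Complex.exp (θ * Complex.I) * d‖ :=
      mul_le_mul_of_nonneg_left h2 hm0
    linarith

/-- The radial criterion for plurisubharmonicity. -/
theorem isPSH_radial {f : ℝ → ℝ} (hcont : ContinuousOn f (Ici 0))
    (hmono : ∀ s t, 0 ≤ s → s ≤ t → f s ≤ f t)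
    (hsub : ∀ t₀ : ℝ, ∃ m : ℝ, 0 ≤ m ∧ ∀ t : ℝ,
      f (Real.exp (2 * t₀)) + m * (t - t₀) ≤ f (Real.exp (2 * t))) :
    IsPSH (univ : Set (Cn n)) (fun z => ((f (‖z‖ ^ 2) : ℝ) : EReal)) := by
  apply isPSH_of_real
  · apply Continuous.continuousOn
    exact hcont.comp_continuous (continuous_norm.pow 2) (fun z => by
      rw [mem_Ici]; positivity)
  · intro a b _
    exact radial_mean hcont hmono hsub a b

end Pool.Agent.H48.Psh
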