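import Mathlib
import Pool.Agent.H48.Psh2

/-!
# Strict sub-mean value inequalities, the annulus lemma, non-pluripolarity of a ball
-/

namespace Pool.Agent.H48.Psh

open MeasureTheory Filter Topology Set

variable {n : ℕ}

theorem circ_mem {D : Set (Cn n)} {a b : Cn n}
    (hab : ∀ ζ : ℂ, ‖ζ‖ ≤ 1 → a + ζ • b ∈ D) (θ : ℝ) : circ a b θ ∈ D :=
  hab _ (by rw [Complex.norm_exp_ofReal_mul_I])

/-- The sub-mean value inequality with a gain on an arc around `θ = π`. -/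
theorem IsPSH.arc_mean {D : Set (Cn n)} {u : Cn n → EReal} (h : IsPSH D u) (a b : Cn n)
    (hab : ∀ ζ : ℂ, ‖ζ‖ ≤ 1 → a + ζ • b ∈ D) (H : ℝ → ℝ)
    (hH : Continuous H) (C : ℝ) (hC : ∀ θ, H θ ≤ C)
    (hu : ∀ θ, u (circ a b θ) ≤ H θ) {δ N : ℝ} (hδ : 0 < δ) (hN : 0 ≤ N)
    (hJ : Metric.ball Real.pi δ ⊆ Ioc 0 (2 * Real.pi))
    (hu' : ∀ θ ∈ Metric.ball Real.pi δ, u (circ a b θ) ≤ ((H θ - N : ℝ) : EReal)) :
    u a ≤ (((2 * Real.pi)⁻¹ * ((∫ θ in Ioc 0 (2 * Real.pi), H θ) - 2 * δ * N) : ℝ) : EReal) := by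
  have hHi : IntegrableOn H (Ioc 0 (2 * Real.pi)) := hH.integrableOn_Ioc
  have hIi : IntegrableOn ((Metric.ball Real.pi δ).indicator (fun _ => N))
      (Ioc 0 (2 * Real.pi)) := (integrable_const N).indicator Metric.isOpen_ball.measurableSet
  have h1 := h.le_mean a b hab
    (fun θ => H θ - (Metric.ball Real.pi δ).indicator (fun _ => N) θ) (hHi.sub hIi) C
    (fun θ => by
      have : 0 ≤ (Metric.ball Real.pi δ).indicator (fun _ => N) θ :=
        indicator_nonneg (fun _ _ => hN) θ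
      linarith [hC θ])
    (fun θ => by
      by_cases hθ : θ ∈ Metric.ball Real.pi δ
      · simp only [indicator_of_mem hθ]
        exact hu' θ hθ
      · simp only [indicator_of_notMem hθ, sub_zero]
        exact hu θ)
  rw [integral_sub hHi hIi, integral_indicator_const _ Metric.isOpen_ball.measurableSet,
    measureReal_restrict_apply Metric.isOpen_ball.measurableSet, inter_eq_left.2 hJ,
    measureReal_def, Real.volume_ball, ENNReal.toReal_ofReal (by linarith), smul_eq_mul] at h1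
  exact h1

/-- The strict sub-mean value inequality. -/
theorem IsPSH.lt_mean {D : Set (Cn n)} {u : Cn n → EReal} (h : IsPSH D u) (a b : Cn n)
    (hab : ∀ ζ : ℂ, ‖ζ‖ ≤ 1 → a + ζ • b ∈ D) (H : ℝ → ℝ)
    (hH : Continuous H) (C : ℝ) (hC : ∀ θ, H θ ≤ C)
    (hu : ∀ θ, u (circ a b θ) ≤ H θ) (hpi : u (circ a b Real.pi) < H Real.pi) :
    u a < (((2 * Real.pi)⁻¹ * ∫ θ in Ioc 0 (2 * Real.pi), H θ : ℝ) : EReal) := by
  obtain ⟨c, hc1, hc2⟩ := EReal.lt_iff_exists_real_btwn.1 hpi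
  have hc2' : c < H Real.pi := by exact_mod_cast hc2
  obtain ⟨c', hc3, hc4⟩ := exists_between hc2'
  have hN1 : ∀ᶠ θ in 𝓝 Real.pi, u (circ a b θ) < c := by
    have h1 := h.usc (circ a b Real.pi) (circ_mem hab _) c hc1
    have h2 : Tendsto (circ a b) (𝓝 Real.pi) (𝓝[D] (circ a b Real.pi)) :=
      tendsto_nhdsWithin_iff.2 ⟨(continuous_circ a b).continuousAt,
        Eventually.of_forall (circ_mem hab)⟩
    exact h2.eventually h1
  have hN2 : ∀ᶠ θ in 𝓝 Real.pi, c' < H θ := hH.continuousAt.eventually (lt_mem_nhds hc4)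
  have hN3 : ∀ᶠ θ in 𝓝 Real.pi, θ ∈ Ioo 0 (2 * Real.pi) :=
    Ioo_mem_nhds Real.pi_pos (by linarith [Real.pi_pos])
  obtain ⟨δ, hδ, hball⟩ := Metric.eventually_nhds_iff_ball.1 (hN1.and (hN2.and hN3))
  have h3 := h.arc_mean a b hab H hH C hC hu (δ := δ) (N := c' - c) hδ (by linarith)
    (fun θ hθ => Ioo_subset_Ioc_self (hball θ hθ).2.2)
    (fun θ hθ => by
      have h4 := hball θ hθ
      refine h4.1.le.trans ?_
      have h5 : c ≤ H θ - (c' - c) := by linarith [h4.2.1]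
      exact_mod_cast h5)
  refine lt_of_le_of_lt h3 ?_
  have h6 : (2 * Real.pi)⁻¹ * ((∫ θ in Ioc 0 (2 * Real.pi), H θ) - 2 * δ * (c' - c)) <
      (2 * Real.pi)⁻¹ * ∫ θ in Ioc 0 (2 * Real.pi), H θ := by
    apply mul_lt_mul_of_pos_left _ (inv_pos.2 two_pi_pos')
    have : 0 < 2 * δ * (c' - c) := mul_pos (by linarith) (by linarith)
    linarith
  exact_mod_cast h6

/-- Upper bound on a compact set. -/
theorem IsPSH.exists_bound {D : Set (Cn n)} {u : Cn n → EReal} (h : IsPSH D u) {L : Set (Cn n)}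
    (hL : IsCompact L) (hLD : L ⊆ D) : ∃ C : ℝ, ∀ z ∈ L, u z ≤ C := by
  rcases L.eq_empty_or_nonempty with rfl | hne
  · exact ⟨0, by simp⟩
  obtain ⟨p, hp, hmax⟩ := (h.usc.mono hLD).exists_isMaxOn hne hL
  obtain ⟨C, hC⟩ : ∃ C : ℝ, u p ≤ C := by
    have := h.ne_top p (hLD hp)
    induction hx : u p using EReal.rec with
    | bot => exact ⟨0, bot_le⟩
    | top => exact absurd hx this
    | coe x => exact ⟨x, le_rfl⟩
  exact ⟨C, fun z hz => (hmax hz).trans hC⟩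

/-- The closed unit ball is not pluripolar. -/
theorem not_pluripolar_closedBall : ¬ Pluripolar (Metric.closedBall (0 : Cn n) 1) := by
  rintro ⟨u, hu, ⟨z₀, hz₀⟩, hbot⟩
  -- the circle through the origin centred at `z₀`
  have hab : ∀ ζ : ℂ, ‖ζ‖ ≤ 1 → z₀ + ζ • z₀ ∈ (univ : Set (Cn n)) := fun _ _ => mem_univ _
  have hcpt : IsCompact (Metric.closedBall (0 : Cn n) (2 * ‖z₀‖)) := isCompact_closedBall _ _
  obtain ⟨C, hC⟩ := hu.exists_bound hcpt (subset_univ _)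
  have hle : ∀ θ, u (circ z₀ z₀ θ) ≤ ((fun _ => C : ℝ → ℝ) θ : EReal) := by
    intro θ
    apply hC
    rw [mem_closedBall_zero_iff]
    unfold circ
    calc ‖z₀ + Complex.exp (θ * Complex.I) • z₀‖ ≤ ‖z₀‖ + ‖Complex.exp (θ * Complex.I) • z₀‖ :=
          norm_add_le _ _
      _ = 2 * ‖z₀‖ := by rw [norm_smul, Complex.norm_exp_ofReal_mul_I]; ring
  have hpi : circ z₀ z₀ Real.pi = 0 := by
    unfold circ
    rw [Complex.exp_pi_mul_I]
    simp
  have hN1 : ∀ᶠ θ in 𝓝 Real.pi, circ z₀ z₀ θ ∈ Metric.closedBall (0 : Cn n) 1 := by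
    apply (continuous_circ z₀ z₀).continuousAt.eventually_mem
    rw [hpi]
    exact Metric.closedBall_mem_nhds _ one_pos
  have hN3 : ∀ᶠ θ in 𝓝 Real.pi, θ ∈ Ioo 0 (2 * Real.pi) :=
    Ioo_mem_nhds Real.pi_pos (by linarith [Real.pi_pos])
  obtain ⟨δ, hδ, hball⟩ := Metric.eventually_nhds_iff_ball.1 (hN1.and hN3)
  -- for every `N`
  have key : ∀ N : ℝ, 0 ≤ N → u z₀ ≤ ((C - (2 * Real.pi)⁻¹ * (2 * δ) * N : ℝ) : EReal) := by
    intro N hN
    have h3 := hu.arc_mean z₀ z₀ hab (fun _ => C) continuous_const C (fun _ => le_rfl) hle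
      (δ := δ) (N := N) hδ hN (fun θ hθ => Ioo_subset_Ioc_self (hball θ hθ).2)
      (fun θ hθ => by rw [hbot _ (hball θ hθ).1]; exact bot_le)
    have h9 : ∫ _θ in Ioc 0 (2 * Real.pi), C = 2 * Real.pi * C := by
      simp only [integral_const, measureReal_restrict_apply_univ, smul_eq_mul]
      rw [volume_real_Ioc]
    rw [h9] at h3
    have e1 : (2 * Real.pi)⁻¹ * (2 * Real.pi * C - 2 * δ * N) =
        C - (2 * Real.pi)⁻¹ * (2 * δ) * N := by
      have := two_pi_pos'.ne'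
      field_simp
    rwa [e1] at h3
  apply hz₀
  by_contra hne
  have hnt := hu.ne_top z₀ (mem_univ _)
  obtain ⟨x, hx⟩ : ∃ x : ℝ, u z₀ = x := ⟨(u z₀).toReal, (EReal.coe_toReal hnt hne).symm⟩
  set k : ℝ := (2 * Real.pi)⁻¹ * (2 * δ) with hk
  have hkpos : 0 < k := mul_pos (inv_pos.2 two_pi_pos') (by linarith)
  have h1 := key ((|C - x| + 1) / k) (by positivity)
  rw [hx, mul_div_cancel₀ _ hkpos.ne'] at h1
  have h2 : x ≤ C - (|C - x| + 1) := by exact_mod_cast h1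
  have h3 := le_abs_self (C - x)
  linarith

end Pool.Agent.H48.Psh
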