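import Mathlib
import Pool.Agent.H48.Psh3

/-!
# The annulus lemma
-/

namespace Pool.Agent.H48.Psh

open MeasureTheory Filter Topology Set

variable {n : ℕ}

theorem log_circle_eq (c d : ℂ) (hd : d ≠ 0) (hcd : ‖d‖ ≤ ‖c‖) :
    ∫ θ in Ioc 0 (2 * Real.pi), Real.log ‖c + Complex.exp (θ * Complex.I) * d‖ =
      2 * Real.pi * Real.log ‖c‖ := by
  have hdn : 0 < ‖d‖ := norm_pos_iff.2 hd
  have hcn : 0 < ‖c‖ := lt_of_lt_of_le hdn hcd
  have hc : c ≠ 0 := norm_pos_iff.1 hcn
  have h1 := circleIntegrable_log_norm_sub_const (a := -c / d) (c := 0) 1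
  unfold CircleIntegrable at h1
  rw [intervalIntegrable_iff_integrableOn_Ioc_of_le two_pi_pos'.le] at h1
  have hae : ∀ᵐ θ : ℝ ∂(volume.restrict (Ioc 0 (2 * Real.pi))),
      Real.log ‖d‖ + Real.log ‖circleMap 0 1 θ - -c / d‖ =
        Real.log ‖c + Complex.exp (θ * Complex.I) * d‖ := by
    filter_upwards [ae_ne_zero c d hd] with θ hθ
    have e1 : c + Complex.exp (θ * Complex.I) * d = d * (circleMap 0 1 θ - -c / d) := by
      unfold circleMap
      field_simp
      push_cast
      ring
    rw [e1, norm_mul, Real.log_mul (norm_ne_zero_iff.2 hd)]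
    rw [norm_ne_zero_iff]
    intro h
    rw [e1, h, mul_zero] at hθ
    exact hθ rfl
  rw [← integral_congr_ae hae, integral_add (integrable_const _) h1]
  simp only [integral_const, measureReal_restrict_apply_univ, smul_eq_mul]
  rw [volume_real_Ioc]
  have h2 := circleAverage_log_norm_sub_const_eq_posLog (a := -c / d)
  rw [Real.circleAverage_def, intervalIntegral.integral_of_le two_pi_pos'.le, smul_eq_mul] at h2
  have h3 : ∫ θ in Ioc 0 (2 * Real.pi), Real.log ‖circleMap 0 1 θ - -c / d‖ =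
      2 * Real.pi * Real.posLog ‖-c / d‖ := by
    rw [← h2, ← mul_assoc, mul_inv_cancel₀ two_pi_pos'.ne', one_mul]
  rw [h3, ← mul_add]
  congr 1
  have h4 : Real.posLog ‖-c / d‖ = Real.log ‖-c / d‖ := by
    apply Real.posLog_eq_log
    rw [abs_of_nonneg (norm_nonneg _), norm_div, norm_neg, le_div_iff₀ hdn, one_mul]
    exact hcd
  have h5 : Real.log ‖-c / d‖ = Real.log ‖c‖ - Real.log ‖d‖ := by
    rw [norm_div, norm_neg, Real.log_div (norm_ne_zero_iff.2 hc) (norm_ne_zero_iff.2 hd)]
  linarith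

/-- The annulus lemma (two constants). -/
theorem IsPSH.annulus {D : Set (Cn n)} {u : Cn n → EReal} (h : IsPSH D u) (e0 : Cn n)
    {R A B : ℝ} (hR : 1 < R) (hD : ∀ ζ : ℂ, ‖ζ‖ ≤ R → ζ • e0 ∈ D)
    (hA : ∀ ζ : ℂ, ‖ζ‖ = 1 → u (ζ • e0) ≤ A) (hB : ∀ ζ : ℂ, ‖ζ‖ = R → u (ζ • e0) ≤ B)
    (ζ : ℂ) (h1 : 1 ≤ ‖ζ‖) (h2 : ‖ζ‖ ≤ R) :
    u (ζ • e0) ≤ ((A + (B - A) / Real.log R * Real.log ‖ζ‖ : ℝ) : EReal) := by
  set m : ℝ := (B - A) / Real.log R with hm
  have hlogR : 0 < Real.log R := Real.log_pos hR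
  have hmR : m * Real.log R = B - A := div_mul_cancel₀ _ hlogR.ne'
  set S : Set ℂ := {z | 1 ≤ ‖z‖ ∧ ‖z‖ ≤ R} with hS
  have hSc : IsCompact S := by
    apply IsCompact.of_isClosed_subset (isCompact_closedBall (0 : ℂ) R)
    · exact (isClosed_le continuous_const continuous_norm).inter
        (isClosed_le continuous_norm continuous_const)
    · intro z hz
      rw [mem_closedBall_zero_iff]
      exact hz.2
  set L : ℂ → ℝ := fun z => A + m * Real.log ‖z‖ with hL
  have hLc : ContinuousOn L S := by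
    apply ContinuousOn.add continuousOn_const
    apply ContinuousOn.mul continuousOn_const
    apply ContinuousOn.log continuous_norm.continuousOn
    intro z hz
    have := hz.1
    positivity
  have husc : UpperSemicontinuousOn (fun z : ℂ => u (z • e0) + ((-L z : ℝ) : EReal)) S := by
    apply UpperSemicontinuousOn.add'
    · intro z hz y hy
      have h3 := h.usc (z • e0) (hD z hz.2) y hy
      have h4 : Tendsto (fun w : ℂ => w • e0) (𝓝[S] z) (𝓝[D] (z • e0)) :=
        tendsto_nhdsWithin_iff.2 ⟨(by fun_prop : Continuous fun w : ℂ => w • e0).continuousAt.mono_left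
          nhdsWithin_le_nhds, by
            filter_upwards [self_mem_nhdsWithin] with w hw using hD w hw.2⟩
      exact h4.eventually h3
    · exact (continuous_coe_real_ereal.comp_continuousOn hLc.neg).upperSemicontinuousOn
    · intro z hz
      apply EReal.continuousAt_add
      · right; exact EReal.coe_ne_bot _
      · right; exact EReal.coe_ne_top _
  obtain ⟨p, hp, hmax⟩ := husc.exists_isMaxOn (Set.nonempty_of_mem (show ζ ∈ S from ⟨h1, h2⟩)) hSc
  by_contra hcon
  push Not at hcon
  have hFz : (0 : EReal) < u (ζ • e0) + ((-L ζ : ℝ) : EReal) := by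
    have hne := h.ne_top (ζ • e0) (hD ζ h2)
    induction hx : u (ζ • e0) using EReal.rec with
    | bot => rw [hx] at hcon; exact absurd hcon (not_lt_bot)
    | top => exact absurd hx hne
    | coe x =>
      rw [hx] at hcon
      have h5 : A + m * Real.log ‖ζ‖ < x := by exact_mod_cast hcon
      have h6 : 0 < x + -L ζ := by simp only [hL]; linarith
      exact_mod_cast h6
  have hFp : (0 : EReal) < u (p • e0) + ((-L p : ℝ) : EReal) := 
    lt_of_lt_of_le hFz (hmax (show ζ ∈ S from ⟨h1, h2⟩))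
  -- the maximum is a positive real
  obtain ⟨x, hx⟩ : ∃ x : ℝ, u (p • e0) = x := by
    have hne := h.ne_top (p • e0) (hD p hp.2)
    induction hx : u (p • e0) using EReal.rec with
    | bot => rw [hx] at hFp; simp at hFp
    | top => exact absurd hx hne
    | coe x => exact ⟨x, rfl⟩
  have hMpos : 0 < x - L p := by
    rw [hx] at hFp
    have : 0 < x + -L p := by exact_mod_cast hFp
    linarith
  set M : ℝ := x - L p with hM
  have hle : ∀ z ∈ S, u (z • e0) ≤ ((L z + M : ℝ) : EReal) := by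
    intro z hz
    have h3 := hmax hz
    simp only [mem_ofPred_eq] at h3
    rw [hx] at h3
    have hne := h.ne_top (z • e0) (hD z hz.2)
    induction hy : u (z • e0) using EReal.rec with
    | bot => exact bot_le
    | top => exact absurd hy hne
    | coe y =>
      rw [hy] at h3
      have h4 : y + -L z ≤ x + -L p := by exact_mod_cast h3
      have h5 : y ≤ L z + M := by rw [hM]; linarith
      exact_mod_cast h5
  -- the maximum point is interior
  have hL1 : ∀ z : ℂ, ‖z‖ = 1 → L z = A := by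
    intro z hz
    simp only [hL]
    rw [hz, Real.log_one, mul_zero, add_zero]
  have hLR : ∀ z : ℂ, ‖z‖ = R → L z = B := by
    intro z hz
    simp only [hL]
    rw [hz, hmR]; ring
  have hbd : ∀ z : ℂ, (‖z‖ = 1 ∨ ‖z‖ = R) → u (z • e0) ≤ ((L z : ℝ) : EReal) := by
    rintro z (hz | hz)
    · rw [hL1 z hz]; exact hA z hz
    · rw [hLR z hz]; exact hB z hz
  have hp1 : 1 < ‖p‖ := by
    rcases lt_or_eq_of_le hp.1 with h' | h'
    · exact h'
    · exfalso
      have h3 := hbd p (Or.inl h'.symm)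
      rw [hx] at h3
      have h4 : x ≤ L p := by exact_mod_cast h3
      linarith
  have hpR : ‖p‖ < R := by
    rcases lt_or_eq_of_le hp.2 with h' | h'
    · exact h'
    · exfalso
      have h3 := hbd p (Or.inr h')
      rw [hx] at h3
      have h4 : x ≤ L p := by exact_mod_cast h3
      linarith
  -- the touching point
  obtain ⟨q, hq1, hq2, hq3, hq4⟩ : ∃ q : ℂ, (‖q‖ = 1 ∨ ‖q‖ = R) ∧ ‖p - q‖ ≤ ‖p‖ - 1 ∧
      ‖p - q‖ ≤ R - ‖p‖ ∧ p - q ≠ 0 := by
    have hpn : (‖p‖ : ℂ) ≠ 0 := by
      have : ‖p‖ ≠ 0 := by linarith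
      exact_mod_cast this
    have hkey : ∀ ρ : ℝ, 0 < ρ → ‖((ρ / ‖p‖ : ℝ) : ℂ) * p‖ = ρ ∧
        ‖p - ((ρ / ‖p‖ : ℝ) : ℂ) * p‖ = |‖p‖ - ρ| := by
      intro ρ hρ
      have hp0 : 0 < ‖p‖ := by linarith
      constructor
      · rw [norm_mul, Complex.norm_real, Real.norm_eq_abs, abs_of_pos (div_pos hρ hp0),
          div_mul_cancel₀ _ hp0.ne']
      · have e1 : p - ((ρ / ‖p‖ : ℝ) : ℂ) * p = (((‖p‖ - ρ) / ‖p‖ : ℝ) : ℂ) * p := by
          push_cast
          field_simp
        rw [e1, norm_mul, Complex.norm_real, Real.norm_eq_abs, abs_div, abs_of_pos hp0,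
          div_mul_cancel₀ _ hp0.ne']
    rcases le_total (‖p‖ - 1) (R - ‖p‖) with h' | h'
    · obtain ⟨k1, k2⟩ := hkey 1 one_pos
      have h3 : |‖p‖ - 1| = ‖p‖ - 1 := abs_of_pos (by linarith)
      rw [h3] at k2
      refine ⟨_, Or.inl k1, k2.le, k2.le.trans h', ?_⟩
      rw [← norm_pos_iff, k2]; linarith
    · obtain ⟨k1, k2⟩ := hkey R (by linarith)
      have h3 : |‖p‖ - R| = R - ‖p‖ := by rw [abs_of_neg (by linarith)]; ring
      rw [h3] at k2
      refine ⟨_, Or.inr k1, k2.le.trans h', k2.le, ?_⟩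
      rw [← norm_pos_iff, k2]; linarith
  have hdisc : ∀ w : ℂ, ‖w‖ ≤ 1 → p + w * (p - q) ∈ S := by
    intro w hw
    have h3 : ‖w * (p - q)‖ ≤ ‖p - q‖ := by
      rw [norm_mul]
      exact mul_le_of_le_one_left (norm_nonneg _) hw
    constructor
    · have h4 : ‖p‖ - ‖w * (p - q)‖ ≤ ‖p + w * (p - q)‖ := by
        have := norm_sub_norm_le p (-(w * (p - q)))
        rw [norm_neg, sub_neg_eq_add] at this
        exact this
      linarith
    · have h4 := norm_add_le p (w * (p - q))
      linarith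
  have hcirc : ∀ θ : ℝ, circ (p • e0) ((p - q) • e0) θ =
      (p + Complex.exp (θ * Complex.I) * (p - q)) • e0 := by
    intro θ
    unfold circ
    rw [add_smul, smul_smul]
  have hexp1 : ∀ θ : ℝ, ‖Complex.exp (θ * Complex.I)‖ ≤ 1 := fun θ => by
    rw [Complex.norm_exp_ofReal_mul_I]
  have hHc : Continuous fun θ : ℝ => L (p + Complex.exp (θ * Complex.I) * (p - q)) + M := by
    apply Continuous.add _ continuous_const
    apply hLc.comp_continuous (by fun_prop)
    intro θ
    exact hdisc _ (hexp1 θ)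
  have hHb : ∀ θ : ℝ, L (p + Complex.exp (θ * Complex.I) * (p - q)) + M ≤
      A + |m| * Real.log R + M := by
    intro θ
    have h3 := hdisc _ (hexp1 θ)
    have h4 : m * Real.log ‖p + Complex.exp (θ * Complex.I) * (p - q)‖ ≤ |m| * Real.log R := by
      have h5 : 0 ≤ Real.log ‖p + Complex.exp (θ * Complex.I) * (p - q)‖ := Real.log_nonneg h3.1
      have h6 : Real.log ‖p + Complex.exp (θ * Complex.I) * (p - q)‖ ≤ Real.log R :=
        Real.log_le_log (by linarith [h3.1]) h3.2
      calc m * Real.log ‖p + Complex.exp (θ * Complex.I) * (p - q)‖ ≤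
          |m| * Real.log ‖p + Complex.exp (θ * Complex.I) * (p - q)‖ :=
            mul_le_mul_of_nonneg_right (le_abs_self m) h5
        _ ≤ |m| * Real.log R := mul_le_mul_of_nonneg_left h6 (abs_nonneg m)
    simp only [hL]
    linarith
  have hlt := h.lt_mean (p • e0) ((p - q) • e0) (fun w hw => by
      have e1 : p • e0 + w • (p - q) • e0 = (p + w * (p - q)) • e0 := by
        rw [add_smul, smul_smul]
      rw [e1]
      exact hD _ (hdisc w hw).2) _ hHc _ hHb (fun θ => by
        rw [hcirc]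
        exact hle _ (hdisc _ (hexp1 θ))) (by
        rw [hcirc, Complex.exp_pi_mul_I]
        have e1 : p + -1 * (p - q) = q := by ring
        rw [e1]
        refine lt_of_le_of_lt (hbd q hq1) ?_
        have : L q < L q + M := by linarith
        exact_mod_cast this)
  have hint : (2 * Real.pi)⁻¹ * ∫ θ in Ioc 0 (2 * Real.pi),
      (L (p + Complex.exp (θ * Complex.I) * (p - q)) + M) = L p + M := by
    have hle' : ‖p - q‖ ≤ ‖p‖ := by linarith
    have h3 := log_circle_eq p (p - q) hq4 hle'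
    have hlogi : IntegrableOn (fun θ : ℝ => Real.log ‖p + Complex.exp (θ * Complex.I) * (p - q)‖)
        (Ioc 0 (2 * Real.pi)) :=
      (log_circle_integrable p (p - q) hq4 (norm_pos_iff.1 (by linarith))).1
    have e2 : ∀ θ : ℝ, L (p + Complex.exp (θ * Complex.I) * (p - q)) + M =
        (A + M) + m * Real.log ‖p + Complex.exp (θ * Complex.I) * (p - q)‖ := by
      intro θ
      simp only [hL]
      ring
    simp_rw [e2]
    rw [integral_add (integrable_const _) (hlogi.const_mul m), integral_const_mul, h3]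
    simp only [integral_const, measureReal_restrict_apply_univ, smul_eq_mul]
    rw [volume_real_Ioc]
    simp only [hL]
    have := two_pi_pos'.ne'
    field_simp
    ring
  rw [hint, hx] at hlt
  have h7 : x < L p + M := by exact_mod_cast hlt
  rw [hM] at h7
  linarith

end Pool.Agent.H48.Psh
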