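import Mathlib
import Pool.Agent.H48.Psh4

/-!
# The two extremal functions of the example
-/

namespace Pool.Agent.H48.Psh

open MeasureTheory Filter Topology Set

variable {n : ℕ}

/-- The profile: `(s-3)/4` for `s ≤ 1` and `(κ/2) log s - 1/2` for `s ≥ 1`. -/
noncomputable def prof (κ s : ℝ) : ℝ := (min s 1 - 3) / 4 + κ / 2 * Real.log (max s 1)

theorem prof_of_le (κ : ℝ) {s : ℝ} (h : s ≤ 1) : prof κ s = (s - 3) / 4 := by
  unfold prof
  rw [min_eq_left h, max_eq_right h, Real.log_one, mul_zero, add_zero]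

theorem prof_of_ge (κ : ℝ) {s : ℝ} (h : 1 ≤ s) : prof κ s = κ / 2 * Real.log s - 1 / 2 := by
  unfold prof
  rw [min_eq_right h, max_eq_left h]
  ring

theorem continuous_prof (κ : ℝ) : Continuous (prof κ) := by
  unfold prof
  apply Continuous.add (by fun_prop)
  apply Continuous.mul continuous_const
  apply Continuous.log (by fun_prop)
  intro x
  have : (1 : ℝ) ≤ max x 1 := le_max_right _ _
  linarith

theorem prof_mono {κ : ℝ} (hκ : 0 ≤ κ) {s t : ℝ} (h : s ≤ t) : prof κ s ≤ prof κ t := by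
  unfold prof
  have h1 : min s 1 ≤ min t 1 := min_le_min_right _ h
  have h2 : Real.log (max s 1) ≤ Real.log (max t 1) := by
    apply Real.log_le_log
    · have : (1 : ℝ) ≤ max s 1 := le_max_right _ _
      linarith
    · exact max_le_max_right _ h
  have h3 := mul_le_mul_of_nonneg_left h2 (by linarith : 0 ≤ κ / 2)
  linarith

theorem prof_exp_of_le (κ : ℝ) {t : ℝ} (h : t ≤ 0) :
    prof κ (Real.exp (2 * t)) = (Real.exp (2 * t) - 3) / 4 := by
  apply prof_of_le
  rw [Real.exp_le_one_iff]; linarith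

theorem prof_exp_of_ge (κ : ℝ) {t : ℝ} (h : 0 ≤ t) :
    prof κ (Real.exp (2 * t)) = κ * t - 1 / 2 := by
  rw [prof_of_ge κ (by rw [Real.one_le_exp_iff]; linarith), Real.log_exp]
  ring

theorem prof_sub {κ : ℝ} (hκ : 1 / 2 ≤ κ) (t₀ : ℝ) : ∃ m : ℝ, 0 ≤ m ∧ ∀ t : ℝ,
    prof κ (Real.exp (2 * t₀)) + m * (t - t₀) ≤ prof κ (Real.exp (2 * t)) := by
  rcases le_total t₀ 0 with h0 | h0
  · refine ⟨Real.exp (2 * t₀) / 2, by positivity, ?_⟩
    have hneg : ∀ t, t ≤ 0 → (Real.exp (2 * t₀) - 3) / 4 + Real.exp (2 * t₀) / 2 * (t - t₀) ≤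
        (Real.exp (2 * t) - 3) / 4 := by
      intro t _
      have e1 : Real.exp (2 * t) = Real.exp (2 * t₀) * Real.exp (2 * (t - t₀)) := by
        rw [← Real.exp_add]; ring_nf
      have h1 : 2 * (t - t₀) + 1 ≤ Real.exp (2 * (t - t₀)) := Real.add_one_le_exp _
      have h2 := mul_le_mul_of_nonneg_left h1 (Real.exp_pos (2 * t₀)).le
      rw [← e1] at h2
      linarith
    intro t
    rw [prof_exp_of_le κ h0]
    rcases le_total t 0 with h1 | h1
    · rw [prof_exp_of_le κ h1]; exact hneg t h1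
    · rw [prof_exp_of_ge κ h1]
      have h2 := hneg 0 le_rfl
      rw [mul_zero, Real.exp_zero] at h2
      have h3 : Real.exp (2 * t₀) / 2 ≤ κ := by
        have : Real.exp (2 * t₀) ≤ 1 := by rw [Real.exp_le_one_iff]; linarith
        linarith
      have h4 := mul_le_mul_of_nonneg_right h3 h1
      linarith
  · refine ⟨κ, by linarith, ?_⟩
    intro t
    rw [prof_exp_of_ge κ h0]
    rcases le_total t 0 with h1 | h1
    · rw [prof_exp_of_le κ h1]
      have h2 : 2 * t + 1 ≤ Real.exp (2 * t) := Real.add_one_le_exp _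
      nlinarith
    · rw [prof_exp_of_ge κ h1]
      linarith

/-- The function `u_κ`. -/
noncomputable def uK (n : ℕ) (κ : ℝ) (z : Cn n) : ℝ := prof κ (‖z‖ ^ 2)

theorem continuous_uK (κ : ℝ) : Continuous (uK n κ) :=
  (continuous_prof κ).comp (continuous_norm.pow 2)

theorem isPSH_uK {κ : ℝ} (hκ : 1 / 2 ≤ κ) : IsPSH univ (fun z => ((uK n κ z : ℝ) : EReal)) :=
  isPSH_radial (continuous_prof κ).continuousOn (fun _ _ _ h => prof_mono (by linarith) h)
    (prof_sub hκ)

/-- The compact set of the example. -/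
def exK (n : ℕ) : Set (Cn n) := Metric.closedBall 0 1

/-- The domain of the example. -/
def exD (n : ℕ) : Set (Cn n) := Metric.ball 0 (Real.exp 1)

/-- The weight of the example. -/
noncomputable def exQ (n : ℕ) (z : Cn n) : ℝ := (‖z‖ ^ 2 - 3) / 4

theorem mem_exK {z : Cn n} : z ∈ exK n ↔ ‖z‖ ≤ 1 := mem_closedBall_zero_iff

theorem mem_exD {z : Cn n} : z ∈ exD n ↔ ‖z‖ < Real.exp 1 := mem_ball_zero_iff

theorem uK_of_le (κ : ℝ) {z : Cn n} (h : ‖z‖ ≤ 1) : uK n κ z = exQ n z :=
  prof_of_le κ (pow_le_one₀ (norm_nonneg _) h)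

theorem uK_of_ge (κ : ℝ) {z : Cn n} (h : 1 ≤ ‖z‖) :
    uK n κ z = κ * Real.log ‖z‖ - 1 / 2 := by
  unfold uK
  rw [prof_of_ge κ (one_le_pow₀ h), Real.log_pow]
  push_cast
  ring

/-- A bound from the annulus lemma: for `u` psh on `D`, `u ≤ Q` on the unit sphere. -/
theorem annulus_bound {D : Set (Cn n)} {u : Cn n → EReal} (h : IsPSH D u)
    (huQ : ∀ w ∈ exK n, u w ≤ exQ n w) {z : Cn n} (hz : 1 < ‖z‖) {T B : ℝ}
    (hT : Real.log ‖z‖ < T) (hD : ∀ w : Cn n, ‖w‖ ≤ Real.exp T → w ∈ D)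
    (hB : ∀ w : Cn n, ‖w‖ = Real.exp T → u w ≤ B) :
    u z ≤ ((-1 / 2 + (B + 1 / 2) / T * Real.log ‖z‖ : ℝ) : EReal) := by
  have hz0 : 0 < ‖z‖ := by linarith
  have hlog : 0 < Real.log ‖z‖ := Real.log_pos hz
  have hT0 : 0 < T := hlog.trans hT
  have hzT : ‖z‖ < Real.exp T := by
    rw [← Real.exp_log hz0]; exact Real.exp_lt_exp.2 hT
  set e0 : Cn n := ((‖z‖ : ℂ)⁻¹) • z with he0
  have hne : (‖z‖ : ℂ) ≠ 0 := by exact_mod_cast hz0.ne'
  have he0n : ‖e0‖ = 1 := by
    rw [he0, norm_smul, norm_inv, Complex.norm_real, Real.norm_eq_abs, abs_of_pos hz0,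
      inv_mul_cancel₀ hz0.ne']
  have hn : ∀ ζ : ℂ, ‖ζ • e0‖ = ‖ζ‖ := fun ζ => by rw [norm_smul, he0n, mul_one]
  have h1 := h.annulus e0 (R := Real.exp T) (A := -1 / 2) (B := B)
    (by rw [Real.one_lt_exp_iff]; exact hT0)
    (fun ζ hζ => hD _ (by rw [hn]; exact hζ))
    (fun ζ hζ => by
      have h2 := huQ (ζ • e0) (mem_exK.2 (by rw [hn, hζ]))
      have h3 : exQ n (ζ • e0) = -1 / 2 := by
        unfold exQ; rw [hn, hζ]; norm_num
      rw [h3] at h2
      exact h2)
    (fun ζ hζ => hB _ (by rw [hn]; exact hζ))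
    (‖z‖ : ℂ) (by rw [Complex.norm_real, Real.norm_eq_abs, abs_of_pos hz0]; exact hz.le)
    (by rw [Complex.norm_real, Real.norm_eq_abs, abs_of_pos hz0]; exact hzT.le)
  have e1 : (‖z‖ : ℂ) • e0 = z := by
    rw [he0, smul_smul, mul_inv_cancel₀ hne, one_smul]
  rw [e1, Complex.norm_real, Real.norm_eq_abs, abs_of_pos hz0, Real.log_exp] at h1
  have e2 : -1 / 2 + (B - -1 / 2) / T * Real.log ‖z‖ =
      -1 / 2 + (B + 1 / 2) / T * Real.log ‖z‖ := by ring
  rwa [e2] at h1

theorem uK_one_mem_Lelong : (fun z : Cn n => ((uK n 1 z : ℝ) : EReal)) ∈ Lelong n := by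
  refine ⟨isPSH_uK (by norm_num), 0, fun z => ?_⟩
  have h : uK n 1 z ≤ Real.posLog ‖z‖ + 0 := by
    rcases le_total ‖z‖ 1 with h1 | h1
    · rw [uK_of_le 1 h1]
      have h2 : ‖z‖ ^ 2 ≤ 1 := pow_le_one₀ (norm_nonneg _) h1
      have h3 : 0 ≤ Real.posLog ‖z‖ := Real.posLog_nonneg
      unfold exQ
      linarith
    · rw [uK_of_ge 1 h1]
      have h3 : Real.posLog ‖z‖ = Real.log ‖z‖ := Real.posLog_eq_log (by rwa [abs_of_nonneg
        (norm_nonneg _)])
      rw [h3]
      linarith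
  exact EReal.coe_le_coe_iff.2 h

theorem extV_eq (z : Cn n) : extV (exK n) (exQ n) z = ((uK n 1 z : ℝ) : EReal) := by
  apply le_antisymm
  · apply sSup_le
    rintro x ⟨u, ⟨hpsh, C, hC⟩, huQ, rfl⟩
    rcases le_or_gt ‖z‖ 1 with h1 | h1
    · rw [uK_of_le 1 h1]
      exact huQ z (mem_exK.2 h1)
    · rw [uK_of_ge 1 h1.le]
      have hne := hpsh.ne_top z (mem_univ _)
      have hb : ∀ T : ℝ, Real.log ‖z‖ < T →
          u z ≤ ((-1 / 2 + (T + C + 1 / 2) / T * Real.log ‖z‖ : ℝ) : EReal) := by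
        intro T hT
        apply annulus_bound hpsh huQ h1 hT (fun _ _ => mem_univ _)
        intro w hw
        have h2 := hC w
        have h3 : Real.posLog ‖w‖ = T := by
          have hT0 : 0 < T := (Real.log_pos h1).trans hT
          rw [hw, Real.posLog_eq_log (by
            rw [abs_of_pos (Real.exp_pos T), Real.one_le_exp_iff]; exact hT0.le), Real.log_exp]
        rwa [h3] at h2
      induction hx : u z using EReal.rec with
      | bot => exact bot_le
      | top => exact absurd hx hne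
      | coe x =>
        rw [hx] at hb
        have hb' : ∀ T : ℝ, Real.log ‖z‖ < T →
            x ≤ -1 / 2 + (1 + (C + 1 / 2) / T) * Real.log ‖z‖ := by
          intro T hT
          have hT0 : 0 < T := (Real.log_pos h1).trans hT
          have h2 : x ≤ -1 / 2 + (T + C + 1 / 2) / T * Real.log ‖z‖ := by exact_mod_cast hb T hT
          have e1 : (T + C + 1 / 2) / T = 1 + (C + 1 / 2) / T := by field_simp; ring
          rwa [e1] at h2
        have hlim : Tendsto (fun T : ℝ => -1 / 2 + (1 + (C + 1 / 2) / T) * Real.log ‖z‖) atTop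
            (𝓝 (-1 / 2 + (1 + 0) * Real.log ‖z‖)) := by
          apply Tendsto.add tendsto_const_nhds
          apply Tendsto.mul _ tendsto_const_nhds
          exact tendsto_const_nhds.add (tendsto_const_nhds.div_atTop tendsto_id)
        have h3 := ge_of_tendsto hlim ((eventually_gt_atTop (Real.log ‖z‖)).mono hb')
        have h4 : x ≤ 1 * Real.log ‖z‖ - 1 / 2 := by linarith
        exact_mod_cast h4
  · apply le_sSup
    exact ⟨_, uK_one_mem_Lelong, fun w hw => by rw [uK_of_le 1 (mem_exK.1 hw)], rfl⟩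

theorem uK_half_neg {z : Cn n} (hz : z ∈ exD n) : uK n (1 / 2) z < 0 := by
  rw [mem_exD] at hz
  rcases le_total ‖z‖ 1 with h1 | h1
  · rw [uK_of_le _ h1]
    have h2 : ‖z‖ ^ 2 ≤ 1 := pow_le_one₀ (norm_nonneg _) h1
    unfold exQ
    linarith
  · rw [uK_of_ge _ h1]
    have h2 : Real.log ‖z‖ < 1 := by
      rw [← Real.log_exp 1]
      exact Real.log_lt_log (by linarith) hz
    linarith

theorem extU_eq {z : Cn n} (hz : z ∈ exD n) :
    extU (exD n) (exK n) (exQ n) z = ((uK n (1 / 2) z : ℝ) : EReal) := by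
  apply le_antisymm
  · apply sSup_le
    rintro x ⟨u, hpsh, hneg, huQ, rfl⟩
    rcases le_or_gt ‖z‖ 1 with h1 | h1
    · rw [uK_of_le _ h1]
      exact huQ z (mem_exK.2 h1)
    · rw [uK_of_ge _ h1.le]
      have hne := hpsh.ne_top z hz
      have hlz : Real.log ‖z‖ < 1 := by
        rw [← Real.log_exp 1]
        exact Real.log_lt_log (by linarith) (mem_exD.1 hz)
      have hb : ∀ T : ℝ, T ∈ Ioo (Real.log ‖z‖) 1 →
          u z ≤ ((-1 / 2 + (0 + 1 / 2) / T * Real.log ‖z‖ : ℝ) : EReal) := by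
        intro T hT
        have hsub : ∀ w : Cn n, ‖w‖ ≤ Real.exp T → w ∈ exD n := fun w hw =>
          mem_exD.2 (lt_of_le_of_lt hw (Real.exp_lt_exp.2 hT.2))
        apply annulus_bound hpsh huQ h1 hT.1 hsub
        intro w hw
        exact (hneg w (hsub w hw.le)).le
      induction hx : u z using EReal.rec with
      | bot => exact bot_le
      | top => exact absurd hx hne
      | coe x =>
        rw [hx] at hb
        have hb' : ∀ T : ℝ, T ∈ Ioo (Real.log ‖z‖) 1 →
            x ≤ -1 / 2 + (0 + 1 / 2) / T * Real.log ‖z‖ := by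
          intro T hT
          exact_mod_cast hb T hT
        have hlim : Tendsto (fun T : ℝ => -1 / 2 + (0 + 1 / 2) / T * Real.log ‖z‖) (𝓝[<] 1)
            (𝓝 (-1 / 2 + (0 + 1 / 2) / 1 * Real.log ‖z‖)) := by
          apply Tendsto.mono_left _ nhdsWithin_le_nhds
          have : ContinuousAt (fun T : ℝ => -1 / 2 + (0 + 1 / 2) / T * Real.log ‖z‖) 1 := by
            apply ContinuousAt.add continuousAt_const
            apply ContinuousAt.mul _ continuousAt_const
            exact continuousAt_const.div continuousAt_id one_ne_zero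
          exact this
        have h3 := ge_of_tendsto hlim (by
          filter_upwards [Ioo_mem_nhdsLT hlz] with T hT using hb' T hT)
        have h4 : x ≤ 1 / 2 * Real.log ‖z‖ - 1 / 2 := by linarith
        exact_mod_cast h4
  · apply le_sSup
    refine ⟨_, (isPSH_uK (by norm_num)).mono (subset_univ _), fun w hw => ?_, fun w hw => ?_, rfl⟩
    · exact_mod_cast uK_half_neg hw
    · rw [uK_of_le _ (mem_exK.1 hw)]

theorem uscReg_extV : uscReg (extV (exK n) (exQ n)) = fun z => ((uK n 1 z : ℝ) : EReal) := by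
  funext z
  unfold uscReg
  have e1 : extV (exK n) (exQ n) = fun z => ((uK n 1 z : ℝ) : EReal) := funext extV_eq
  rw [e1]
  exact ((continuous_coe_real_ereal.comp (continuous_uK 1)).tendsto z).limsup_eq

theorem isOpen_exD : IsOpen (exD n) := Metric.isOpen_ball

theorem uscReg_extU {z : Cn n} (hz : z ∈ exD n) :
    uscReg (extU (exD n) (exK n) (exQ n)) z = ((uK n (1 / 2) z : ℝ) : EReal) := by
  unfold uscReg
  have e1 : extU (exD n) (exK n) (exQ n) =ᶠ[𝓝 z] fun z => ((uK n (1 / 2) z : ℝ) : EReal) := by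
    filter_upwards [isOpen_exD.mem_nhds hz] with w hw using extU_eq hw
  rw [limsup_congr e1]
  exact ((continuous_coe_real_ereal.comp (continuous_uK (1 / 2))).tendsto z).limsup_eq

/-- The weight condition. -/
theorem isWeight_ex : IsWeight (exK n) (exQ n) := by
  have hneg : ∀ z ∈ exK n, exQ n z < 0 := by
    intro z hz
    have h2 : ‖z‖ ^ 2 ≤ 1 := pow_le_one₀ (norm_nonneg _) (mem_exK.1 hz)
    unfold exQ
    linarith
  refine ⟨?_, fun z hz => (hneg z hz).le, ?_⟩
  · have : Continuous (exQ n) := by unfold exQ; fun_prop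
    exact this.lowerSemicontinuous.lowerSemicontinuousOn _
  · have e1 : {z ∈ exK n | exQ n z < 0} = Metric.closedBall 0 1 := by
      ext z
      constructor
      · exact fun h => h.1
      · exact fun h => ⟨h, hneg z h⟩
    rw [e1]
    exact not_pluripolar_closedBall

/-- The hyperconvexity of the ball. -/
theorem isBddHyperconvex_ex : IsBddHyperconvex (exD n) := by
  refine ⟨isOpen_exD, ?_, Metric.isBounded_ball, fun z => ‖z‖ ^ 2 - Real.exp 1 ^ 2, by fun_prop,
    ?_, ?_, ?_⟩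
  · refine ⟨⟨0, mem_exD.2 (by rw [norm_zero]; exact Real.exp_pos 1)⟩, ?_⟩
    exact (convex_ball (0 : Cn n) (Real.exp 1)).isPreconnected
  · have h1 : IsPSH (univ : Set (Cn n)) (fun z => ((‖z‖ ^ 2 - Real.exp 1 ^ 2 : ℝ) : EReal)) := by
      apply isPSH_radial (f := fun s => s - Real.exp 1 ^ 2) (by fun_prop)
      · intro s t _ h
        linarith
      · intro t₀
        refine ⟨2 * Real.exp (2 * t₀), by positivity, fun t => ?_⟩
        have e1 : Real.exp (2 * t) = Real.exp (2 * t₀) * Real.exp (2 * (t - t₀)) := by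
          rw [← Real.exp_add]; ring_nf
        have h1 : 2 * (t - t₀) + 1 ≤ Real.exp (2 * (t - t₀)) := Real.add_one_le_exp _
        have h2 := mul_le_mul_of_nonneg_left h1 (Real.exp_pos (2 * t₀)).le
        rw [← e1] at h2
        linarith
    exact h1.mono (subset_univ _)
  · intro z hz
    have := mem_exD.1 hz
    have h2 : ‖z‖ ^ 2 < Real.exp 1 ^ 2 := by gcongr
    linarith
  · intro c hc
    have e1 : {z ∈ exD n | ‖z‖ ^ 2 - Real.exp 1 ^ 2 ≤ c} =
        {z : Cn n | ‖z‖ ^ 2 - Real.exp 1 ^ 2 ≤ c} := by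
      ext z
      constructor
      · exact fun h => h.2
      · intro h
        refine ⟨mem_exD.2 ?_, h⟩
        have h3 : ‖z‖ ^ 2 - Real.exp 1 ^ 2 ≤ c := h
        have h4 : ‖z‖ ^ 2 < Real.exp 1 ^ 2 := by linarith
        exact lt_of_pow_lt_pow_left₀ 2 (Real.exp_pos 1).le h4
    rw [e1]
    apply IsCompact.of_isClosed_subset (isCompact_closedBall (0 : Cn n) (Real.exp 1))
    · exact isClosed_le (by fun_prop) continuous_const
    · intro z h
      rw [mem_closedBall_zero_iff]
      have h3 : ‖z‖ ^ 2 - Real.exp 1 ^ 2 ≤ c := h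
      have h4 : ‖z‖ ^ 2 < Real.exp 1 ^ 2 := by linarith
      exact (lt_of_pow_lt_pow_left₀ 2 (Real.exp_pos 1).le h4).le

end Pool.Agent.H48.Psh
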