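import Mathlib
import Pool.Agent.H48.Psh5

/-!
# The smooth approximants of the radial functions
-/

namespace Pool.Agent.H48.Psh

open MeasureTheory Filter Topology Set
open scoped ContDiff

/-- The cutoff: `0` for `s ≤ 1 - 1/(j+2)` and `1` for `s ≥ 1`. -/
noncomputable def th (j : ℕ) (s : ℝ) : ℝ := Real.smoothTransition (((j : ℝ) + 2) * (s - 1) + 1)

theorem th_zero {j : ℕ} {s : ℝ} (h : s ≤ 1 - 1 / ((j : ℝ) + 2)) : th j s = 0 := by
  apply Real.smoothTransition.zero_of_nonpos
  have h0 : (0 : ℝ) < (j : ℝ) + 2 := by positivity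
  have h1 : ((j : ℝ) + 2) * (s - 1) ≤ ((j : ℝ) + 2) * (-(1 / ((j : ℝ) + 2))) :=
    mul_le_mul_of_nonneg_left (by linarith) h0.le
  have h2 : ((j : ℝ) + 2) * (-(1 / ((j : ℝ) + 2))) = -1 := by field_simp
  linarith

theorem th_zero' {j : ℕ} {s : ℝ} (h : s ≤ 1 / 2) : th j s = 0 := by
  apply th_zero
  have h1 : 1 / ((j : ℝ) + 2) ≤ 1 / 2 := by
    apply one_div_le_one_div_of_le two_pos
    have : (0 : ℝ) ≤ j := Nat.cast_nonneg j
    linarith
  linarith

theorem th_one {j : ℕ} {s : ℝ} (h : 1 ≤ s) : th j s = 1 := by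
  apply Real.smoothTransition.one_of_one_le
  have : 0 ≤ ((j : ℝ) + 2) * (s - 1) := mul_nonneg (by positivity) (by linarith)
  linarith

theorem th_nonneg (j : ℕ) (s : ℝ) : 0 ≤ th j s := Real.smoothTransition.nonneg _

theorem th_le_one (j : ℕ) (s : ℝ) : th j s ≤ 1 := Real.smoothTransition.le_one _

theorem th_mono (j : ℕ) : Monotone (th j) := by
  intro s t h
  apply Real.smoothTransition.monotone
  have := mul_le_mul_of_nonneg_left (sub_le_sub_right h 1) (by positivity : 0 ≤ (j : ℝ) + 2)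
  linarith

theorem th_anti {s : ℝ} (h : s ≤ 1) (j : ℕ) : th (j + 1) s ≤ th j s := by
  apply Real.smoothTransition.monotone
  push_cast
  nlinarith

theorem contDiff_th (j : ℕ) : ContDiff ℝ ∞ (th j) := by
  unfold th
  exact Real.smoothTransition.contDiff.comp (by fun_prop)

/-- The derivative of the approximant. -/
noncomputable def kk (κ : ℝ) (j : ℕ) (s : ℝ) : ℝ := 1 / 4 + th j s * (κ / (2 * s) - 1 / 4)

/-- `s` times the derivative of the approximant. -/
noncomputable def hh (κ : ℝ) (j : ℕ) (s : ℝ) : ℝ := (1 - th j s) * s / 4 + th j s * κ / 2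

theorem hh_eq (κ : ℝ) (j : ℕ) (s : ℝ) : hh κ j s = s * kk κ j s := by
  unfold hh kk
  by_cases hs : s = 0
  · rw [hs, th_zero' (by norm_num)]; ring
  · field_simp
    ring

theorem contDiff_kk (κ : ℝ) (j : ℕ) : ContDiff ℝ ∞ (kk κ j) := by
  rw [contDiff_iff_contDiffAt]
  intro s
  rcases lt_or_ge s (1 / 2) with h | h
  · have h1 : kk κ j =ᶠ[𝓝 s] fun _ => 1 / 4 := by
      filter_upwards [Iio_mem_nhds h] with t ht
      unfold kk
      rw [th_zero' (le_of_lt ht), zero_mul, add_zero]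
    exact contDiffAt_const.congr_of_eventuallyEq h1
  · unfold kk
    apply ContDiffAt.add contDiffAt_const
    apply ContDiffAt.mul (contDiff_th j).contDiffAt
    apply ContDiffAt.sub _ contDiffAt_const
    apply ContDiffAt.div contDiffAt_const (by fun_prop)
    have : (0 : ℝ) < 2 * s := by linarith
    exact this.ne'

theorem kk_of_le {κ : ℝ} {j : ℕ} {s : ℝ} (h : s ≤ 1 - 1 / ((j : ℝ) + 2)) : kk κ j s = 1 / 4 := by
  unfold kk
  rw [th_zero h, zero_mul, add_zero]

theorem kk_of_ge {κ : ℝ} {j : ℕ} {s : ℝ} (h : 1 ≤ s) : kk κ j s = κ / (2 * s) := by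
  unfold kk
  rw [th_one h, one_mul]
  ring

theorem hh_of_le {κ : ℝ} {j : ℕ} {s : ℝ} (h : s ≤ 1 - 1 / ((j : ℝ) + 2)) : hh κ j s = s / 4 := by
  unfold hh
  rw [th_zero h]
  ring

theorem hh_of_ge {κ : ℝ} {j : ℕ} {s : ℝ} (h : 1 ≤ s) : hh κ j s = κ / 2 := by
  unfold hh
  rw [th_one h]
  ring

theorem kk_pos {κ : ℝ} (hκ : 0 < κ) (j : ℕ) {s : ℝ} (hs : 0 ≤ s) : 0 < kk κ j s := by
  rcases hs.eq_or_lt with h | h
  · rw [← h]
    unfold kk
    rw [th_zero' (by norm_num)]
    norm_num
  · have e1 : kk κ j s = (1 - th j s) * (1 / 4) + th j s * (κ / (2 * s)) := by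
      unfold kk; ring
    rw [e1]
    have h1 := th_nonneg j s
    have h2 := th_le_one j s
    have h3 : 0 < κ / (2 * s) := by positivity
    rcases h2.eq_or_lt with h4 | h4
    · rw [h4]; linarith
    · have h5 : 0 < (1 - th j s) * (1 / 4) := by
        apply mul_pos <;> linarith
      have h6 : 0 ≤ th j s * (κ / (2 * s)) := mul_nonneg h1 h3.le
      linarith

theorem hh_mono {κ : ℝ} (hκ : 1 / 2 ≤ κ) (j : ℕ) : Monotone (hh κ j) := by
  intro s t h
  have e1 : hh κ j t - hh κ j s =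
      (1 - th j t) * (t - s) / 4 + (th j t - th j s) * (κ / 2 - s / 4) := by
    unfold hh; ring
  have h1 := th_mono j h
  have h2 := th_le_one j t
  have h3 : 0 ≤ (1 - th j t) * (t - s) / 4 := by
    apply div_nonneg _ (by norm_num)
    exact mul_nonneg (by linarith) (by linarith)
  rcases le_or_gt s 1 with h4 | h4
  · have h5 : 0 ≤ (th j t - th j s) * (κ / 2 - s / 4) := mul_nonneg (by linarith) (by linarith)
    linarith
  · have h5 : th j s = 1 := th_one h4.le
    have h6 : th j t = 1 := th_one (h4.le.trans h)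
    rw [h5, h6, sub_self, zero_mul] at e1
    rw [h6] at h3
    linarith

/-- The approximant. -/
noncomputable def ff (κ : ℝ) (j : ℕ) (s : ℝ) : ℝ := -3 / 4 + ∫ t in (0 : ℝ)..s, kk κ j t

theorem hasDerivAt_ff (κ : ℝ) (j : ℕ) (s : ℝ) : HasDerivAt (ff κ j) (kk κ j s) s := by
  unfold ff
  have hc := (contDiff_kk κ j).continuous
  apply HasDerivAt.const_add
  exact intervalIntegral.integral_hasDerivAt_right (hc.intervalIntegrable _ _)
    (hc.stronglyMeasurableAtFilter _ _) hc.continuousAt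

theorem contDiff_ff (κ : ℝ) (j : ℕ) : ContDiff ℝ ∞ (ff κ j) := by
  rw [contDiff_infty_iff_deriv]
  refine ⟨fun s => (hasDerivAt_ff κ j s).differentiableAt, ?_⟩
  have e1 : deriv (ff κ j) = kk κ j := funext fun s => (hasDerivAt_ff κ j s).deriv
  rw [e1]
  exact contDiff_kk κ j

theorem ff_mono {κ : ℝ} (hκ : 0 < κ) (j : ℕ) {s t : ℝ} (hs : 0 ≤ s) (h : s ≤ t) :
    ff κ j s ≤ ff κ j t := by
  have hc := (contDiff_kk κ j).continuous
  have e1 : ff κ j t - ff κ j s = ∫ x in s..t, kk κ j x := by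
    unfold ff
    rw [← intervalIntegral.integral_add_adjacent_intervals (hc.intervalIntegrable 0 s)
      (hc.intervalIntegrable s t)]
    ring
  have h1 : 0 ≤ ∫ x in s..t, kk κ j x :=
    intervalIntegral.integral_nonneg h fun x hx => (kk_pos hκ j (hs.trans hx.1)).le
  linarith

theorem ff_sub {κ : ℝ} (hκ : 1 / 2 ≤ κ) (j : ℕ) (t₀ : ℝ) : ∃ m : ℝ, 0 ≤ m ∧ ∀ t : ℝ,
    ff κ j (Real.exp (2 * t₀)) + m * (t - t₀) ≤ ff κ j (Real.exp (2 * t)) := by
  have hκ0 : 0 < κ := by linarith
  -- the function in logarithmic coordinates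
  set φ : ℝ → ℝ := fun t => ff κ j (Real.exp (2 * t)) with hφ
  have hder : ∀ t, HasDerivAt φ (2 * hh κ j (Real.exp (2 * t))) t := by
    intro t
    have h1 : HasDerivAt (fun t : ℝ => Real.exp (2 * t)) (Real.exp (2 * t) * 2) t := by
      have := ((hasDerivAt_id t).const_mul (2 : ℝ)).exp
      simpa using this
    have h2 := (hasDerivAt_ff κ j (Real.exp (2 * t))).comp t h1
    have e1 : kk κ j (Real.exp (2 * t)) * (Real.exp (2 * t) * 2) =
        2 * hh κ j (Real.exp (2 * t)) := by rw [hh_eq]; ring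
    rw [e1] at h2
    exact h2
  have hdiff : Differentiable ℝ φ := fun t => (hder t).differentiableAt
  have hmono : Monotone (deriv φ) := by
    intro s t h
    rw [(hder s).deriv, (hder t).deriv]
    have : Real.exp (2 * s) ≤ Real.exp (2 * t) := Real.exp_le_exp.2 (by linarith)
    linarith [hh_mono hκ j this]
  have hconv : ConvexOn ℝ univ φ := hmono.convexOn_univ_of_deriv hdiff
  refine ⟨2 * hh κ j (Real.exp (2 * t₀)), ?_, fun t => ?_⟩
  · rw [hh_eq]
    have := kk_pos hκ0 j (Real.exp_pos (2 * t₀)).le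
    positivity
  · change φ t₀ + 2 * hh κ j (Real.exp (2 * t₀)) * (t - t₀) ≤ φ t
    rcases lt_trichotomy t₀ t with h | h | h
    · have h1 := hconv.le_slope_of_hasDerivAt (mem_univ _) (mem_univ _) h (hder t₀)
      rw [slope_def_field, le_div_iff₀ (by linarith)] at h1
      linarith
    · rw [h]; linarith
    · have h1 := hconv.slope_le_of_hasDerivAt (mem_univ _) (mem_univ _) h (hder t₀)
      rw [slope_def_field, div_le_iff₀ (by linarith)] at h1
      linarith

theorem kk_anti {κ : ℝ} (hκ : 1 / 2 ≤ κ) (j : ℕ) {s : ℝ} (hs : 0 ≤ s) :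
    kk κ (j + 1) s ≤ kk κ j s := by
  rcases le_or_gt s 1 with h1 | h1
  · rcases hs.eq_or_lt with h | h
    · rw [← h]
      unfold kk
      rw [th_zero' (by norm_num), th_zero' (by norm_num)]
    · unfold kk
      have h2 := th_anti h1 j
      have h3 : 0 ≤ κ / (2 * s) - 1 / 4 := by
        have : 1 / 4 ≤ κ / (2 * s) := by
          rw [le_div_iff₀ (by linarith)]
          linarith
        linarith
      have := mul_le_mul_of_nonneg_right h2 h3
      linarith
  · rw [kk_of_ge h1.le, kk_of_ge h1.le]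

theorem ff_anti {κ : ℝ} (hκ : 1 / 2 ≤ κ) (j : ℕ) {s : ℝ} (hs : 0 ≤ s) :
    ff κ (j + 1) s ≤ ff κ j s := by
  unfold ff
  have h1 : ∫ t in (0 : ℝ)..s, kk κ (j + 1) t ≤ ∫ t in (0 : ℝ)..s, kk κ j t :=
    intervalIntegral.integral_mono_on hs
      ((contDiff_kk κ (j + 1)).continuous.intervalIntegrable _ _)
      ((contDiff_kk κ j).continuous.intervalIntegrable _ _)
      fun t ht => kk_anti hκ j ht.1
  linarith

theorem th_tendsto {s : ℝ} (hs : s < 1) : Tendsto (fun j => th j s) atTop (𝓝 0) := by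
  have h1 : Tendsto (fun j : ℕ => 1 / ((j : ℝ) + 2)) atTop (𝓝 0) := by
    have h2 : Tendsto (fun j : ℕ => (j : ℝ) + 2) atTop atTop :=
      tendsto_atTop_add_const_right _ _ tendsto_natCast_atTop_atTop
    exact tendsto_const_nhds.div_atTop h2
  have h2 : ∀ᶠ j : ℕ in atTop, 1 / ((j : ℝ) + 2) < 1 - s :=
    h1.eventually (gt_mem_nhds (by linarith))
  apply tendsto_const_nhds.congr'
  filter_upwards [h2] with j hj
  exact (th_zero (by linarith)).symm

theorem ff_tendsto_le {κ : ℝ} (hκ : 1 / 2 ≤ κ) {s : ℝ} (hs : 0 ≤ s) (hs1 : s ≤ 1) :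
    Tendsto (fun j => ff κ j s) atTop (𝓝 ((s - 3) / 4)) := by
  have h1 : Tendsto (fun j => ∫ t in (0 : ℝ)..s, kk κ j t) atTop
      (𝓝 (∫ _t in (0 : ℝ)..s, (1 / 4 : ℝ))) := by
    apply intervalIntegral.tendsto_integral_filter_of_dominated_convergence
      (fun _ => kk κ 0 0 + (κ + 1))
    · exact Eventually.of_forall fun j =>
        (contDiff_kk κ j).continuous.aestronglyMeasurable
    · apply Eventually.of_forall
      intro j
      apply Eventually.of_forall
      intro t ht
      rw [uIoc_of_le hs] at ht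
      have h0 : kk κ 0 0 = 1 / 4 := by unfold kk; rw [th_zero' (by norm_num)]; ring
      rw [h0, Real.norm_eq_abs, abs_of_pos (kk_pos (by linarith) j ht.1.le)]
      unfold kk
      have h2 : th j t * (κ / (2 * t) - 1 / 4) ≤ κ + 1 := by
        rcases le_or_gt t (1 / 2) with h3 | h3
        · rw [th_zero' h3]; linarith
        · have h4 : κ / (2 * t) ≤ κ := by
            apply div_le_self (by linarith)
            linarith
          have h5 : 0 < κ / (2 * t) := div_pos (by linarith) (by linarith)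
          have h6 := th_nonneg j t
          have h7 := th_le_one j t
          nlinarith
      linarith
    · exact intervalIntegrable_const
    · have hae : ∀ᵐ t : ℝ, t ≠ 1 := by
        rw [ae_iff]
        simp
      filter_upwards [hae] with t ht1 ht
      rw [uIoc_of_le hs] at ht
      have h2 : t < 1 := lt_of_le_of_ne (ht.2.trans hs1) ht1
      have h3 := ((th_tendsto h2).mul_const (κ / (2 * t) - 1 / 4)).const_add (1 / 4)
      rw [zero_mul, add_zero] at h3
      exact h3
  rw [intervalIntegral.integral_const, smul_eq_mul] at h1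
  have h2 := h1.const_add (-3 / 4)
  have e1 : -3 / 4 + (s - 0) * (1 / 4) = (s - 3) / 4 := by ring
  rw [e1] at h2
  exact h2

theorem ff_of_ge (κ : ℝ) (j : ℕ) {s : ℝ} (hs : 1 ≤ s) :
    ff κ j s = ff κ j 1 + κ / 2 * Real.log s := by
  have hc := (contDiff_kk κ j).continuous
  have e1 : ff κ j s - ff κ j 1 = ∫ x in (1 : ℝ)..s, kk κ j x := by
    unfold ff
    rw [← intervalIntegral.integral_add_adjacent_intervals (hc.intervalIntegrable 0 1)
      (hc.intervalIntegrable 1 s)]
    ring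
  have e2 : ∫ x in (1 : ℝ)..s, kk κ j x = ∫ x in (1 : ℝ)..s, κ / 2 * (1 / x) := by
    apply intervalIntegral.integral_congr
    intro x hx
    rw [uIcc_of_le hs] at hx
    change kk κ j x = κ / 2 * (1 / x)
    rw [kk_of_ge hx.1]
    have : x ≠ 0 := by linarith [hx.1]
    field_simp
  have e3 : ∫ x in (1 : ℝ)..s, κ / 2 * (1 / x) = κ / 2 * Real.log s := by
    rw [intervalIntegral.integral_const_mul, integral_one_div_of_pos one_pos (by linarith),
      div_one]
  linarith

theorem ff_tendsto {κ : ℝ} (hκ : 1 / 2 ≤ κ) {s : ℝ} (hs : 0 ≤ s) :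
    Tendsto (fun j => ff κ j s) atTop (𝓝 (prof κ s)) := by
  rcases le_or_gt s 1 with h1 | h1
  · rw [prof_of_le κ h1]
    exact ff_tendsto_le hκ hs h1
  · rw [prof_of_ge κ h1.le]
    have h2 := (ff_tendsto_le hκ zero_le_one le_rfl).add_const (κ / 2 * Real.log s)
    have e1 : (1 - 3) / 4 + κ / 2 * Real.log s = κ / 2 * Real.log s - 1 / 2 := by ring
    rw [e1] at h2
    apply h2.congr
    intro j
    rw [ff_of_ge κ j h1.le]

end Pool.Agent.H48.Psh
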