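import Mathlib
import Pool.Agent.H48.Psh6

/-!
# The Monge-Ampere density of a smooth radial function
-/

namespace Pool.Agent.H48.Psh

open MeasureTheory Filter Topology Set
open scoped ContDiff

variable {n : ℕ}

theorem hasFDerivAt_radial {f k : ℝ → ℝ} (hf : ∀ s, HasDerivAt f (k s) s) (z : Cn n) :
    HasFDerivAt (fun w : Cn n => f (‖w‖ ^ 2)) (k (‖z‖ ^ 2) • (2 • innerSL ℝ z)) z :=
  (hf (‖z‖ ^ 2)).comp_hasFDerivAt z (hasStrictFDerivAt_norm_sq z).hasFDerivAt

theorem fderiv_radial_apply {f k : ℝ → ℝ} (hf : ∀ s, HasDerivAt f (k s) s) (z b : Cn n) :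
    fderiv ℝ (fun w : Cn n => f (‖w‖ ^ 2)) z b = k (‖z‖ ^ 2) * (2 * inner ℝ z b) := by
  rw [(hasFDerivAt_radial hf z).fderiv]
  simp [two_mul]

theorem fderiv2_apply {v : Cn n → ℝ} (hv : ContDiff ℝ ∞ v) (z a b : Cn n) :
    fderiv ℝ (fderiv ℝ v) z a b = fderiv ℝ (fun w => fderiv ℝ v w b) z a := by
  have h1 : Differentiable ℝ (fderiv ℝ v) :=
    (contDiff_infty_iff_fderiv.1 hv).2.differentiable (by simp)
  rw [fderiv_clm_apply h1.differentiableAt (differentiableAt_const b)]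
  simp

theorem fderiv2_radial {f k k' : ℝ → ℝ} (hf : ∀ s, HasDerivAt f (k s) s)
    (hk : ∀ s, HasDerivAt k (k' s) s) (hv : ContDiff ℝ ∞ (fun w : Cn n => f (‖w‖ ^ 2)))
    (z a b : Cn n) :
    fderiv ℝ (fderiv ℝ (fun w : Cn n => f (‖w‖ ^ 2))) z a b =
      4 * k' (‖z‖ ^ 2) * inner ℝ z a * inner ℝ z b + 2 * k (‖z‖ ^ 2) * inner ℝ a b := by
  rw [fderiv2_apply hv]
  have e1 : (fun w => fderiv ℝ (fun w : Cn n => f (‖w‖ ^ 2)) w b) =
      fun w => k (‖w‖ ^ 2) * (2 * inner ℝ w b) := funext fun w => fderiv_radial_apply hf w b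
  rw [e1]
  have h1 := hasFDerivAt_radial hk z
  have h2 : HasFDerivAt (fun w : Cn n => (inner ℝ w b : ℝ)) (innerSL ℝ b) z := by
    have h3 : (fun w : Cn n => (inner ℝ w b : ℝ)) = fun w => innerSL ℝ b w := by
      funext w
      rw [innerSL_apply_apply, real_inner_comm]
    rw [h3]
    exact (innerSL ℝ b).hasFDerivAt
  have h4 : HasFDerivAt (fun w : Cn n => k (‖w‖ ^ 2) * (2 * inner ℝ w b))
      (k (‖z‖ ^ 2) • ((2 : ℝ) • innerSL ℝ b) +
        (2 * inner ℝ z b) • (k' (‖z‖ ^ 2) • (2 • innerSL ℝ z))) z := h1.mul (h2.const_mul 2)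
  rw [h4.fderiv]
  simp only [_root_.add_apply, _root_.smul_apply, innerSL_apply_apply,
    smul_eq_mul, nsmul_eq_mul]
  rw [real_inner_comm b a]
  push_cast
  ring

theorem inner_single (z : Cn n) (j : Fin n) :
    inner ℝ z (EuclideanSpace.single j (1 : ℂ)) = (z j).re := by
  rw [PiLp.inner_apply, Finset.sum_eq_single j]
  · simp [Complex.inner]
  · intro i _ hi
    simp [hi]
  · simp

theorem inner_I_single (z : Cn n) (j : Fin n) :
    inner ℝ z (Complex.I • EuclideanSpace.single j (1 : ℂ)) = (z j).im := by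
  rw [PiLp.inner_apply, Finset.sum_eq_single j]
  · simp [Complex.inner]
  · intro i _ hi
    simp [hi]
  · simp

theorem complexHessian_radial {f k k' : ℝ → ℝ} (hf : ∀ s, HasDerivAt f (k s) s)
    (hk : ∀ s, HasDerivAt k (k' s) s) (hv : ContDiff ℝ ∞ (fun w : Cn n => f (‖w‖ ^ 2)))
    (z : Cn n) (i j : Fin n) :
    complexHessian (fun w : Cn n => f (‖w‖ ^ 2)) z i j =
      (k (‖z‖ ^ 2) : ℂ) * (if i = j then 1 else 0) +
        (k' (‖z‖ ^ 2) : ℂ) * ((starRingEnd ℂ) (z i) * z j) := by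
  unfold complexHessian
  simp only [fderiv2_radial hf hk hv]
  simp only [inner_single, inner_I_single]
  have h1 : ((EuclideanSpace.single i (1 : ℂ) : Cn n) j).re = if i = j then 1 else 0 := by
    rw [PiLp.single_apply]
    by_cases h : i = j
    · simp [h]
    · simp [h, Ne.symm h]
  have h2 : ((EuclideanSpace.single i (1 : ℂ) : Cn n) j).im = 0 := by
    rw [PiLp.single_apply]
    by_cases h : j = i <;> simp [h]
  have h3 : ((Complex.I • EuclideanSpace.single i (1 : ℂ) : Cn n) j).re = 0 := by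
    rw [PiLp.smul_apply, PiLp.single_apply]
    by_cases h : j = i <;> simp [h]
  have h4 : ((Complex.I • EuclideanSpace.single i (1 : ℂ) : Cn n) j).im =
      if i = j then 1 else 0 := by
    rw [PiLp.smul_apply, PiLp.single_apply]
    by_cases h : i = j
    · simp [h]
    · simp [h, Ne.symm h]
  rw [h1, h2, h3, h4]
  apply Complex.ext
  · by_cases h : i = j
    · simp [h]; ring
    · simp [h]; ring
  · by_cases h : i = j
    · simp [h]; ring
    · simp [h]; ring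

theorem det_radial (hn : 1 ≤ n) (a b : ℝ) (ha : a ≠ 0) (z : Cn n) :
    (Matrix.of fun i j : Fin n => (a : ℂ) * (if i = j then 1 else 0) +
        (b : ℂ) * ((starRingEnd ℂ) (z i) * z j)).det =
      ((a ^ n + a ^ (n - 1) * b * ‖z‖ ^ 2 : ℝ) : ℂ) := by
  have ha' : (a : ℂ) ≠ 0 := by exact_mod_cast ha
  have e1 : (Matrix.of fun i j : Fin n => (a : ℂ) * (if i = j then 1 else 0) +
      (b : ℂ) * ((starRingEnd ℂ) (z i) * z j)) =
      (a : ℂ) • (1 + Matrix.replicateCol Unit (fun i => (b : ℂ) / a * (starRingEnd ℂ) (z i)) *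
        Matrix.replicateRow Unit (fun j => z j)) := by
    ext i j
    simp only [Matrix.of_apply, Matrix.smul_apply, Matrix.add_apply, Matrix.mul_apply,
      Matrix.replicateCol_apply, Matrix.replicateRow_apply, smul_eq_mul, Finset.univ_unique,
      Finset.sum_singleton, Matrix.one_apply]
    field_simp
  rw [e1, Matrix.det_smul, Matrix.det_one_add_replicateCol_mul_replicateRow, Fintype.card_fin]
  have e2 : (fun j => z j) ⬝ᵥ (fun i => (b : ℂ) / a * (starRingEnd ℂ) (z i)) =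
      (b : ℂ) / a * ((‖z‖ ^ 2 : ℝ) : ℂ) := by
    rw [EuclideanSpace.norm_sq_eq]
    simp only [dotProduct]
    push_cast
    rw [Finset.mul_sum]
    apply Finset.sum_congr rfl
    intro i _
    have h1 : z i * (starRingEnd ℂ) (z i) = ((‖z i‖ ^ 2 : ℝ) : ℂ) := by
      rw [Complex.mul_conj, Complex.normSq_eq_norm_sq]
    calc z i * ((b : ℂ) / a * (starRingEnd ℂ) (z i)) =
        (b : ℂ) / a * (z i * (starRingEnd ℂ) (z i)) := by ring
      _ = _ := by rw [h1]; push_cast; ring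
  rw [e2]
  obtain ⟨m, rfl⟩ : ∃ m, n = m + 1 := ⟨n - 1, by omega⟩
  simp only [Nat.add_sub_cancel]
  push_cast
  field_simp
  ring

theorem maDensity_radial (hn : 1 ≤ n) {f k k' : ℝ → ℝ} (hf : ∀ s, HasDerivAt f (k s) s)
    (hk : ∀ s, HasDerivAt k (k' s) s) (hv : ContDiff ℝ ∞ (fun w : Cn n => f (‖w‖ ^ 2)))
    (z : Cn n) (hz : k (‖z‖ ^ 2) ≠ 0) :
    maDensity (fun w : Cn n => f (‖w‖ ^ 2)) z =
      4 ^ n * n.factorial * (k (‖z‖ ^ 2) ^ n + k (‖z‖ ^ 2) ^ (n - 1) * k' (‖z‖ ^ 2) * ‖z‖ ^ 2) := by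
  unfold maDensity
  have e1 : complexHessian (fun w : Cn n => f (‖w‖ ^ 2)) z =
      Matrix.of fun i j : Fin n => (k (‖z‖ ^ 2) : ℂ) * (if i = j then 1 else 0) +
        (k' (‖z‖ ^ 2) : ℂ) * ((starRingEnd ℂ) (z i) * z j) := by
    ext i j
    rw [complexHessian_radial hf hk hv]
    rfl
  rw [e1, det_radial hn _ _ hz, Complex.ofReal_re]

end Pool.Agent.H48.Psh
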