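import Mathlib
import Pool.Agent.H48.Psh7

/-!
# Weak limits of the Monge-Ampere densities of the approximants
-/

namespace Pool.Agent.H48.Psh

open MeasureTheory Filter Topology Set
open scoped ContDiff

variable {n : ℕ}

theorem hasDerivAt_kk (κ : ℝ) (j : ℕ) (s : ℝ) : HasDerivAt (kk κ j) (deriv (kk κ j) s) s :=
  ((contDiff_kk κ j).differentiable (by simp)).differentiableAt.hasDerivAt

theorem hasDerivAt_hh (κ : ℝ) (j : ℕ) (s : ℝ) :
    HasDerivAt (hh κ j) (kk κ j s + s * deriv (kk κ j) s) s := by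
  have h1 : HasDerivAt (fun s => s * kk κ j s) (1 * kk κ j s + s * deriv (kk κ j) s) s :=
    (hasDerivAt_id s).mul (hasDerivAt_kk κ j s)
  have e1 : hh κ j = fun s => s * kk κ j s := funext fun s => hh_eq κ j s
  rw [e1]
  rwa [one_mul] at h1

/-- The Monge-Ampere density of the approximants, as a function of the radius. -/
noncomputable def GG (n : ℕ) (κ : ℝ) (j : ℕ) (r : ℝ) : ℝ :=
  4 ^ n * n.factorial *
    (kk κ j (r ^ 2) ^ n + kk κ j (r ^ 2) ^ (n - 1) * deriv (kk κ j) (r ^ 2) * r ^ 2)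

theorem continuous_GG (n : ℕ) (κ : ℝ) (j : ℕ) : Continuous (GG n κ j) := by
  have h1 := (contDiff_kk κ j).continuous
  have h2 : Continuous (deriv (kk κ j)) := (contDiff_kk κ j).continuous_deriv (by simp)
  unfold GG
  fun_prop

theorem GG_eq (hn : 1 ≤ n) (κ : ℝ) (j : ℕ) (r : ℝ) : GG n κ j r =
    4 ^ n * n.factorial * (kk κ j (r ^ 2) ^ (n - 1) *
      (kk κ j (r ^ 2) + r ^ 2 * deriv (kk κ j) (r ^ 2))) := by
  obtain ⟨m, rfl⟩ : ∃ m, n = m + 1 := ⟨n - 1, by omega⟩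
  unfold GG
  simp only [Nat.add_sub_cancel]
  ring

theorem GG_nonneg (hn : 1 ≤ n) {κ : ℝ} (hκ : 1 / 2 ≤ κ) (j : ℕ) (r : ℝ) : 0 ≤ GG n κ j r := by
  rw [GG_eq hn]
  have h1 : 0 ≤ kk κ j (r ^ 2) + r ^ 2 * deriv (kk κ j) (r ^ 2) := by
    rw [← (hasDerivAt_hh κ j (r ^ 2)).deriv]
    exact (hh_mono hκ j).deriv_nonneg
  have h2 : 0 < kk κ j (r ^ 2) := kk_pos (by linarith) j (by positivity)
  positivity

theorem GG_of_lt (κ : ℝ) (j : ℕ) {r : ℝ} (hr : r ^ 2 < 1 - 1 / ((j : ℝ) + 2)) :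
    GG n κ j r = n.factorial := by
  have h1 : kk κ j =ᶠ[𝓝 (r ^ 2)] fun _ => 1 / 4 := by
    filter_upwards [Iio_mem_nhds hr] with t ht using kk_of_le (le_of_lt ht)
  unfold GG
  rw [h1.deriv_eq, deriv_const, h1.eq_of_nhds, mul_zero, zero_mul, add_zero]
  rw [mul_right_comm, ← mul_pow]
  norm_num

theorem GG_of_gt (hn : 1 ≤ n) (κ : ℝ) (j : ℕ) {r : ℝ} (hr : 1 < r) : GG n κ j r = 0 := by
  have hr2 : 1 < r ^ 2 := by nlinarith
  have h1 : hh κ j =ᶠ[𝓝 (r ^ 2)] fun _ => κ / 2 := by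
    filter_upwards [Ioi_mem_nhds hr2] with t ht using hh_of_ge (le_of_lt ht)
  have h2 : kk κ j (r ^ 2) + r ^ 2 * deriv (kk κ j) (r ^ 2) = 0 := by
    rw [← (hasDerivAt_hh κ j (r ^ 2)).deriv, h1.deriv_eq, deriv_const]
  rw [GG_eq hn, h2, mul_zero, mul_zero]

/-- The total mass function. -/
noncomputable def psi (n : ℕ) (κ : ℝ) (j : ℕ) (r : ℝ) : ℝ :=
  4 ^ n * (n - 1).factorial / 2 * hh κ j (r ^ 2) ^ n

theorem hasDerivAt_psi (hn : 1 ≤ n) (κ : ℝ) (j : ℕ) (r : ℝ) :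
    HasDerivAt (psi n κ j) (r ^ (2 * n - 1) * GG n κ j r) r := by
  have h1 : HasDerivAt (fun r : ℝ => r ^ 2) (2 * r) r := by
    simpa using hasDerivAt_pow 2 r
  have h2 := (((hasDerivAt_hh κ j (r ^ 2)).comp r h1).pow n).const_mul
    ((4 : ℝ) ^ n * (n - 1).factorial / 2)
  have h3 : HasDerivAt (psi n κ j) _ r := h2
  convert h3 using 1
  obtain ⟨m, rfl⟩ : ∃ m, n = m + 1 := ⟨n - 1, by omega⟩
  rw [GG_eq hn]
  simp only [Nat.add_sub_cancel, Function.comp_apply]
  rw [hh_eq, Nat.factorial_succ]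
  have e1 : 2 * (m + 1) - 1 = 2 * m + 1 := by omega
  rw [e1]
  push_cast
  ring

theorem intervalIntegral_GG (hn : 1 ≤ n) (κ : ℝ) (j : ℕ) :
    ∫ y in (0 : ℝ)..1, y ^ (2 * n - 1) * GG n κ j y =
      4 ^ n * (n - 1).factorial / 2 * (κ / 2) ^ n := by
  rw [intervalIntegral.integral_eq_sub_of_hasDerivAt (fun x _ => hasDerivAt_psi hn κ j x)]
  · unfold psi
    have h0 : hh κ j (0 ^ 2) = 0 := by rw [hh_eq]; ring
    have h1 : hh κ j (1 ^ 2) = κ / 2 := hh_of_ge (by norm_num)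
    rw [h0, h1, zero_pow (by omega), mul_zero, sub_zero]
  · exact ((continuous_pow _).mul (continuous_GG n κ j)).intervalIntegrable _ _

/-- The polar coordinate formula for a product. -/
theorem polar_prod (hn : 1 ≤ n) (χ : Cn n → ℝ) (G : ℝ → ℝ) :
    ∫ z : Cn n, χ (‖z‖⁻¹ • z) * G ‖z‖ =
      (∫ w : Metric.sphere (0 : Cn n) 1, χ w ∂(volume : Measure (Cn n)).toSphere) *
        ∫ y in Ioi (0 : ℝ), y ^ (2 * n - 1) * G y := by
  have hdim : Module.finrank ℝ (Cn n) = 2 * n := by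
    have := Module.finrank_mul_finrank ℝ ℂ (Cn n)
    rw [finrank_euclideanSpace_fin, Complex.finrank_real_complex] at this
    exact this.symm
  have : Nontrivial (Cn n) := by
    apply Module.nontrivial_of_finrank_pos (R := ℝ)
    rw [hdim]; omega
  calc ∫ z : Cn n, χ (‖z‖⁻¹ • z) * G ‖z‖
      = ∫ z : ({(0 : Cn n)}ᶜ : Set (Cn n)), χ (‖z.1‖⁻¹ • z.1) * G ‖z.1‖
          ∂((volume : Measure (Cn n)).comap (↑)) := by
        rw [integral_subtype_comap (measurableSet_singleton _).compl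
          fun z : Cn n => χ (‖z‖⁻¹ • z) * G ‖z‖, restrict_compl_singleton]
    _ = ∫ p : Metric.sphere (0 : Cn n) 1 × Ioi (0 : ℝ), χ p.1 * G p.2
          ∂((volume : Measure (Cn n)).toSphere.prod
            (Measure.volumeIoiPow (Module.finrank ℝ (Cn n) - 1))) := by
        have h1 := (volume : Measure (Cn n)).measurePreserving_homeomorphUnitSphereProd.integral_comp
          (Homeomorph.measurableEmbedding _)
          (fun p : Metric.sphere (0 : Cn n) 1 × Ioi (0 : ℝ) => χ p.1 * G p.2)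
        rw [← h1]
        simp only [homeomorphUnitSphereProd_apply_fst_coe, homeomorphUnitSphereProd_apply_snd_coe]
    _ = (∫ w : Metric.sphere (0 : Cn n) 1, χ w ∂(volume : Measure (Cn n)).toSphere) *
          ∫ x : Ioi (0 : ℝ), G x ∂(Measure.volumeIoiPow (Module.finrank ℝ (Cn n) - 1)) :=
        integral_prod_mul (fun w : Metric.sphere (0 : Cn n) 1 => χ w) (fun x : Ioi (0 : ℝ) => G x)
    _ = _ := by
        congr 1
        simp only [Measure.volumeIoiPow, ENNReal.ofReal]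
        rw [integral_withDensity_eq_integral_smul,
          integral_subtype_comap measurableSet_Ioi
            fun a => Real.toNNReal (a ^ (Module.finrank ℝ (Cn n) - 1)) • G a,
          setIntegral_congr_fun measurableSet_Ioi fun x hx => ?_]
        · rw [NNReal.smul_def, Real.coe_toNNReal _ (pow_nonneg hx.out.le _), hdim, smul_eq_mul]
        · exact (measurable_subtype_coe.pow_const _).real_toNNReal

end Pool.Agent.H48.Psh
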