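import Mathlib
import Pool.Agent.H48.Psh8

/-!
# Weak limits of the Monge-Ampere densities of the approximants, continued
-/

namespace Pool.Agent.H48.Psh

open MeasureTheory Filter Topology Set

variable {n : ℕ}

/-- The limiting density. -/
noncomputable def Ginf (n : ℕ) (r : ℝ) : ℝ := if r < 1 then (n.factorial : ℝ) else 0

/-- The mass coefficient on the sphere. -/
noncomputable def cK (n : ℕ) (κ : ℝ) : ℝ := (n - 1).factorial / 2 * ((2 * κ) ^ n - 1)

theorem integral_Ioi_GG (hn : 1 ≤ n) (κ : ℝ) (j : ℕ) :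
    ∫ y in Ioi (0 : ℝ), y ^ (2 * n - 1) * GG n κ j y =
      4 ^ n * (n - 1).factorial / 2 * (κ / 2) ^ n := by
  rw [← intervalIntegral_GG hn κ j, intervalIntegral.integral_of_le zero_le_one]
  apply setIntegral_eq_of_subset_of_forall_sdiff_eq_zero measurableSet_Ioi Ioc_subset_Ioi_self
  intro x hx
  have h1 : 1 < x := by
    by_contra h
    exact hx.2 ⟨hx.1, not_lt.1 h⟩
  rw [GG_of_gt hn κ j h1, mul_zero]

theorem integral_Ioi_Ginf (hn : 1 ≤ n) :
    ∫ y in Ioi (0 : ℝ), y ^ (2 * n - 1) * Ginf n y = (n - 1).factorial / 2 := by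
  have h1 : ∫ y in Ioi (0 : ℝ), y ^ (2 * n - 1) * Ginf n y =
      ∫ y in Ioo (0 : ℝ) 1, y ^ (2 * n - 1) * Ginf n y := by
    apply setIntegral_eq_of_subset_of_forall_sdiff_eq_zero measurableSet_Ioi Ioo_subset_Ioi_self
    intro x hx
    have h1 : ¬ x < 1 := fun h => hx.2 ⟨hx.1, h⟩
    unfold Ginf
    rw [if_neg h1, mul_zero]
  have h2 : ∫ y in Ioo (0 : ℝ) 1, y ^ (2 * n - 1) * Ginf n y =
      ∫ y in Ioo (0 : ℝ) 1, y ^ (2 * n - 1) * (n.factorial : ℝ) := by
    apply setIntegral_congr_fun measurableSet_Ioo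
    intro x hx
    change x ^ (2 * n - 1) * Ginf n x = x ^ (2 * n - 1) * (n.factorial : ℝ)
    unfold Ginf
    rw [if_pos hx.2]
  rw [h1, h2, ← integral_Ioc_eq_integral_Ioo, ← intervalIntegral.integral_of_le zero_le_one,
    intervalIntegral.integral_mul_const, integral_pow]
  obtain ⟨m, rfl⟩ : ∃ m, n = m + 1 := ⟨n - 1, by omega⟩
  have e1 : 2 * (m + 1) - 1 = 2 * m + 1 := by omega
  rw [e1, Nat.add_sub_cancel, Nat.factorial_succ]
  push_cast
  have : (m : ℝ) + 1 ≠ 0 := by positivity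
  have h3 : (2 * (m : ℝ) + 1 + 1) ≠ 0 := by positivity
  simp only [one_pow, ne_eq, Nat.add_eq_zero_iff, one_ne_zero, and_false, not_false_eq_true,
    zero_pow, sub_zero]
  field_simp
  ring

theorem integrable_GG (hn : 1 ≤ n) (κ : ℝ) (j : ℕ) :
    Integrable (fun z : Cn n => GG n κ j ‖z‖) := by
  apply Continuous.integrable_of_hasCompactSupport
  · exact (continuous_GG n κ j).comp continuous_norm
  · apply HasCompactSupport.intro (isCompact_closedBall (0 : Cn n) 1)
    intro z hz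
    rw [mem_closedBall_zero_iff, not_le] at hz
    exact GG_of_gt hn κ j hz

theorem Ginf_indicator (z : Cn n) :
    Ginf n ‖z‖ = (Metric.ball (0 : Cn n) 1).indicator (fun _ => (n.factorial : ℝ)) z := by
  unfold Ginf
  by_cases h : ‖z‖ < 1
  · rw [if_pos h, indicator_of_mem (mem_ball_zero_iff.2 h)]
  · rw [if_neg h, indicator_of_notMem (fun h' => h (mem_ball_zero_iff.1 h'))]

theorem integrable_Ginf : Integrable (fun z : Cn n => Ginf n ‖z‖) := by
  have e1 : (fun z : Cn n => Ginf n ‖z‖) =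
      (Metric.ball (0 : Cn n) 1).indicator (fun _ => (n.factorial : ℝ)) :=
    funext Ginf_indicator
  rw [e1, integrable_indicator_iff measurableSet_ball]
  exact integrableOn_const (measure_ball_lt_top.ne)

theorem GG_sub_Ginf (hn : 1 ≤ n) (κ : ℝ) (j : ℕ) {r : ℝ}
    (h : GG n κ j r - Ginf n r ≠ 0) : 1 - 1 / ((j : ℝ) + 2) ≤ r ^ 2 ∧ r ≤ 1 := by
  constructor
  · by_contra h1
    rw [not_le] at h1
    apply h
    have h2 : r < 1 := by
      by_contra h3
      rw [not_lt] at h3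
      have h4 : 1 ≤ r ^ 2 := by nlinarith
      have h5 : 0 ≤ 1 / ((j : ℝ) + 2) := by positivity
      linarith
    rw [GG_of_lt κ j h1]
    unfold Ginf
    rw [if_pos h2, sub_self]
  · by_contra h1
    rw [not_le] at h1
    apply h
    rw [GG_of_gt hn κ j h1]
    unfold Ginf
    rw [if_neg (by linarith), sub_self]

theorem weak_limit (hn : 1 ≤ n) {κ : ℝ} (hκ : 1 / 2 ≤ κ) {χ : Cn n → ℝ} (hχ : Continuous χ)
    (hc : HasCompactSupport χ) :
    Tendsto (fun j => ∫ z, χ z * GG n κ j ‖z‖) atTop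
      (𝓝 (n.factorial * (∫ z in Metric.ball 0 1, χ z) +
        cK n κ * ∫ w : Metric.sphere (0 : Cn n) 1, χ w ∂(volume : Measure (Cn n)).toSphere)) := by
  obtain ⟨M, hM⟩ := hc.exists_bound_of_continuous hχ
  have hχm : AEStronglyMeasurable χ := hχ.aestronglyMeasurable
  have htm : AEStronglyMeasurable (fun z : Cn n => χ (‖z‖⁻¹ • z)) := by
    apply Measurable.aestronglyMeasurable
    exact hχ.measurable.comp (measurable_norm.inv.smul measurable_id)
  have hD : ∀ j, Integrable (fun z : Cn n => GG n κ j ‖z‖ - Ginf n ‖z‖) := fun j =>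
    (integrable_GG hn κ j).sub integrable_Ginf
  -- the three product integrals
  have hA : ∀ j, Integrable (fun z : Cn n => χ z * (GG n κ j ‖z‖ - Ginf n ‖z‖)) := fun j =>
    (hD j).bdd_mul hχm (Eventually.of_forall hM)
  have hB : ∀ j, Integrable (fun z : Cn n => χ (‖z‖⁻¹ • z) * (GG n κ j ‖z‖ - Ginf n ‖z‖)) :=
    fun j => (hD j).bdd_mul htm (Eventually.of_forall fun z => hM _)
  have hC : Integrable (fun z : Cn n => χ z * Ginf n ‖z‖) :=
    integrable_Ginf.bdd_mul hχm (Eventually.of_forall hM)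
  have e1 : n.factorial * (∫ z in Metric.ball (0 : Cn n) 1, χ z) =
      ∫ z : Cn n, χ z * Ginf n ‖z‖ := by
    rw [← integral_const_mul, ← integral_indicator measurableSet_ball]
    apply integral_congr_ae
    apply Eventually.of_forall
    intro z
    change _ = χ z * Ginf n ‖z‖
    rw [Ginf_indicator]
    by_cases h : z ∈ Metric.ball (0 : Cn n) 1
    · rw [indicator_of_mem h, indicator_of_mem h]; ring
    · rw [indicator_of_notMem h, indicator_of_notMem h]; ring
  have e2 : ∀ j, cK n κ * ∫ w : Metric.sphere (0 : Cn n) 1, χ w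
      ∂(volume : Measure (Cn n)).toSphere =
      ∫ z : Cn n, χ (‖z‖⁻¹ • z) * (GG n κ j ‖z‖ - Ginf n ‖z‖) := by
    intro j
    rw [polar_prod hn χ (fun r => GG n κ j r - Ginf n r)]
    have e3 : ∫ y in Ioi (0 : ℝ), y ^ (2 * n - 1) * (GG n κ j y - Ginf n y) = cK n κ := by
      have h1 : ∫ y in Ioi (0 : ℝ), y ^ (2 * n - 1) * (GG n κ j y - Ginf n y) =
          (∫ y in Ioi (0 : ℝ), y ^ (2 * n - 1) * GG n κ j y) -
            ∫ y in Ioi (0 : ℝ), y ^ (2 * n - 1) * Ginf n y := by
        rw [← integral_sub]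
        · apply integral_congr_ae
          apply Eventually.of_forall
          intro y
          change y ^ (2 * n - 1) * (GG n κ j y - Ginf n y) =
            y ^ (2 * n - 1) * GG n κ j y - y ^ (2 * n - 1) * Ginf n y
          ring
        · have h2 : IntegrableOn (fun y : ℝ => y ^ (2 * n - 1) * GG n κ j y) (Icc 0 1) :=
            ((continuous_pow _).mul (continuous_GG n κ j)).continuousOn.integrableOn_Icc
          have h3 : IntegrableOn (fun y : ℝ => y ^ (2 * n - 1) * GG n κ j y) (Ioi 0) := by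
            apply h2.of_forall_sdiff_eq_zero measurableSet_Ioi
            intro x hx
            have h4 : 1 < x := by
              by_contra h
              exact hx.2 ⟨le_of_lt hx.1, not_lt.1 h⟩
            rw [GG_of_gt hn κ j h4, mul_zero]
          exact h3
        · have h2 : IntegrableOn (fun y : ℝ => y ^ (2 * n - 1) * Ginf n y) (Ioo 0 1) := by
            have h5 : IntegrableOn (fun y : ℝ => y ^ (2 * n - 1) * (n.factorial : ℝ)) (Ioo 0 1) :=
              (((continuous_pow _).mul continuous_const).continuousOn.integrableOn_Icc).mono_set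
                Ioo_subset_Icc_self
            apply h5.congr_fun _ measurableSet_Ioo
            intro x hx
            change x ^ (2 * n - 1) * (n.factorial : ℝ) = x ^ (2 * n - 1) * Ginf n x
            unfold Ginf
            rw [if_pos hx.2]
          have h3 : IntegrableOn (fun y : ℝ => y ^ (2 * n - 1) * Ginf n y) (Ioi 0) := by
            apply h2.of_forall_sdiff_eq_zero measurableSet_Ioi
            intro x hx
            have h4 : ¬ x < 1 := fun h => hx.2 ⟨hx.1, h⟩
            unfold Ginf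
            rw [if_neg h4, mul_zero]
          exact h3
      rw [h1, integral_Ioi_GG hn, integral_Ioi_Ginf hn]
      unfold cK
      have e4 : (2 * κ) ^ n = 4 ^ n * (κ / 2) ^ n := by
        rw [← mul_pow]; congr 1; ring
      rw [e4]
      ring
    rw [e3]
    ring
  -- the difference
  have e5 : ∀ j, (∫ z, χ z * GG n κ j ‖z‖) - (n.factorial * (∫ z in Metric.ball 0 1, χ z) +
        cK n κ * ∫ w : Metric.sphere (0 : Cn n) 1, χ w ∂(volume : Measure (Cn n)).toSphere) =
      ∫ z : Cn n, (χ z - χ (‖z‖⁻¹ • z)) * (GG n κ j ‖z‖ - Ginf n ‖z‖) := by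
    intro j
    have h1 : ∫ z, χ z * GG n κ j ‖z‖ = (∫ z : Cn n, χ z * (GG n κ j ‖z‖ - Ginf n ‖z‖)) +
        ∫ z : Cn n, χ z * Ginf n ‖z‖ := by
      rw [← integral_add (hA j) hC]
      apply integral_congr_ae
      apply Eventually.of_forall
      intro z
      change χ z * GG n κ j ‖z‖ = χ z * (GG n κ j ‖z‖ - Ginf n ‖z‖) + χ z * Ginf n ‖z‖
      ring
    have h2 : ∫ z : Cn n, (χ z - χ (‖z‖⁻¹ • z)) * (GG n κ j ‖z‖ - Ginf n ‖z‖) =
        (∫ z : Cn n, χ z * (GG n κ j ‖z‖ - Ginf n ‖z‖)) -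
          ∫ z : Cn n, χ (‖z‖⁻¹ • z) * (GG n κ j ‖z‖ - Ginf n ‖z‖) := by
      rw [← integral_sub (hA j) (hB j)]
      apply integral_congr_ae
      apply Eventually.of_forall
      intro z
      change (χ z - χ (‖z‖⁻¹ • z)) * (GG n κ j ‖z‖ - Ginf n ‖z‖) =
        χ z * (GG n κ j ‖z‖ - Ginf n ‖z‖) - χ (‖z‖⁻¹ • z) * (GG n κ j ‖z‖ - Ginf n ‖z‖)
      ring
    rw [h1, h2, e1, e2 j]
    ring
  -- the mass bound
  set C : ℝ := (∫ _w : Metric.sphere (0 : Cn n) 1, (1 : ℝ) ∂(volume : Measure (Cn n)).toSphere) *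
    (4 ^ n * (n - 1).factorial / 2 * (κ / 2) ^ n) + ∫ z : Cn n, Ginf n ‖z‖ with hCdef
  have hmass : ∀ j, ∫ z : Cn n, |GG n κ j ‖z‖ - Ginf n ‖z‖| ≤ C := by
    intro j
    have h1 : ∫ z : Cn n, GG n κ j ‖z‖ =
        (∫ _w : Metric.sphere (0 : Cn n) 1, (1 : ℝ) ∂(volume : Measure (Cn n)).toSphere) *
          (4 ^ n * (n - 1).factorial / 2 * (κ / 2) ^ n) := by
      rw [← integral_Ioi_GG hn κ j, ← polar_prod hn (fun _ => (1 : ℝ)) (GG n κ j)]
      simp only [one_mul]
    rw [hCdef, ← h1, ← integral_add (integrable_GG hn κ j) integrable_Ginf]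
    apply integral_mono (hD j).abs ((integrable_GG hn κ j).add integrable_Ginf)
    intro z
    change |GG n κ j ‖z‖ - Ginf n ‖z‖| ≤ GG n κ j ‖z‖ + Ginf n ‖z‖
    have h2 := GG_nonneg hn hκ j ‖z‖
    have h3 : 0 ≤ Ginf n ‖z‖ := by
      unfold Ginf
      split_ifs
      · positivity
      · exact le_rfl
    rw [abs_le]
    constructor <;> linarith
  have hC0 : 0 ≤ C := le_trans (integral_nonneg fun _ => abs_nonneg _) (hmass 0)
  rw [Metric.tendsto_atTop]
  intro ε hε
  have hunif := Metric.uniformContinuous_iff.1 (hc.uniformContinuous_of_continuous hχ)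
    (ε / (C + 1)) (by positivity)
  obtain ⟨δ, hδ, hδ'⟩ := hunif
  obtain ⟨N, hN⟩ := exists_nat_gt (1 / δ)
  refine ⟨N, fun j hj => ?_⟩
  rw [Real.dist_eq, e5 j]
  have hjδ : 1 / ((j : ℝ) + 2) < δ := by
    rw [div_lt_iff₀ (by positivity)]
    have h1 : (N : ℝ) ≤ j := by exact_mod_cast hj
    have h2 : 1 < N * δ := by rwa [div_lt_iff₀ hδ] at hN
    nlinarith
  have hpt : ∀ z : Cn n, |(χ z - χ (‖z‖⁻¹ • z)) * (GG n κ j ‖z‖ - Ginf n ‖z‖)| ≤
      ε / (C + 1) * |GG n κ j ‖z‖ - Ginf n ‖z‖| := by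
    intro z
    rw [abs_mul]
    by_cases h0 : GG n κ j ‖z‖ - Ginf n ‖z‖ = 0
    · rw [h0, abs_zero, mul_zero, mul_zero]
    · obtain ⟨h1, h2⟩ := GG_sub_Ginf hn κ j h0
      apply mul_le_mul_of_nonneg_right _ (abs_nonneg _)
      have h3 : 0 < ‖z‖ := by
        have h4 : 1 / ((j : ℝ) + 2) ≤ 1 / 2 := by
          apply one_div_le_one_div_of_le two_pos
          have : (0 : ℝ) ≤ j := Nat.cast_nonneg j
          linarith
        rcases (norm_nonneg z).eq_or_lt with h5 | h5
        · exfalso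
          rw [← h5, zero_pow two_ne_zero] at h1
          linarith
        · exact h5
      have h4 : dist z (‖z‖⁻¹ • z) < δ := by
        rw [dist_eq_norm]
        have e6 : z - ‖z‖⁻¹ • z = (1 - ‖z‖⁻¹) • z := by rw [sub_smul, one_smul]
        rw [e6, norm_smul, Real.norm_eq_abs]
        have h5 : |1 - ‖z‖⁻¹| * ‖z‖ = 1 - ‖z‖ := by
          have h6 : 1 ≤ ‖z‖⁻¹ := (one_le_inv₀ h3).2 h2
          rw [abs_of_nonpos (by linarith), neg_sub, sub_mul, inv_mul_cancel₀ h3.ne', one_mul]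
        rw [h5]
        nlinarith
      have h5 := hδ' h4
      rw [Real.dist_eq] at h5
      exact h5.le
  calc |∫ z : Cn n, (χ z - χ (‖z‖⁻¹ • z)) * (GG n κ j ‖z‖ - Ginf n ‖z‖)|
      ≤ ∫ z : Cn n, |(χ z - χ (‖z‖⁻¹ • z)) * (GG n κ j ‖z‖ - Ginf n ‖z‖)| :=
        abs_integral_le_integral_abs
    _ ≤ ∫ z : Cn n, ε / (C + 1) * |GG n κ j ‖z‖ - Ginf n ‖z‖| := by
        apply integral_mono_of_nonneg
        · exact Eventually.of_forall fun z => abs_nonneg _
        · exact (hD j).abs.const_mul _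
        · exact Eventually.of_forall hpt
    _ = ε / (C + 1) * ∫ z : Cn n, |GG n κ j ‖z‖ - Ginf n ‖z‖| := integral_const_mul _ _
    _ ≤ ε / (C + 1) * C := mul_le_mul_of_nonneg_left (hmass j) (by positivity)
    _ < ε := by
        rw [div_mul_eq_mul_div, div_lt_iff₀ (by positivity)]
        nlinarith

end Pool.Agent.H48.Psh
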