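import Mathlib
import Pool.Agent.H48.Psh9

/-!
# The Monge-Ampere measures of the example
-/

namespace Pool.Agent.H48.Psh

open MeasureTheory Filter Topology Set
open scoped ContDiff

variable {n : ℕ}

/-- The measure `n! λ` on the unit ball plus a multiple of the surface measure. -/
noncomputable def mK (n : ℕ) (κ : ℝ) : Measure (Cn n) :=
  (n.factorial : NNReal) • (volume.restrict (Metric.ball (0 : Cn n) 1)) +
    (cK n κ).toNNReal • ((volume : Measure (Cn n)).toSphere.map Subtype.val)

theorem cK_nonneg {κ : ℝ} (hκ : 1 / 2 ≤ κ) : 0 ≤ cK n κ := by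
  unfold cK
  have h1 : (1 : ℝ) ≤ (2 * κ) ^ n := one_le_pow₀ (by linarith)
  apply mul_nonneg (by positivity)
  linarith

theorem cK_half : cK n (1 / 2) = 0 := by
  unfold cK
  norm_num

theorem cK_one_pos (hn : 1 ≤ n) : 0 < cK n 1 := by
  unfold cK
  have h1 : (1 : ℝ) < (2 * 1) ^ n := one_lt_pow₀ (by norm_num) (by omega)
  apply mul_pos (by positivity)
  linarith

instance isFiniteMeasure_mK (κ : ℝ) : IsFiniteMeasure (mK n κ) := by
  unfold mK
  have h1 : IsFiniteMeasure (volume.restrict (Metric.ball (0 : Cn n) 1)) :=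
    ⟨by rw [Measure.restrict_apply_univ]; exact measure_ball_lt_top⟩
  infer_instance

theorem measurable_val : Measurable (Subtype.val : Metric.sphere (0 : Cn n) 1 → Cn n) :=
  measurable_subtype_coe

theorem sphere_map_apply_eq_zero {A : Set (Cn n)} (hA : MeasurableSet A)
    (h : Disjoint A (Metric.sphere (0 : Cn n) 1)) :
    ((volume : Measure (Cn n)).toSphere.map Subtype.val) A = 0 := by
  rw [Measure.map_apply measurable_val hA]
  have e1 : (Subtype.val : Metric.sphere (0 : Cn n) 1 → Cn n) ⁻¹' A = ∅ := by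
    ext w
    simp only [mem_preimage, mem_empty_iff_false, iff_false]
    exact fun hw => (disjoint_left.1 h) hw w.2
  rw [e1, measure_empty]

theorem mK_compl (κ : ℝ) : mK n κ (Metric.closedBall (0 : Cn n) 1)ᶜ = 0 := by
  have hm : MeasurableSet (Metric.closedBall (0 : Cn n) 1)ᶜ := measurableSet_closedBall.compl
  unfold mK
  rw [Measure.add_apply, Measure.smul_apply, Measure.smul_apply, Measure.restrict_apply hm,
    sphere_map_apply_eq_zero hm]
  · have e1 : (Metric.closedBall (0 : Cn n) 1)ᶜ ∩ Metric.ball (0 : Cn n) 1 = ∅ := by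
      rw [← disjoint_iff_inter_eq_empty, disjoint_compl_left_iff_subset]
      exact Metric.ball_subset_closedBall
    rw [e1, measure_empty, smul_zero, smul_zero, add_zero]
  · rw [disjoint_compl_left_iff_subset]
    exact Metric.sphere_subset_closedBall

theorem integral_mK {κ : ℝ} (hκ : 1 / 2 ≤ κ) {χ : Cn n → ℝ} (hχ : Continuous χ)
    (hc : HasCompactSupport χ) :
    ∫ z, χ z ∂(mK n κ) = n.factorial * (∫ z in Metric.ball 0 1, χ z) +
        cK n κ * ∫ w : Metric.sphere (0 : Cn n) 1, χ w ∂(volume : Measure (Cn n)).toSphere := by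
  obtain ⟨M, hM⟩ := hc.exists_bound_of_continuous hχ
  have h1 : Integrable χ (volume.restrict (Metric.ball (0 : Cn n) 1)) :=
    (hχ.integrable_of_hasCompactSupport hc).integrableOn
  have h2 : Integrable χ ((volume : Measure (Cn n)).toSphere.map Subtype.val) := by
    rw [integrable_map_measure hχ.aestronglyMeasurable measurable_val.aemeasurable]
    exact Integrable.of_bound (hχ.comp continuous_subtype_val).aestronglyMeasurable M
      (Eventually.of_forall fun w => hM _)
  unfold mK
  rw [integral_add_measure (h1.smul_measure_nnreal) (h2.smul_measure_nnreal),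
    integral_smul_nnreal_measure, integral_smul_nnreal_measure,
    integral_map measurable_val.aemeasurable hχ.aestronglyMeasurable,
    NNReal.smul_def, NNReal.smul_def, Real.coe_toNNReal _ (cK_nonneg hκ)]
  simp

/-- The Monge-Ampere measure of `u_κ`. -/
theorem isMongeAmpere_mK (hn : 1 ≤ n) {κ : ℝ} (hκ : 1 / 2 ≤ κ) {D : Set (Cn n)}
    (hD : Metric.closedBall (0 : Cn n) 1 ⊆ D) {u : Cn n → EReal}
    (hu : ∀ z ∈ D, u z = ((uK n κ z : ℝ) : EReal)) : IsMongeAmpere D u (mK n κ) := by
  refine ⟨?_, ?_, ?_⟩
  · exact measure_mono_null (compl_subset_compl.2 hD) (mK_compl κ)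
  · intro L _ _
    exact measure_lt_top _ _
  · intro G _ _ hGD
    have hGD' : G ⊆ D := subset_closure.trans hGD
    have hsm : ∀ j, ContDiff ℝ ∞ (fun z : Cn n => ff κ j (‖z‖ ^ 2)) := fun j =>
      (contDiff_ff κ j).comp (contDiff_norm_sq ℝ)
    refine ⟨fun j z => ff κ j (‖z‖ ^ 2), fun j => (hsm j).contDiffOn, fun j => ?_, fun z _ => ?_,
      fun z hz => ?_, fun χ hχ hc hG => ?_⟩
    · exact (isPSH_radial (contDiff_ff κ j).continuous.continuousOn
        (fun s t hs h => ff_mono (by linarith) j hs h) (ff_sub hκ j)).mono (subset_univ _)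
    · exact antitone_nat_of_succ_le fun j => ff_anti hκ j (by positivity)
    · rw [hu z (hGD' hz)]
      exact (continuous_coe_real_ereal.tendsto _).comp (ff_tendsto hκ (by positivity))
    · have e1 : ∀ j, ∫ z in G, χ z * maDensity (fun z : Cn n => ff κ j (‖z‖ ^ 2)) z =
          ∫ z, χ z * GG n κ j ‖z‖ := by
        intro j
        have e2 : ∀ z : Cn n, maDensity (fun z : Cn n => ff κ j (‖z‖ ^ 2)) z = GG n κ j ‖z‖ := by
          intro z
          exact maDensity_radial hn (hasDerivAt_ff κ j) (hasDerivAt_kk κ j) (hsm j) z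
            (kk_pos (by linarith) j (by positivity)).ne'
        simp_rw [e2]
        apply setIntegral_eq_integral_of_forall_compl_eq_zero
        intro z hz
        have h3 : χ z = 0 := by
          by_contra h4
          exact hz (hG (subset_tsupport χ h4))
        rw [h3, zero_mul]
      simp_rw [e1]
      rw [integral_mK hκ hχ.continuous hc]
      exact weak_limit hn hκ hχ.continuous hc

/-- The support of the measure. -/
theorem support_mK (hn : 1 ≤ n) (κ : ℝ) :
    (mK n κ).support = Metric.closedBall (0 : Cn n) 1 := by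
  apply Subset.antisymm
  · apply Measure.support_subset_of_isClosed Metric.isClosed_closedBall
    exact mem_ae_iff.2 (mK_compl κ)
  · intro x hx
    rw [Measure.mem_support_iff_forall]
    intro U hU
    obtain ⟨V, hVU, hVo, hxV⟩ := mem_nhds_iff.1 hU
    have h1 : x ∈ closure (Metric.ball (0 : Cn n) 1) := by
      have : Nontrivial (Cn n) := by
        apply Module.nontrivial_of_finrank_pos (R := ℂ)
        rw [finrank_euclideanSpace_fin]; omega
      rw [closure_ball _ one_ne_zero]
      exact hx
    obtain ⟨y, hyV, hyB⟩ := mem_closure_iff.1 h1 V hVo hxV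
    have h2 : 0 < (volume : Measure (Cn n)) (V ∩ Metric.ball 0 1) :=
      (hVo.inter Metric.isOpen_ball).measure_pos _ ⟨y, hyV, hyB⟩
    refine lt_of_lt_of_le ?_ (measure_mono hVU)
    unfold mK
    rw [Measure.add_apply]
    refine lt_of_lt_of_le ?_ (le_self_add)
    rw [Measure.smul_apply, Measure.restrict_apply hVo.measurableSet]
    rw [ENNReal.smul_def, smul_eq_mul]
    apply ENNReal.mul_pos _ h2.ne'
    simp [Nat.factorial_ne_zero]

theorem mK_half_sphere : mK n (1 / 2) (Metric.sphere (0 : Cn n) 1) = 0 := by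
  unfold mK
  rw [cK_half, Real.toNNReal_zero, zero_smul, add_zero, Measure.smul_apply,
    Measure.restrict_apply Metric.isClosed_sphere.measurableSet]
  have e1 : Metric.sphere (0 : Cn n) 1 ∩ Metric.ball (0 : Cn n) 1 = ∅ := by
    rw [inter_comm]
    exact disjoint_iff_inter_eq_empty.1 Metric.sphere_disjoint_ball.symm
  rw [e1, measure_empty, smul_zero]

theorem mK_one_sphere (hn : 1 ≤ n) : mK n 1 (Metric.sphere (0 : Cn n) 1) ≠ 0 := by
  have : Nontrivial (Cn n) := by
    apply Module.nontrivial_of_finrank_pos (R := ℂ)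
    rw [finrank_euclideanSpace_fin]; omega
  have : Nontrivial (Cn n) := this
  intro h
  unfold mK at h
  rw [Measure.add_apply, add_eq_zero, Measure.smul_apply, Measure.smul_apply,
    Measure.map_apply measurable_val Metric.isClosed_sphere.measurableSet] at h
  have e1 : (Subtype.val : Metric.sphere (0 : Cn n) 1 → Cn n) ⁻¹' Metric.sphere (0 : Cn n) 1 =
      univ := by
    ext w
    simp
  rw [e1, ENNReal.smul_def, smul_eq_mul] at h
  rcases mul_eq_zero.1 h.2 with h2 | h2
  · have h3 : (cK n 1).toNNReal = 0 := by exact_mod_cast h2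
    rw [Real.toNNReal_eq_zero] at h3
    linarith [cK_one_pos hn]
  · rw [Measure.measure_univ_eq_zero] at h2
    exact (Measure.toSphere_ne_zero (volume : Measure (Cn n))) h2

end Pool.Agent.H48.Psh
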